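import Pool.Agent.NLL.Defs

/-!
# Project NLL, module Comp: the characteristic polynomial of the companion matrix

Induction on `n` by expansion along the first row.
-/

set_option autoImplicit false

namespace Pool.Agent.NLL

open Polynomial in
private theorem charpoly_aux {A : Type*} [Field A] (n : ℕ) : ∀ c : ℕ → A,
    (Matrix.of fun i j : Fin n =>
      if (j : ℕ) + 1 = n then -c i else if (i : ℕ) = j + 1 then (1 : A) else 0).charpoly =
      X ^ n + ∑ i ∈ Finset.range n, C (c i) * X ^ i := by
  induction n with
  | zero =>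
    intro c
    simp [Matrix.charpoly]
  | succ n ih =>
    intro c
    rcases Nat.eq_zero_or_pos n with h0 | hpos
    · subst h0
      simp [Matrix.charpoly, Matrix.charmatrix]
    obtain ⟨m, rfl⟩ : ∃ m, n = m + 1 := ⟨n - 1, by omega⟩
    set M : Matrix (Fin (m + 2)) (Fin (m + 2)) A := Matrix.of fun i j : Fin (m + 2) =>
      if (j : ℕ) + 1 = m + 1 + 1 then -c i else if (i : ℕ) = j + 1 then (1 : A) else 0 with hM
    have hMa : ∀ i j, M i j = if (j : ℕ) + 1 = m + 1 + 1 then -c i else
        if (i : ℕ) = j + 1 then (1 : A) else 0 := fun i j => rfl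
    rw [Matrix.charpoly, Matrix.det_succ_row_zero, Fin.sum_univ_succ, Fin.sum_univ_castSucc]
    have e1 : (M.charmatrix.submatrix Fin.succ (Fin.succAbove 0)).det =
        X ^ (m + 1) + ∑ i ∈ Finset.range (m + 1), C (c (i + 1)) * X ^ i := by
      rw [← ih fun i => c (i + 1), Matrix.charpoly]
      congr 1
      ext i j : 2
      rw [Matrix.submatrix_apply, Matrix.charmatrix_apply, Matrix.charmatrix_apply, hMa]
      simp only [Fin.zero_succAbove, Fin.val_succ, Matrix.of_apply, Matrix.diagonal_apply,
        Fin.succ_inj, add_left_inj]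
    have e2 : (M.charmatrix.submatrix Fin.succ (Fin.succAbove (Fin.last (m + 1)))).det =
        (-1) ^ (m + 1) := by
      rw [Matrix.det_of_isUpperTriangular]
      · rw [Finset.prod_eq_pow_card (b := (-1 : A[X]))]
        · simp
        · intro i _
          rw [Matrix.submatrix_apply, Matrix.charmatrix_apply, hMa]
          simp only [Fin.succAbove_last, Fin.val_succ, Fin.val_castSucc]
          have h1 : ¬ ((i : ℕ) + 1 = m + 1 + 1) := by omega
          have h2 : i.succ ≠ i.castSucc := by
            intro h
            have := congrArg Fin.val h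
            simp at this
          rw [if_neg h1, Matrix.diagonal_apply_ne _ h2]
          simp
      · intro i j hij
        simp only [id] at hij
        rw [Matrix.submatrix_apply, Matrix.charmatrix_apply, hMa]
        simp only [Fin.succAbove_last, Fin.val_succ, Fin.val_castSucc]
        have h1 : ¬ ((j : ℕ) + 1 = m + 1 + 1) := by omega
        have h3 : (j : ℕ) < i := hij
        have h4 : ¬ ((i : ℕ) + 1 = j + 1) := by omega
        have h2 : i.succ ≠ j.castSucc := by
          intro h
          have := congrArg Fin.val h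
          simp at this
          omega
        rw [if_neg h1, if_neg h4, Matrix.diagonal_apply_ne _ h2]
        simp
    have e3 : ∀ i : Fin m, M.charmatrix 0 (Fin.succ (Fin.castSucc i)) = 0 := by
      intro i
      rw [Matrix.charmatrix_apply, hMa]
      have h1 : ¬ (((Fin.succ (Fin.castSucc i) : Fin (m + 2)) : ℕ) + 1 = m + 1 + 1) := by
        simp; omega
      have h2 : (0 : Fin (m + 2)) ≠ Fin.succ (Fin.castSucc i) := (Fin.succ_ne_zero _).symm
      rw [if_neg h1, if_neg (by simp), Matrix.diagonal_apply_ne _ h2]
      simp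
    have e4 : M.charmatrix 0 0 = X := by
      rw [Matrix.charmatrix_apply, hMa]
      simp
    have e5 : M.charmatrix 0 (Fin.succ (Fin.last m)) = C (c 0) := by
      rw [Matrix.charmatrix_apply, hMa]
      have h2 : (0 : Fin (m + 2)) ≠ Fin.succ (Fin.last m) := (Fin.succ_ne_zero _).symm
      rw [if_pos (by simp), Matrix.diagonal_apply_ne _ h2]
      simp
    rw [Finset.sum_eq_zero (fun i _ => by rw [e3 i]; ring)]
    rw [e4, e5, e1]
    have e6 : (Fin.succ (Fin.last m) : Fin (m + 2)) = Fin.last (m + 1) := rfl
    rw [e6, e2]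
    rw [Finset.sum_range_succ' _ (m + 1)]
    have e7 : ((-1 : A[X]) ^ ((Fin.last (m + 1) : Fin (m + 2)) : ℕ)) * (-1) ^ (m + 1) = 1 := by
      rw [Fin.val_last, ← pow_add]
      exact Even.neg_one_pow ⟨m + 1, rfl⟩
    have e8 : ∑ k ∈ Finset.range (m + 1), C (c (k + 1)) * (X : A[X]) ^ (k + 1) =
        X * ∑ k ∈ Finset.range (m + 1), C (c (k + 1)) * X ^ k := by
      rw [Finset.mul_sum]
      exact Finset.sum_congr rfl fun k _ => by ring
    rw [e8]
    simp only [Fin.val_zero, pow_zero, one_mul, zero_add, mul_one]
    linear_combination (C (c 0)) * e7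

theorem charpoly_cpn {A : Type*} [Field A] {n : ℕ} (g : Polynomial A) (hg : g.Monic)
    (hn : g.natDegree = n) : (cpn n g).charpoly = g := by
  have h1 := charpoly_aux n (fun i => g.coeff i)
  have h2 := hg.as_sum
  rw [hn] at h2
  rw [h2.symm] at h1
  exact h1

end Pool.Agent.NLL
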