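import Pool.Agent.NLL.Tri
import Pool.Agent.NLL.Comp

/-!
# Project NLL, module Size: the number `om n f g`

PLAN. `om_map`: pass to `Ab = AlgebraicClosure A`. `f.map φ = V.charpoly` gives `φ (f.coeff 0) = det V`, `φ (f.coeff 1) = - trace V` (`Matrix.charpoly_fin_two`), so `φ (om n f g) = det (Wm (det V) (trace² - 2 det) (cpn n (g.map φ)))`
(`RingHom.map_det`, `Wm`, `cpn` commute with ring homomorphisms). By `charpoly_cpn` the matrices `cpn n (g.map φ)` and `T` have the same characteristic polynomial, so by `det_Wm` over `Ab` (and injectivity of `A → Ab`, `Matrix.charpoly_map`) the two determinants agree.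
`om_eq_zero`: for `σ : M →+* ℂ` put `f' = f.map σ'`, `g' = g.map σ'`; `σ (om n f g) = det (Wm (f'.coeff 0) (..) (cpn n g'))` `= ∏ over pairs (b, b') of roots of g'` of `d b² - s b b' + d b'²` (`det_Wm`, `charpoly_cpn`), and with the roots `a₁, a₂` of `f'`
(`d = a₁ a₂`, `s = a₁² + a₂²`) this is `(a₁ b - a₂ b') (a₂ b - a₁ b')`, of absolute value `≤ (2 c²)²`; there are `n²` pairs: `‖σ (om n f g)‖ ≤ (2 c²) ^ (2 n²)`. So `|norm| ≤ (2 c²) ^ (2 n² [M : ℚ])` (see `natAbs_norm_le` in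
Pool/Agent/Helper37/Rc/Num.lean; copy it, it is private). If `ω = om n f g ≠ 0`, then `ω ∈ ker φ`, `Ideal.absNorm (ker φ) = Nat.card (𝓞 M ⧸ ker φ) = Nat.card k` (`Ideal.absNorm_apply`, `Submodule.cardQuot`, first isomorphism theorem) divides `|norm ω| ≠ 0`
(`Ideal.absNorm_dvd_absNorm_of_le`, `Ideal.absNorm_span_singleton`), so `Nat.card k ≤ |norm ω|`, contradiction.
-/

set_option autoImplicit false

namespace Pool.Agent.NLL

open Polynomial NumberField

private theorem wm_map {R A : Type*} [CommRing R] [CommRing A] {n : ℕ} (ψ : R →+* A) (d s : R)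
    (T : Matrix (Fin n) (Fin n) R) : (Wm d s T).map ψ = Wm (ψ d) (ψ s) (T.map ψ) := by
  have h1 : ∀ i j, ψ ((T * T) i j) = (T.map ψ * T.map ψ) i j := by
    intro i j
    rw [← Matrix.map_mul, Matrix.map_apply]
  ext p q
  unfold Wm
  rw [Matrix.map_apply, Matrix.of_apply, Matrix.of_apply, ← h1, ← h1, Matrix.map_apply,
    Matrix.map_apply]
  simp only [map_add, map_sub, map_mul]
  split_ifs <;> simp only [map_one, map_zero]

private theorem wm_det_map {R A : Type*} [CommRing R] [CommRing A] {n : ℕ} (ψ : R →+* A)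
    (d s : R) (T : Matrix (Fin n) (Fin n) R) :
    ψ (Wm d s T).det = (Wm (ψ d) (ψ s) (T.map ψ)).det := by
  rw [RingHom.map_det, ← wm_map]
  rfl

private theorem cpn_map {R A : Type*} [CommRing R] [CommRing A] (n : ℕ) (ψ : R →+* A)
    (g : R[X]) : (cpn n g).map ψ = cpn n (g.map ψ) := by
  ext i j
  unfold cpn
  rw [Matrix.map_apply, Matrix.of_apply, Matrix.of_apply, coeff_map]
  split_ifs
  · rw [map_neg]
  · rw [map_one]
  · rw [map_zero]

private theorem om_ring {R A : Type*} [CommRing R] [CommRing A] (n : ℕ) (ψ : R →+* A)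
    (f g : R[X]) : ψ (om n f g) = om n (f.map ψ) (g.map ψ) := by
  unfold om
  rw [wm_det_map, cpn_map, coeff_map, coeff_map, map_sub, map_pow, map_mul, map_ofNat]

private theorem wm_charpoly {A : Type*} [Field A] {n : ℕ} (d s : A)
    (T T' : Matrix (Fin n) (Fin n) A) (h : T.charpoly = T'.charpoly) :
    (Wm d s T).det = (Wm d s T').det := by
  apply (algebraMap A (AlgebraicClosure A)).injective
  have h1 : (T.map (algebraMap A (AlgebraicClosure A))).charpoly =
      (T'.map (algebraMap A (AlgebraicClosure A))).charpoly := by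
    have h2 := Matrix.charpoly_map T (algebraMap A (AlgebraicClosure A))
    have h3 := Matrix.charpoly_map T' (algebraMap A (AlgebraicClosure A))
    rw [h] at h2
    exact h2.trans h3.symm
  rw [wm_det_map, wm_det_map, det_Wm, det_Wm, h1]

private theorem om_field {A : Type*} [Field A] {n : ℕ} (F G : A[X]) (hG : G.Monic)
    (V : Matrix (Fin 2) (Fin 2) A) (T : Matrix (Fin n) (Fin n) A)
    (hV : V.charpoly = F) (hT : T.charpoly = G) :
    (Wm V.det (V.trace ^ 2 - 2 * V.det) T).det = om n F G := by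
  have hn : G.natDegree = n := by
    rw [← hT, Matrix.charpoly_natDegree_eq_dim, Fintype.card_fin]
  have h0 : F.coeff 0 = V.det := by
    rw [← hV, Matrix.charpoly_fin_two]
    simp
  have h1 : F.coeff 1 = -V.trace := by
    rw [← hV, Matrix.charpoly_fin_two]
    simp [coeff_C]
  unfold om
  rw [h0, h1, neg_sq]
  refine wm_charpoly _ _ _ _ ?_
  rw [hT, charpoly_cpn G hG hn]

theorem om_map {R : Type*} [CommRing R] {A : Type*} [Field A] {n : ℕ} (φ : R →+* A) (f g : R[X])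
    (hg : g.Monic) (V : Matrix (Fin 2) (Fin 2) A) (T : Matrix (Fin n) (Fin n) A)
    (hV : V.charpoly = f.map φ) (hT : T.charpoly = g.map φ) :
    (Wm V.det (V.trace ^ 2 - 2 * V.det) T).det = φ (om n f g) := by
  rw [om_ring]
  exact om_field _ _ (hg.map φ) V T hV hT

private theorem norm_prod_le (s : Multiset (ℂ × ℂ)) (F : ℂ × ℂ → ℂ) {B : ℝ} (hB : 0 ≤ B)
    (h : ∀ x ∈ s, ‖F x‖ ≤ B) : ‖(s.map F).prod‖ ≤ B ^ s.card := by
  induction s using Multiset.induction_on with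
  | empty => simp
  | cons x s ih =>
    rw [Multiset.map_cons, Multiset.prod_cons, norm_mul, Multiset.card_cons, pow_succ, mul_comm]
    exact mul_le_mul (ih fun y hy => h y (Multiset.mem_cons_of_mem hy))
      (h x (Multiset.mem_cons_self _ _)) (norm_nonneg _) (pow_nonneg hB _)

private theorem om_norm {n : ℕ} {F G : ℂ[X]} (hF : F.Monic) (hG : G.Monic)
    (hF2 : F.natDegree = 2) (hGn : G.natDegree = n) {c : ℝ} (hc : 0 ≤ c)
    (hFc : ∀ z ∈ F.roots, ‖z‖ ≤ c) (hGc : ∀ z ∈ G.roots, ‖z‖ ≤ c) :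
    ‖om n F G‖ ≤ (2 * c ^ 2) ^ (2 * n ^ 2) := by
  have hcard : F.roots.card = 2 := by
    rw [← hF2]
    exact (IsAlgClosed.splits F).natDegree_eq_card_roots.symm
  obtain ⟨a1, a2, ha⟩ := Multiset.card_eq_two.1 hcard
  have hFe : F = (X - C a1) * (X - C a2) := by
    have h1 := (IsAlgClosed.splits F).eq_prod_roots_of_monic hF
    rw [ha] at h1
    simpa using h1
  have ha1 : ‖a1‖ ≤ c := hFc a1 (by rw [ha]; simp)
  have ha2 : ‖a2‖ ≤ c := hFc a2 (by rw [ha]; simp)
  have hFe2 : F = X ^ 2 - C (a1 + a2) * X + C (a1 * a2) := by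
    rw [hFe, C_add, C_mul]
    ring
  have h0 : F.coeff 0 = a1 * a2 := by
    rw [hFe2]
    simp
  have h1 : F.coeff 1 = -(a1 + a2) := by
    rw [hFe2]
    simp [coeff_C]
  unfold om
  rw [det_Wm, charpoly_cpn G hG hGn, h0, h1]
  have hcG : G.roots.card = n := by
    rw [← hGn]
    exact (IsAlgClosed.splits G).natDegree_eq_card_roots.symm
  refine (norm_prod_le (G.roots ×ˢ G.roots) _ (B := (2 * c ^ 2) ^ 2) (by positivity) ?_).trans ?_
  · rintro ⟨b, b'⟩ hb
    obtain ⟨hb1, hb2⟩ := Multiset.mem_product.1 hb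
    have hb1' : ‖b‖ ≤ c := hGc _ hb1
    have hb2' : ‖b'‖ ≤ c := hGc _ hb2
    have e : a1 * a2 * b ^ 2 - ((-(a1 + a2)) ^ 2 - 2 * (a1 * a2)) * b * b' + a1 * a2 * b' ^ 2 =
        (a1 * b - a2 * b') * (a2 * b - a1 * b') := by ring
    show ‖a1 * a2 * b ^ 2 - ((-(a1 + a2)) ^ 2 - 2 * (a1 * a2)) * b * b' + a1 * a2 * b' ^ 2‖ ≤ _
    rw [e, norm_mul, pow_two (2 * c ^ 2)]
    have key : ∀ u v w z : ℂ, ‖u‖ ≤ c → ‖v‖ ≤ c → ‖w‖ ≤ c → ‖z‖ ≤ c →
        ‖u * v - w * z‖ ≤ 2 * c ^ 2 := by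
      intro u v w z hu hv hw hz
      have h3 : ‖u * v‖ ≤ c * c := by
        rw [norm_mul]
        exact mul_le_mul hu hv (norm_nonneg _) hc
      have h4 : ‖w * z‖ ≤ c * c := by
        rw [norm_mul]
        exact mul_le_mul hw hz (norm_nonneg _) hc
      calc ‖u * v - w * z‖ ≤ ‖u * v‖ + ‖w * z‖ := norm_sub_le _ _
        _ ≤ 2 * c ^ 2 := by linarith
    exact mul_le_mul (key _ _ _ _ ha1 hb1' ha2 hb2') (key _ _ _ _ ha2 hb1' ha1 hb2')
      (norm_nonneg _) (by positivity)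
  · rw [Multiset.card_product, hcG, ← pow_mul]
    refine le_of_eq ?_
    congr 1
    ring

private theorem natAbs_norm_le {M : Type*} [Field M] [NumberField M] (ρ : 𝓞 M) {B : ℝ}
    (h : ∀ σ : M →+* ℂ, ‖σ (ρ : M)‖ ≤ B) :
    ((Algebra.norm ℤ ρ).natAbs : ℝ) ≤ B ^ Module.finrank ℚ M := by
  have h1 := Algebra.norm_eq_prod_embeddings ℚ ℂ (ρ : M)
  have h2 : ((Algebra.norm ℤ ρ).natAbs : ℝ) = ‖algebraMap ℚ ℂ (Algebra.norm ℚ (ρ : M))‖ := by
    rw [← Algebra.coe_norm_int, Nat.cast_natAbs]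
    simp
  rw [h2, h1, norm_prod]
  calc ∏ σ : M →ₐ[ℚ] ℂ, ‖σ (ρ : M)‖ ≤ ∏ _σ : M →ₐ[ℚ] ℂ, B :=
        Finset.prod_le_prod (fun _ _ => norm_nonneg _) fun σ _ => h (σ : M →+* ℂ)
    _ = B ^ Module.finrank ℚ M := by
        rw [Finset.prod_const, Finset.card_univ, AlgHom.card]

theorem om_eq_zero {M : Type*} [Field M] [NumberField M] {n : ℕ} {f g : (𝓞 M)[X]} (hf : f.Monic)
    (hg : g.Monic) (hf2 : f.natDegree = 2) (hgn : g.natDegree = n) {c : ℝ} (hc : 0 ≤ c)
    (hfc : ∀ σ : M →+* ℂ, ∀ z : ℂ, f.eval₂ (σ.comp (algebraMap (𝓞 M) M)) z = 0 → ‖z‖ ≤ c)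
    (hgc : ∀ σ : M →+* ℂ, ∀ z : ℂ, g.eval₂ (σ.comp (algebraMap (𝓞 M) M)) z = 0 → ‖z‖ ≤ c)
    {k : Type*} [Field k] [Finite k] (φ : 𝓞 M →+* k) (hφ : Function.Surjective φ)
    (h0 : φ (om n f g) = 0)
    (hN : (2 * c ^ 2) ^ (2 * n ^ 2 * Module.finrank ℚ M) < (Nat.card k : ℝ)) :
    om n f g = 0 := by
  by_contra hne
  have h5 : Ideal.span {(om n f g : 𝓞 M)} ≤ RingHom.ker φ := by
    rw [Ideal.span_le, Set.singleton_subset_iff]
    exact h0
  have h6 := Ideal.absNorm_dvd_absNorm_of_le h5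
  rw [Ideal.absNorm_span_singleton] at h6
  have h7 : 0 < (Algebra.norm ℤ (om n f g : 𝓞 M)).natAbs := by
    rw [Int.natAbs_pos, Ne, Algebra.norm_eq_zero_iff]
    exact hne
  have hk : Ideal.absNorm (RingHom.ker φ) = Nat.card k := by
    rw [Ideal.absNorm_apply, Submodule.cardQuot_apply]
    exact Nat.card_congr (RingHom.quotientKerEquivOfSurjective hφ).toEquiv
  rw [hk] at h6
  have h8 : (Nat.card k : ℝ) ≤ ((Algebra.norm ℤ (om n f g : 𝓞 M)).natAbs : ℝ) :=
    Nat.cast_le.mpr (Nat.le_of_dvd h7 h6)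
  have h9 := natAbs_norm_le (om n f g : 𝓞 M) (B := (2 * c ^ 2) ^ (2 * n ^ 2))
    (fun σ => by
      have h10 : σ ((om n f g : 𝓞 M) : M) = om n (f.map (σ.comp (algebraMap (𝓞 M) M)))
          (g.map (σ.comp (algebraMap (𝓞 M) M))) := by
        rw [← om_ring]
        rfl
      rw [h10]
      refine om_norm (hf.map _) (hg.map _) ?_ ?_ hc ?_ ?_
      · rw [hf.natDegree_map, hf2]
      · rw [hg.natDegree_map, hgn]
      · intro z hz
        refine hfc σ z ?_
        rw [← eval_map]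
        exact (mem_roots'.1 hz).2
      · intro z hz
        refine hgc σ z ?_
        rw [← eval_map]
        exact (mem_roots'.1 hz).2)
  rw [← pow_mul] at h9
  linarith

end Pool.Agent.NLL
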