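import Pool.Agent.NLL.Defs
import Pool.Agent.Helper37.Af.Defs

/-!
# Project NLL, module WPoly: the determinant of `Wm` as a polynomial in the entries

PLAN. As in Pool/Agent/Helper37/Rc/Quad.lean (copy its structure): `P = det (Wm (det X) (trace X ^ 2 - 2 det X) Y)` with the generic matrices `X`, `Y`; all entries of this `n² × n²` matrix have total degree at most `4`
(`det X`, `trace X ^ 2` have degree `2`, `Y * Y` and products of two entries of `Y` degree `2`), so `P.totalDegree ≤ 4 * (n * n)`. Evaluation is a ring homomorphism and `Wm` commutes with it.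
Nonvanishing for given `B` invertible and `δ`: `Wm δ s B = N0 - s • K0` with `K0 p q = B p.1 q.1 * B q.2 p.2` the Kronecker product of `B` and its transpose, invertible (`Matrix.det_kronecker`, or inverse `B⁻¹ ⊗ B⁻ᵀ`), so
`det (N0 - s • K0) = det K0 * det (K0⁻¹ N0 - s • 1) = ± det K0 * charpoly (K0⁻¹ N0) (s)` is nonzero for all but finitely many `s`; the field is infinite (`CharZero`), so there is `t` with `s = t² - 2 δ` good (infinitely many values `t²`); `x = !![0, -δ; 1, t]`.
-/

set_option autoImplicit false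

namespace Pool.Agent.NLL

open Pool.Agent.Helper37.Af

open Matrix

private lemma wp_map {R S : Type*} [CommRing R] [CommRing S] (φ : R →+* S) {n : ℕ} (d s : R)
    (T : Matrix (Fin n) (Fin n) R) :
    φ.mapMatrix (Wm d s T) = Wm (φ d) (φ s) (φ.mapMatrix T) := by
  ext p q
  simp only [RingHom.mapMatrix_apply, Wm, Matrix.map_apply, Matrix.of_apply, map_add, map_sub,
    map_mul, Matrix.mul_apply, map_sum]
  congr 2
  · congr 1
    split_ifs <;> simp
  · congr 1
    split_ifs <;> simp

/-- the generic matrix of size two -/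
private noncomputable def wpX {E : Type*} [Field E] {n : ℕ} :
    Matrix (Fin 2) (Fin 2)
      (MvPolynomial ((Fin 2 × Fin 2) ⊕ (Σ _ : Unit, Fin n × Fin n)) E) :=
  Matrix.of fun a b => MvPolynomial.X (Sum.inl (a, b))

/-- the generic matrix of size `n` -/
private noncomputable def wpY {E : Type*} [Field E] {n : ℕ} :
    Matrix (Fin n) (Fin n)
      (MvPolynomial ((Fin 2 × Fin 2) ⊕ (Σ _ : Unit, Fin n × Fin n)) E) :=
  Matrix.of fun c d => MvPolynomial.X (Sum.inr ⟨(), (c, d)⟩)

/-- the matrix -/
private noncomputable def wpM {E : Type*} [Field E] {n : ℕ} :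
    Matrix (Fin n × Fin n) (Fin n × Fin n)
      (MvPolynomial ((Fin 2 × Fin 2) ⊕ (Σ _ : Unit, Fin n × Fin n)) E) :=
  Wm (wpX (E := E) (n := n)).det
    ((wpX (E := E) (n := n)).trace ^ 2 - 2 * (wpX (E := E) (n := n)).det) wpY

private lemma wp_eval {E : Type*} [Field E] {n : ℕ}
    (x : Matrix (Fin 2) (Fin 2) E) (z : Unit → Matrix (Fin n) (Fin n) E) :
    MvPolynomial.eval (ent x z) (wpM (E := E) (n := n)).det =
      (Wm x.det (x.trace ^ 2 - 2 * x.det) (z ())).det := by
  have h1 : (MvPolynomial.eval (ent x z)).mapMatrix (wpY (E := E) (n := n)) = z () := by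
    ext c d
    simp [RingHom.mapMatrix_apply, ent, wpY]
  have h2 : (MvPolynomial.eval (ent x z)).mapMatrix (wpX (E := E) (n := n)) = x := by
    ext c d
    simp [RingHom.mapMatrix_apply, ent, wpX]
  have h3 : MvPolynomial.eval (ent x z) (wpX (E := E) (n := n)).trace = x.trace := by
    rw [Matrix.trace_fin_two, Matrix.trace_fin_two, map_add]
    simp [ent, wpX]
  have h4 : MvPolynomial.eval (ent x z) (wpX (E := E) (n := n)).det = x.det := by
    rw [RingHom.map_det, h2]
  rw [RingHom.map_det, wpM, wp_map, h1, map_sub, map_pow, map_mul, h3, h4, map_ofNat]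

private lemma wp_exists {E : Type*} [Field E] [CharZero E] {n : ℕ} (B : GL (Fin n) E) (δ : E) :
    ∃ t : E, (Wm δ (t ^ 2 - 2 * δ) (B : Matrix (Fin n) (Fin n) E)).det ≠ 0 := by
  set b : Matrix (Fin n) (Fin n) E := (B : Matrix (Fin n) (Fin n) E) with hb
  set K : Matrix (Fin n × Fin n) (Fin n × Fin n) E := Matrix.of fun p q => b p.1 q.1 * b q.2 p.2
    with hK
  set N : Matrix (Fin n × Fin n) (Fin n × Fin n) E := Wm δ 0 b with hN
  have hbd : b.det ≠ 0 := ((Matrix.isUnit_iff_isUnit_det _).mp B.isUnit).ne_zero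
  have hKd : K.det ≠ 0 := by
    have h1 : K = Matrix.kroneckerMap (fun x y => x * y) b b.transpose := by
      ext p q
      simp [hK, Matrix.kroneckerMap_apply, Matrix.transpose_apply]
    rw [h1]
    have h2 := Matrix.det_kronecker b b.transpose
    rw [h2, Matrix.det_transpose]
    exact mul_ne_zero (pow_ne_zero _ hbd) (pow_ne_zero _ hbd)
  have hKu : IsUnit K.det := IsUnit.mk0 _ hKd
  set M : Matrix (Fin n × Fin n) (Fin n × Fin n) E := K⁻¹ * N with hM
  have hW : ∀ s : E, Wm δ s b = (-K) * (Matrix.scalar (Fin n × Fin n) s - M) := by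
    intro s
    have h1 : Wm δ s b = N - s • K := by
      ext p q
      simp only [hN, hK, Wm, Matrix.of_apply, Matrix.sub_apply, Matrix.smul_apply, smul_eq_mul]
      ring
    have h5 : Matrix.scalar (Fin n × Fin n) s = s • (1 : Matrix (Fin n × Fin n) (Fin n × Fin n) E) := by
      rw [Matrix.smul_one_eq_diagonal]
      rfl
    rw [h1, h5, hM, mul_sub, neg_mul, neg_mul, Matrix.mul_smul, Matrix.mul_one, ← Matrix.mul_assoc,
      Matrix.mul_nonsing_inv K hKu, Matrix.one_mul]
    abel
  have h1 : ∃ t : E, M.charpoly.eval (t ^ 2 - 2 * δ) ≠ 0 := by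
    by_contra hc
    push Not at hc
    have h2 : M.charpoly.comp (Polynomial.X ^ 2 - Polynomial.C (2 * δ)) = 0 := by
      apply Polynomial.funext
      intro r
      rw [Polynomial.eval_comp, Polynomial.eval_zero]
      simpa using hc r
    rw [Polynomial.comp_eq_zero_iff] at h2
    rcases h2 with h2 | h2
    · exact (Matrix.charpoly_monic M).ne_zero h2
    · have h3 := congrArg Polynomial.natDegree h2.2
      rw [Polynomial.natDegree_X_pow_sub_C, Polynomial.natDegree_C] at h3
      omega
  obtain ⟨t, ht⟩ := h1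
  refine ⟨t, ?_⟩
  rw [Matrix.eval_charpoly] at ht
  rw [hW, Matrix.det_mul]
  refine mul_ne_zero ?_ ht
  rw [Matrix.det_neg]
  exact mul_ne_zero (pow_ne_zero _ (by simp)) hKd

private lemma wp_det_degree {E : Type*} [Field E] {σ : Type*} {ι : Type*} [Fintype ι]
    [DecidableEq ι] {k : ℕ}
    (M : Matrix ι ι (MvPolynomial σ E)) (h : ∀ i j, (M i j).totalDegree ≤ k) :
    M.det.totalDegree ≤ k * Fintype.card ι := by
  rw [Matrix.det_apply]
  refine (MvPolynomial.totalDegree_finsetSum _ _).trans (Finset.sup_le fun τ _ => ?_)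
  have h1 : (∏ i, M (τ i) i).totalDegree ≤ k * Fintype.card ι := by
    refine (MvPolynomial.totalDegree_finsetProd _ _).trans ?_
    calc ∑ i, (M (τ i) i).totalDegree ≤ ∑ _i : ι, k := Finset.sum_le_sum fun i _ => h (τ i) i
      _ = k * Fintype.card ι := by
        rw [Finset.sum_const, Finset.card_univ, smul_eq_mul, mul_comm]
  rcases Int.units_eq_one_or (Equiv.Perm.sign τ) with hs | hs
  · rw [hs, one_smul]
    exact h1
  · rw [hs, Units.neg_smul, one_smul, MvPolynomial.totalDegree_neg]
    exact h1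

private lemma wp_ite {E : Type*} [Field E] {σ : Type*} (p : Prop) [Decidable p] :
    (if p then (1 : MvPolynomial σ E) else 0).totalDegree = 0 := by
  split_ifs
  · exact MvPolynomial.totalDegree_one
  · exact MvPolynomial.totalDegree_zero

private lemma wp_entry {E : Type*} [Field E] {n : ℕ} (p q : Fin n × Fin n) :
    (wpM (E := E) (n := n) p q).totalDegree ≤ 4 := by
  have hY : ∀ a b, ((wpY (E := E) (n := n)) a b).totalDegree ≤ 1 := fun a b =>
    (MvPolynomial.totalDegree_X _).le
  have hX : ∀ a b, ((wpX (E := E) (n := n)) a b).totalDegree ≤ 1 := fun a b =>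
    (MvPolynomial.totalDegree_X _).le
  have hdet : (wpX (E := E) (n := n)).det.totalDegree ≤ 2 := by
    rw [Matrix.det_fin_two]
    refine (MvPolynomial.totalDegree_sub _ _).trans (max_le ?_ ?_)
    · have h1 := MvPolynomial.totalDegree_mul (wpX (E := E) (n := n) 0 0) (wpX 1 1)
      have h2 := hX 0 0
      have h3 := hX 1 1
      omega
    · have h1 := MvPolynomial.totalDegree_mul (wpX (E := E) (n := n) 0 1) (wpX 1 0)
      have h2 := hX 0 1
      have h3 := hX 1 0
      omega
  have htr : (wpX (E := E) (n := n)).trace.totalDegree ≤ 1 := by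
    rw [Matrix.trace_fin_two]
    exact (MvPolynomial.totalDegree_add _ _).trans (max_le (hX 0 0) (hX 1 1))
  have hs : ((wpX (E := E) (n := n)).trace ^ 2 -
      2 * (wpX (E := E) (n := n)).det).totalDegree ≤ 2 := by
    refine (MvPolynomial.totalDegree_sub _ _).trans (max_le ?_ ?_)
    · rw [pow_two]
      have h1 := MvPolynomial.totalDegree_mul (wpX (E := E) (n := n)).trace
        (wpX (E := E) (n := n)).trace
      omega
    · have h1 := MvPolynomial.totalDegree_mul
        (2 : MvPolynomial ((Fin 2 × Fin 2) ⊕ (Σ _ : Unit, Fin n × Fin n)) E)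
        (wpX (E := E) (n := n)).det
      have h2 : (2 : MvPolynomial ((Fin 2 × Fin 2) ⊕ (Σ _ : Unit, Fin n × Fin n)) E).totalDegree
          = 0 := by
        have : (2 : MvPolynomial ((Fin 2 × Fin 2) ⊕ (Σ _ : Unit, Fin n × Fin n)) E) =
            MvPolynomial.C 2 := (map_ofNat MvPolynomial.C 2).symm
        rw [this, MvPolynomial.totalDegree_C]
      omega
  have hYY : ∀ a b : Fin n, (((wpY (E := E) (n := n)) * (wpY (E := E) (n := n)) :
      Matrix (Fin n) (Fin n) (MvPolynomial ((Fin 2 × Fin 2) ⊕ (Σ _ : Unit, Fin n × Fin n)) E))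
      a b).totalDegree ≤ 2 := by
    intro a b
    rw [Matrix.mul_apply]
    refine (MvPolynomial.totalDegree_finsetSum _ _).trans (Finset.sup_le fun k _ => ?_)
    have h1 := MvPolynomial.totalDegree_mul (wpY (E := E) a k) (wpY k b)
    have h2 := hY a k
    have h3 := hY k b
    omega
  rw [wpM, Wm, Matrix.of_apply]
  refine (MvPolynomial.totalDegree_add _ _).trans (max_le
    ((MvPolynomial.totalDegree_sub _ _).trans (max_le ?_ ?_)) ?_)
  · refine (MvPolynomial.totalDegree_mul _ _).trans ?_
    rw [wp_ite]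
    refine (Nat.add_le_add_right (MvPolynomial.totalDegree_mul _ _) 0).trans ?_
    have h1 := hYY p.1 q.1
    omega
  · refine (MvPolynomial.totalDegree_mul _ _).trans ?_
    refine (Nat.add_le_add_right (MvPolynomial.totalDegree_mul _ _) _).trans ?_
    have h1 := hY p.1 q.1
    have h2 := hY q.2 p.2
    omega
  · refine (MvPolynomial.totalDegree_mul _ _).trans ?_
    refine (Nat.add_le_add_right (MvPolynomial.totalDegree_mul _ _) _).trans ?_
    rw [wp_ite]
    have h1 := hYY q.2 p.2
    omega

theorem exists_wpoly (E : Type*) [Field E] [CharZero E] (n : ℕ) :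
    ∃ P : MvPolynomial ((Fin 2 × Fin 2) ⊕ (Σ _ : Unit, Fin n × Fin n)) E,
      P.totalDegree ≤ 4 * (n * n) ∧
      (∀ (x : Matrix (Fin 2) (Fin 2) E) (z : Unit → Matrix (Fin n) (Fin n) E),
        MvPolynomial.eval (ent x z) P =
          (Wm x.det (x.trace ^ 2 - 2 * x.det) (z ())).det) ∧
      ∀ (B : GL (Fin n) E) (δ : E), ∃ x : Matrix (Fin 2) (Fin 2) E, x.det = δ ∧
        MvPolynomial.eval (ent x (fun _ => (B : Matrix (Fin n) (Fin n) E))) P ≠ 0 := by
  refine ⟨(wpM (E := E) (n := n)).det, ?_, wp_eval, fun B δ => ?_⟩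
  · have h := wp_det_degree (wpM (E := E) (n := n)) wp_entry
    rwa [Fintype.card_prod, Fintype.card_fin] at h
  obtain ⟨t, ht⟩ := wp_exists B δ
  refine ⟨!![0, -δ; 1, t], ?_, ?_⟩
  · rw [Matrix.det_fin_two_of]
    ring
  · rw [wp_eval]
    have h1 : (!![0, -δ; 1, t]).trace = t := by
      rw [Matrix.trace_fin_two_of]
      ring
    have h2 : (!![0, -δ; 1, t]).det = δ := by
      rw [Matrix.det_fin_two_of]
      ring
    rw [h1, h2]
    exact ht

end Pool.Agent.NLL
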