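import Pool.Agent.NLL.Defs

/-!
# Project NLL, module Eig: the ratio of the eigenvalues of `V` is a ratio of eigenvalues of `T`

PLAN. Let `kb = AlgebraicClosure k`, `V' , T'` the matrices over `kb`, `d = det V`, `t = trace V`, `s = t² - 2 d`. The matrix `Wm d s T'` acts on functions on `Fin n × Fin n` as the operator `Ω X = d T'² X - s T' X T' + d X T'²` on matrices
(`(Wm d s T') *ᵥ (fun q => X q.1 q.2) = fun p => (Ω X) p.1 p.2`, by expanding the sums). Let `q = d X² - s X + d` and let `P` be the characteristic polynomial of the matrix of `cj T` over `ZMod l`.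
If `det (Wm d s T) ≠ 0` then `q` and `P` have no common root in `kb` (a common root `a` gives `X ≠ 0` with `T' X = a X T'` and `Ω X = q(a) X T'² = 0`), so they are coprime over `k`. As `P(cj V)` vanishes on the matrices of trace zero, `q(cj V)` is injective there.
But `q(cj V) (cj V - 1)` vanishes there (Cayley-Hamilton), so `V` commutes with all matrices of trace zero, is scalar, and then `q(cj V) = 0`.
-/

set_option autoImplicit false

namespace Pool.Agent.NLL

open Polynomial in
private lemma cj_apply {K R : Type} [Field K] [CommRing R] [Algebra K R] {n : ℕ}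
    (g : GL (Fin n) R) (Z : Matrix (Fin n) (Fin n) R) :
    cj K g Z = (g : Matrix (Fin n) (Fin n) R) * Z * ((g⁻¹ : GL (Fin n) R) : Matrix (Fin n) (Fin n) R) := by
  simp [cj, Matrix.mul_assoc]

private lemma cj_pow_apply {K R : Type} [Field K] [CommRing R] [Algebra K R] {n : ℕ}
    (g : GL (Fin n) R) (i : ℕ) (Z : Matrix (Fin n) (Fin n) R) :
    ((cj K g) ^ i) Z = (g : Matrix (Fin n) (Fin n) R) ^ i * Z *
      ((g⁻¹ : GL (Fin n) R) : Matrix (Fin n) (Fin n) R) ^ i := by
  induction i generalizing Z with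
  | zero => simp
  | succ i ih =>
    rw [pow_succ, Module.End.mul_apply, ih, cj_apply]
    rw [pow_succ (g : Matrix (Fin n) (Fin n) R) i,
      pow_succ' ((g⁻¹ : GL (Fin n) R) : Matrix (Fin n) (Fin n) R) i]
    simp only [Matrix.mul_assoc]

private lemma aeval_cj {K R : Type} [Field K] [CommRing R] [Algebra K R] {n : ℕ}
    (g : GL (Fin n) R) (P : Polynomial K) (Z : Matrix (Fin n) (Fin n) R) :
    Polynomial.aeval (cj K g) P Z = ∑ i ∈ Finset.range (P.natDegree + 1),
      P.coeff i • ((g : Matrix (Fin n) (Fin n) R) ^ i * Z *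
      ((g⁻¹ : GL (Fin n) R) : Matrix (Fin n) (Fin n) R) ^ i) := by
  rw [Polynomial.aeval_eq_sum_range, LinearMap.sum_apply]
  refine Finset.sum_congr rfl fun i _ => ?_
  rw [LinearMap.smul_apply, cj_pow_apply]

private lemma aeval_cj_map {K k : Type} [Field K] [Field k] [Algebra K k] {n : ℕ}
    (g : GL (Fin n) k) (P : Polynomial K) (Z : Matrix (Fin n) (Fin n) k) :
    Polynomial.aeval (cj k g) (P.map (algebraMap K k)) Z = Polynomial.aeval (cj K g) P Z := by
  rw [aeval_cj, aeval_cj, Polynomial.natDegree_map_eq_of_injective (algebraMap K k).injective]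
  refine Finset.sum_congr rfl fun i _ => ?_
  rw [Polynomial.coeff_map, algebraMap_smul]

/-- the matrix of the conjugation -/
private def Km {R : Type*} [CommRing R] {n : ℕ} (T S : Matrix (Fin n) (Fin n) R) :
    Matrix (Fin n × Fin n) (Fin n × Fin n) R :=
  Matrix.of fun p q => T p.1 q.1 * S q.2 p.2

private lemma Km_mulVec {R : Type*} [CommRing R] {n : ℕ} (T S X : Matrix (Fin n) (Fin n) R) :
    (Km T S).mulVec (fun q => X q.1 q.2) = fun p => (T * X * S) p.1 p.2 := by
  funext p
  simp only [Matrix.mulVec, dotProduct, Km, Matrix.of_apply, Fintype.sum_prod_type,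
    Matrix.mul_apply, Finset.sum_mul]
  rw [Finset.sum_comm]
  refine Finset.sum_congr rfl fun i _ => Finset.sum_congr rfl fun j _ => ?_
  ring

private lemma Km_pow_mulVec {R : Type*} [CommRing R] {n : ℕ} (T S X : Matrix (Fin n) (Fin n) R)
    (i : ℕ) :
    ((Km T S) ^ i).mulVec (fun q => X q.1 q.2) = fun p => (T ^ i * X * S ^ i) p.1 p.2 := by
  induction i with
  | zero => simp
  | succ i ih =>
    rw [pow_succ', ← Matrix.mulVec_mulVec, ih, Km_mulVec, pow_succ' T i, pow_succ S i]
    simp only [Matrix.mul_assoc]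

private lemma charp_cj {K : Type} [Field K] {n : ℕ} (T : GL (Fin n) K) :
    Polynomial.aeval (cj K T) (Km (T : Matrix (Fin n) (Fin n) K)
      ((T⁻¹ : GL (Fin n) K) : Matrix (Fin n) (Fin n) K)).charpoly = 0 := by
  set P := (Km (T : Matrix (Fin n) (Fin n) K)
      ((T⁻¹ : GL (Fin n) K) : Matrix (Fin n) (Fin n) K)).charpoly with hP
  refine LinearMap.ext fun X => ?_
  have h1 := Matrix.aeval_self_charpoly (Km (T : Matrix (Fin n) (Fin n) K)
      ((T⁻¹ : GL (Fin n) K) : Matrix (Fin n) (Fin n) K))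
  rw [← hP, Polynomial.aeval_eq_sum_range] at h1
  have h2 := congrArg (fun M : Matrix (Fin n × Fin n) (Fin n × Fin n) K =>
    M.mulVec (fun q => X q.1 q.2)) h1
  simp only [Matrix.sum_mulVec, Matrix.smul_mulVec, Matrix.zero_mulVec, Km_pow_mulVec] at h2
  rw [aeval_cj]
  ext i j
  have h3 := congrFun h2 (i, j)
  simpa [Matrix.sum_apply] using h3

private lemma Wm_mulVec {R : Type*} [CommRing R] {n : ℕ} (d s : R)
    (T X : Matrix (Fin n) (Fin n) R) :
    (Wm d s T).mulVec (fun q => X q.1 q.2) =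
      fun p => (d • (T * T * X) - s • (T * X * T) + d • (X * (T * T))) p.1 p.2 := by
  funext p
  simp only [Matrix.mulVec, dotProduct, Wm, Matrix.of_apply, Fintype.sum_prod_type,
    Matrix.add_apply, Matrix.sub_apply, Matrix.smul_apply, smul_eq_mul]
  simp only [add_mul, sub_mul, Finset.sum_add_distrib, Finset.sum_sub_distrib]
  congr 1
  · congr 1
    · rw [Matrix.mul_apply (M := T * T), Finset.mul_sum]
      refine Finset.sum_congr rfl fun i _ => ?_
      rw [Finset.sum_eq_single p.2]
      · simp; ring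
      · intro b _ hb
        simp [Ne.symm hb]
      · simp
    · simp only [Matrix.mul_apply (M := T * X), Matrix.mul_apply (M := T) (N := X), Finset.mul_sum,
        Finset.sum_mul]
      rw [Finset.sum_comm]
      refine Finset.sum_congr rfl fun i _ => Finset.sum_congr rfl fun j _ => ?_
      ring
  · rw [Finset.sum_eq_single p.1]
    · rw [Matrix.mul_apply (M := X), Finset.mul_sum]
      refine Finset.sum_congr rfl fun i _ => ?_
      simp; ring
    · intro b _ hb
      simp [Ne.symm hb]
    · simp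

private lemma sl2a {k : Type} [Field k] (a b c e x y z : k) (hd : a * e - b * c ≠ 0) :
    (a * e - b * c) • (!![a, b; c, e] * (!![a, b; c, e] *
      (!![a, b; c, e] * !![x, y; z, -x] * ((a * e - b * c)⁻¹ • !![e, -b; -c, a]) - !![x, y; z, -x]) *
      ((a * e - b * c)⁻¹ • !![e, -b; -c, a])) * ((a * e - b * c)⁻¹ • !![e, -b; -c, a])) -
    ((a + e) ^ 2 - 2 * (a * e - b * c)) • (!![a, b; c, e] *
      (!![a, b; c, e] * !![x, y; z, -x] * ((a * e - b * c)⁻¹ • !![e, -b; -c, a]) - !![x, y; z, -x]) *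
      ((a * e - b * c)⁻¹ • !![e, -b; -c, a])) +
    (a * e - b * c) • (!![a, b; c, e] * !![x, y; z, -x] *
      ((a * e - b * c)⁻¹ • !![e, -b; -c, a]) - !![x, y; z, -x]) = 0 := by
  ext i j
  fin_cases i <;> fin_cases j <;> simp <;> field_simp <;> ring

private lemma aevq {k : Type} [Field k] (U : Module.End k (Matrix (Fin 2) (Fin 2) k)) (d s : k)
    (W : Matrix (Fin 2) (Fin 2) k) :
    Polynomial.aeval U (Polynomial.C d * Polynomial.X ^ 2 - Polynomial.C s * Polynomial.X +
        Polynomial.C d) W = d • U (U W) - s • U W + d • W := by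
  simp only [map_add, map_sub, map_mul, Polynomial.aeval_C, Polynomial.aeval_X,
    LinearMap.add_apply, LinearMap.sub_apply, Module.End.mul_apply, Module.algebraMap_end_apply,
    pow_two]

private lemma sl2 {k : Type} [Field k] (V : GL (Fin 2) k) (Z : Matrix (Fin 2) (Fin 2) k)
    (hZ : Z.trace = 0) :
    Polynomial.aeval (cj k V)
      (Polynomial.C (V : Matrix (Fin 2) (Fin 2) k).det * Polynomial.X ^ 2 -
        Polynomial.C ((V : Matrix (Fin 2) (Fin 2) k).trace ^ 2 -
          2 * (V : Matrix (Fin 2) (Fin 2) k).det) * Polynomial.X +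
        Polynomial.C (V : Matrix (Fin 2) (Fin 2) k).det) (cj k V Z - Z) = 0 := by
  have hdet : (V : Matrix (Fin 2) (Fin 2) k).det ≠ 0 := by
    have := Matrix.isUnits_det_units V
    exact this.ne_zero
  have hN : ((V⁻¹ : GL (Fin 2) k) : Matrix (Fin 2) (Fin 2) k) =
      ((V : Matrix (Fin 2) (Fin 2) k).det)⁻¹ • (V : Matrix (Fin 2) (Fin 2) k).adjugate := by
    rw [Matrix.coe_units_inv, Matrix.inv_def, Ring.inverse_eq_inv']
  rw [aevq]
  simp only [cj_apply]
  rw [hN]
  generalize (V : Matrix (Fin 2) (Fin 2) k) = M at hdet ⊢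
  have hM : M = !![M 0 0, M 0 1; M 1 0, M 1 1] := Matrix.eta_fin_two M
  have hZ' : Z = !![Z 0 0, Z 0 1; Z 1 0, - Z 0 0] := by
    have : Z 1 1 = - Z 0 0 := by
      rw [Matrix.trace_fin_two] at hZ
      linear_combination hZ
    rw [← this]
    exact Matrix.eta_fin_two Z
  rw [Matrix.det_fin_two] at hdet
  have := sl2a (M 0 0) (M 0 1) (M 1 0) (M 1 1) (Z 0 0) (Z 0 1) (Z 1 0) hdet
  rw [← hM, ← hZ'] at this
  rw [Matrix.adjugate_fin_two, Matrix.det_fin_two, Matrix.trace_fin_two]
  exact this

private lemma step {k kb : Type} [Field k] [Field kb] (n : ℕ) (f : k →+* kb) (d s : k)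
    (T S : Matrix (Fin n) (Fin n) k) (hTS : S * T = 1) (a : kb)
    (h1 : f d * a ^ 2 - f s * a + f d = 0) (h2 : ((Km T S).charpoly.map f).eval a = 0) :
    (Wm d s T).det = 0 := by
  have h3 : ((Km T S).map f).charpoly.eval a = 0 := by rwa [Matrix.charpoly_map]
  rw [Matrix.eval_charpoly] at h3
  obtain ⟨v, hv, hv2⟩ := Matrix.exists_mulVec_eq_zero_iff.mpr h3
  have hK : (Km T S).map f = Km (T.map f) (S.map f) := by
    ext p q
    simp [Km]
  rw [hK] at hv2
  set X : Matrix (Fin n) (Fin n) kb := Matrix.of fun i j => v (i, j) with hX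
  have hvX : v = fun q => X q.1 q.2 := by
    funext q
    simp [hX]
  have hTS' : S.map f * T.map f = 1 := by
    rw [← Matrix.map_mul, hTS]
    simp
  have h4 : T.map f * X * S.map f = a • X := by
    rw [Matrix.sub_mulVec, hvX, Km_mulVec] at hv2
    ext i j
    have := congrFun hv2 (i, j)
    simp only [Pi.sub_apply, Pi.zero_apply] at this
    have h5 : ((Matrix.scalar (Fin n × Fin n)) a).mulVec (fun q => X q.1 q.2) (i, j) = a * X i j := by
      simp [Matrix.scalar_apply, Matrix.mulVec_diagonal]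
    rw [h5] at this
    rw [Matrix.smul_apply, smul_eq_mul]
    linear_combination -this
  have h5 : T.map f * X = a • (X * T.map f) := by
    rw [← Matrix.smul_mul, ← h4, Matrix.mul_assoc, hTS', Matrix.mul_one]
  have h6 : f d • (T.map f * T.map f * X) - f s • (T.map f * X * T.map f) +
      f d • (X * (T.map f * T.map f)) = 0 := by
    have e1 : T.map f * T.map f * X = a ^ 2 • (X * (T.map f * T.map f)) := by
      rw [Matrix.mul_assoc, h5, Matrix.mul_smul, ← Matrix.mul_assoc, h5, Matrix.smul_mul, smul_smul,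
        Matrix.mul_assoc, pow_two]
    have e2 : T.map f * X * T.map f = a • (X * (T.map f * T.map f)) := by
      rw [h5, Matrix.smul_mul, Matrix.mul_assoc]
    rw [e1, e2, smul_smul, smul_smul, ← sub_smul, ← add_smul, h1, zero_smul]
  have h7 : ((Wm d s T).map f).det = 0 := by
    refine Matrix.exists_mulVec_eq_zero_iff.mp ⟨v, hv, ?_⟩
    have : (Wm d s T).map f = Wm (f d) (f s) (T.map f) := by
      ext p q
      simp only [Wm, Matrix.map_apply, Matrix.of_apply, map_add, map_sub, map_mul, Matrix.mul_apply,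
        map_sum]
      split_ifs <;> simp
    rw [this, hvX, Wm_mulVec, h6]
    rfl
  rw [← RingHom.mapMatrix_apply, ← RingHom.map_det] at h7
  exact (map_eq_zero f).mp h7

theorem eig {l : ℕ} [Fact l.Prime] {k : Type} [Field k] [Algebra (ZMod l) k] {n : ℕ}
    (V : GL (Fin 2) k) (T : GL (Fin n) (ZMod l))
    (h : ∀ P : Polynomial (ZMod l), Polynomial.aeval (cj (ZMod l) T) P = 0 →
      ∀ Z : Matrix (Fin 2) (Fin 2) k, Z.trace = 0 → Polynomial.aeval (cj (ZMod l) V) P Z = 0) :
    (Wm (V : Matrix (Fin 2) (Fin 2) k).det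
      ((V : Matrix (Fin 2) (Fin 2) k).trace ^ 2 - 2 * (V : Matrix (Fin 2) (Fin 2) k).det)
      ((T : Matrix (Fin n) (Fin n) (ZMod l)).map (algebraMap (ZMod l) k))).det = 0 := by
  by_contra hne
  set d := (V : Matrix (Fin 2) (Fin 2) k).det with hd
  set s := (V : Matrix (Fin 2) (Fin 2) k).trace ^ 2 - 2 * d with hs
  set q : Polynomial k := Polynomial.C d * Polynomial.X ^ 2 - Polynomial.C s * Polynomial.X +
    Polynomial.C d with hq
  set P := (Km (T : Matrix (Fin n) (Fin n) (ZMod l))
      ((T⁻¹ : GL (Fin n) (ZMod l)) : Matrix (Fin n) (Fin n) (ZMod l))).charpoly with hP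
  have hP0 : Polynomial.aeval (cj (ZMod l) T) P = 0 := charp_cj T
  have hTS : ((T⁻¹ : GL (Fin n) (ZMod l)) : Matrix (Fin n) (Fin n) (ZMod l)) * T = 1 := by
    rw [← Units.val_mul, inv_mul_cancel, Units.val_one]
  have hcop : IsCoprime q (P.map (algebraMap (ZMod l) k)) := by
    rw [Polynomial.isCoprime_iff_aeval_ne_zero_of_isAlgClosed k (AlgebraicClosure k)]
    intro a
    by_contra hcon
    push Not at hcon
    obtain ⟨c1, c2⟩ := hcon
    refine hne ?_
    refine step n (algebraMap k (AlgebraicClosure k)) d s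
      ((T : Matrix (Fin n) (Fin n) (ZMod l)).map (algebraMap (ZMod l) k))
      (((T⁻¹ : GL (Fin n) (ZMod l)) : Matrix (Fin n) (Fin n) (ZMod l)).map (algebraMap (ZMod l) k))
      ?_ a ?_ ?_
    · rw [← Matrix.map_mul, hTS]
      simp
    · simpa [hq] using c1
    · have : Km ((T : Matrix (Fin n) (Fin n) (ZMod l)).map (algebraMap (ZMod l) k))
        (((T⁻¹ : GL (Fin n) (ZMod l)) : Matrix (Fin n) (Fin n) (ZMod l)).map (algebraMap (ZMod l) k)) =
        (Km (T : Matrix (Fin n) (Fin n) (ZMod l))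
          ((T⁻¹ : GL (Fin n) (ZMod l)) : Matrix (Fin n) (Fin n) (ZMod l))).map
          (algebraMap (ZMod l) k) := by
        ext p q
        simp [Km]
      rw [this, Matrix.charpoly_map, Polynomial.eval_map_algebraMap]
      exact c2
  obtain ⟨u, w, huw⟩ := hcop
  have hinj : ∀ Z : Matrix (Fin 2) (Fin 2) k, Z.trace = 0 →
      Polynomial.aeval (cj k V) q Z = 0 → Z = 0 := by
    intro Z hZ hqZ
    have h1 := congrArg (fun F => Polynomial.aeval (cj k V) F Z) huw
    simp only [map_add, map_mul, LinearMap.add_apply, Module.End.mul_apply, map_one,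
      Module.End.one_apply] at h1
    rw [hqZ, aeval_cj_map, h P hP0 Z hZ, map_zero, map_zero, add_zero] at h1
    exact h1.symm
  have htr : ∀ Z : Matrix (Fin 2) (Fin 2) k, Z.trace = 0 → (cj k V Z - Z).trace = 0 := by
    intro Z hZ
    rw [Matrix.trace_sub, hZ, cj_apply, Matrix.trace_mul_cycle, ← Units.val_mul, inv_mul_cancel,
      Units.val_one, Matrix.one_mul, hZ, sub_zero]
  have hcomm : ∀ Z : Matrix (Fin 2) (Fin 2) k, Z.trace = 0 →
      (V : Matrix (Fin 2) (Fin 2) k) * Z = Z * V := by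
    intro Z hZ
    have h1 := hinj _ (htr Z hZ) (sl2 V Z hZ)
    rw [sub_eq_zero, cj_apply] at h1
    calc (V : Matrix (Fin 2) (Fin 2) k) * Z = (V : Matrix (Fin 2) (Fin 2) k) * Z *
        (((V⁻¹ : GL (Fin 2) k) : Matrix (Fin 2) (Fin 2) k) * V) := by
          rw [← Units.val_mul, inv_mul_cancel, Units.val_one, Matrix.mul_one]
      _ = Z * V := by rw [← Matrix.mul_assoc, h1]
  have hE : (!![0, 1; 0, 0] : Matrix (Fin 2) (Fin 2) k).trace = 0 := by
    simp [Matrix.trace_fin_two]
  have hF : (!![0, 0; 1, 0] : Matrix (Fin 2) (Fin 2) k).trace = 0 := by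
    simp [Matrix.trace_fin_two]
  have cE := hcomm _ hE
  have cF := hcomm _ hF
  have e1 : (V : Matrix (Fin 2) (Fin 2) k) 1 0 = 0 := by
    have := congrFun (congrFun cE 0) 0
    simp [Matrix.mul_apply, Fin.sum_univ_two] at this
    exact this.symm
  have e2 : (V : Matrix (Fin 2) (Fin 2) k) 0 1 = 0 := by
    have := congrFun (congrFun cF 0) 0
    simp [Matrix.mul_apply, Fin.sum_univ_two] at this
    exact this
  have e3 : (V : Matrix (Fin 2) (Fin 2) k) 0 0 = (V : Matrix (Fin 2) (Fin 2) k) 1 1 := by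
    have := congrFun (congrFun cE 0) 1
    simp [Matrix.mul_apply, Fin.sum_univ_two] at this
    exact this
  have hcE : cj k V !![0, 1; 0, 0] = !![0, 1; 0, 0] := by
    rw [cj_apply, cE, Matrix.mul_assoc, ← Units.val_mul, mul_inv_cancel, Units.val_one,
      Matrix.mul_one]
  have hfin : Polynomial.aeval (cj k V) q !![0, 1; 0, 0] = 0 := by
    rw [hq, aevq, hcE, hcE]
    rw [← sub_smul, ← add_smul]
    have : d - s + d = 0 := by
      rw [hs, hd, Matrix.det_fin_two, Matrix.trace_fin_two, e1, e2, e3]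
      ring
    rw [this, zero_smul]
  have := hinj _ hE hfin
  have h01 := congrFun (congrFun this 0) 1
  simp at h01

end Pool.Agent.NLL
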