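import Pool.Agent.NLL.Nil

/-!
# Project NLL, module ExU: an element of order `l`

PLAN. `τ x` has finite order `o = l ^ e * m'` with `m'` prime to `l` (`Nat.exists_eq_pow_mul_and_not_dvd`). Put `u = x ^ m'`. `g = τ u` satisfies `g ^ (l ^ e) = 1`, hence `(g - 1) ^ (l ^ e) = 0`
(characteristic `l`), so `g - 1` is nilpotent and `(g - 1) ^ n = 0` (as in `sub_one_pow`; see module Nil: a nilpotent `n × n` matrix has `n`-th power zero), so `g ^ l = 1` by `pow_char` (`n ≤ l`): `τ u ^ l = 1`.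
Then `τ (u ^ l) = 1`, so `ρ u ^ l` is a scalar matrix `c`. `k` is a finite field of characteristic `l`, so `c = s ^ l` for some `s` (the Frobenius is bijective: `frobenius`, `PerfectRing`), `s ≠ 0`;
`(ρ u - s) ^ l = ρ u ^ l - s ^ l = 0` (commuting matrices in characteristic `l`), so `(ρ u - s) ^ 2 = 0` (size two). `Y = s⁻¹ • (ρ u - s)`. If `Y = 0` then `ρ x ^ m' = ρ u = s` is scalar, `s ^ (card k - 1) = 1`, so `orderOf (ρ x)` divides
`m' * (card k - 1)`, which is prime to `l` (`card k` is a power of `l`), contradicting `hx`.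
-/

set_option autoImplicit false

namespace Pool.Agent.NLL

private theorem ex_nil {K : Type} [Field K] {n : ℕ} (M : Matrix (Fin n) (Fin n) K)
    (hM : IsNilpotent M) : M ^ n = 0 := by
  have h1 : IsNilpotent (M.charpoly - Polynomial.X ^ Fintype.card (Fin n)) :=
    Matrix.isNilpotent_charpoly_sub_pow_of_isNilpotent hM
  have h2 : M.charpoly = Polynomial.X ^ n := by
    have h3 := h1.eq_zero
    rw [Fintype.card_fin] at h3
    exact sub_eq_zero.1 h3
  have h4 := Matrix.aeval_self_charpoly M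
  rw [h2, map_pow, Polynomial.aeval_X] at h4
  exact h4

theorem exists_unip {l : ℕ} [Fact l.Prime] {n : ℕ} (hn : n ≤ l) {k : Type} [Field k] [Finite k]
    [CharP k l] {Γ : Type} [Group Γ] (ρ : Γ →* GL (Fin 2) k) (τ : Γ →* GL (Fin n) (ZMod l))
    (hker : ∀ x, τ x = 1 → ∃ s : k, (ρ x : Matrix (Fin 2) (Fin 2) k) = s • 1)
    (x : Γ) (hx : l ∣ orderOf (ρ x)) :
    ∃ (u : Γ) (s : k) (Y : Matrix (Fin 2) (Fin 2) k), τ u ^ l = 1 ∧
      (ρ u : Matrix (Fin 2) (Fin 2) k) = s • (1 + Y) ∧ Y * Y = 0 ∧ Y ≠ 0 := by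
  classical
  have hl : l.Prime := Fact.out
  have ho : orderOf (τ x) ≠ 0 := (isOfFinOrder_of_finite (τ x)).orderOf_pos.ne'
  obtain ⟨e, m', hm', hom⟩ := Nat.exists_eq_pow_mul_and_not_dvd ho l hl.ne_one
  -- the element `u`
  have hτu : τ (x ^ m') ^ l = 1 := by
    obtain ⟨A, hA⟩ : ∃ A : Matrix (Fin n) (Fin n) (ZMod l),
        A = ((τ (x ^ m') : GL (Fin n) (ZMod l)) : Matrix (Fin n) (Fin n) (ZMod l)) := ⟨_, rfl⟩
    have h1 : A ^ l ^ e = 1 := by
      rw [hA, map_pow, ← Units.val_pow_eq_pow_val, ← pow_mul, mul_comm m', ← hom,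
        pow_orderOf_eq_one, Units.val_one]
    have h2 : (A - 1) ^ n = 0 := by
      rcases Nat.eq_zero_or_pos n with h | h
      · subst h
        exact Subsingleton.elim _ _
      · have : Nonempty (Fin n) := ⟨⟨0, h⟩⟩
        have hch : CharP (Matrix (Fin n) (Fin n) (ZMod l)) l := Matrix.charP l
        refine ex_nil _ ⟨l ^ e, ?_⟩
        rw [sub_pow_char_pow_of_commute l e (Commute.one_right A), one_pow, h1, sub_self]
    have h3 := pow_char hn A h2
    apply Units.ext
    rw [Units.val_pow_eq_pow_val, ← hA, h3, Units.val_one]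
  obtain ⟨M, hM⟩ : ∃ M : Matrix (Fin 2) (Fin 2) k,
      M = ((ρ (x ^ m') : GL (Fin 2) k) : Matrix (Fin 2) (Fin 2) k) := ⟨_, rfl⟩
  obtain ⟨c, hc⟩ := hker ((x ^ m') ^ l) (by rw [map_pow, hτu])
  rw [map_pow, Units.val_pow_eq_pow_val, ← hM] at hc
  obtain ⟨s, hs⟩ : ∃ s : k, s ^ l = c := by
    have h1 : Function.Surjective (frobenius k l) :=
      Finite.surjective_of_injective (frobenius_inj k l)
    obtain ⟨s, hs⟩ := h1 c
    exact ⟨s, hs⟩
  have hMu : IsUnit M := by rw [hM]; exact Units.isUnit _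
  have hs0 : s ≠ 0 := by
    intro h
    rw [← hs, h, zero_pow hl.ne_zero, zero_smul] at hc
    have h1 : IsUnit (M ^ l) := hMu.pow l
    rw [hc] at h1
    exact not_isUnit_zero h1
  have hch2 : CharP (Matrix (Fin 2) (Fin 2) k) l := Matrix.charP l
  have hnil : (M - s • 1) ^ 2 = 0 := by
    refine ex_nil _ ⟨l, ?_⟩
    have hcom : Commute M (s • 1) := (Commute.one_right M).smul_right s
    rw [sub_pow_char_of_commute l hcom, hc, smul_pow, one_pow, hs, sub_self]
  refine ⟨x ^ m', s, s⁻¹ • (M - s • 1), hτu, ?_, ?_, ?_⟩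
  · rw [← hM, smul_add, smul_smul, mul_inv_cancel₀ hs0, one_smul, add_sub_cancel]
  · rw [Matrix.smul_mul, Matrix.mul_smul, ← sq, hnil, smul_zero, smul_zero]
  · intro h
    have h1 : M = s • 1 := by
      have h2 : M - s • 1 = 0 := by
        rcases smul_eq_zero.1 h with h3 | h3
        · exact absurd h3 (inv_ne_zero hs0)
        · exact h3
      exact sub_eq_zero.1 h2
    have : Fintype k := Fintype.ofFinite k
    have h2 : s ^ (Fintype.card k - 1) = 1 := FiniteField.pow_card_sub_one_eq_one s hs0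
    have h3 : ρ x ^ (m' * (Fintype.card k - 1)) = 1 := by
      apply Units.ext
      rw [pow_mul, ← map_pow, Units.val_pow_eq_pow_val, ← hM, h1, smul_pow, one_pow, h2, one_smul,
        Units.val_one]
    have h4 : l ∣ m' * (Fintype.card k - 1) := hx.trans (orderOf_dvd_of_pow_eq_one h3)
    rcases hl.dvd_mul.1 h4 with h5 | h5
    · exact hm' h5
    · have h6 : l ∣ Fintype.card k := by
        rw [← CharP.cast_eq_zero_iff k l]
        exact Nat.cast_card_eq_zero k
      have h7 : 1 < Fintype.card k := Fintype.one_lt_card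
      have h8 : l ∣ Fintype.card k - (Fintype.card k - 1) := Nat.dvd_sub h6 h5
      have h9 : Fintype.card k - (Fintype.card k - 1) = 1 := by omega
      rw [h9] at h8
      exact hl.one_lt.ne' (Nat.dvd_one.1 h8)

end Pool.Agent.NLL
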