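import Pool.Agent.NLL.Defs

/-!
# Project NLL, module Span: the conjugates of a nilpotent matrix span the matrices of trace zero

PLAN. Let `v ≠ 0` with `Y v = 0` (`Y` is singular and nonzero, so its kernel is a line `k v`, equal to its image). By `hirr` there is `x` with `ρ x v` not a multiple of `v`; `Y' = ρ x Y (ρ x)⁻¹ ∈ W` has kernel `k (ρ x v) ≠ k v`.
Conjugating by `ρ u` and using `u⁻¹ = s⁻¹ (1 - Y)` (`Y² = 0`): `(1 + Y) Y' (1 - Y) = Y' + (Y Y' - Y' Y) - Y Y' Y ∈ W`. `Y Y' Y = c • Y` for some `c : k` (rank one), so `Y Y' - Y' Y ∈ W`. The three matrices `Y`, `Y'`, `Y Y' - Y' Y` are linearly independent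
(in a basis with `v` first `Y` is a multiple of the matrix unit `E12` and `Y'` has nonzero lower left entry `c`; `[E12, Y'] = c (E11 - E22) + ...`; it uses `2 ≠ 0`) and of trace zero; the space of matrices of trace zero has dimension three.
CONCRETE VERSION: choose `g : GL (Fin 2) k` whose first column is `v`, replace everything by conjugates under `g`; then `Y = !![0, b; 0, 0]` with `b ≠ 0`, `Y' = !![p, q; r, -p]` with `r ≠ 0`, and every `Z = !![a, b'; c, -a]` is an explicit combination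
of `Y`, `Y'` and `Y Y' - Y' Y = b • !![r, -2 p; 0, -r]`.
-/

set_option autoImplicit false

namespace Pool.Agent.NLL

private theorem sp_tz {k : Type} [Field k] (A : Matrix (Fin 2) (Fin 2) k) (h : A.trace = 0) :
    A = !![A 0 0, A 0 1; A 1 0, -A 0 0] := by
  rw [Matrix.trace_fin_two] at h
  ext i j
  fin_cases i <;> fin_cases j
  · rfl
  · rfl
  · rfl
  · show A 1 1 = -A 0 0
    linear_combination h

/-- expansion of a matrix of trace zero in `A`, `B`, `[A, B]` -/
private theorem sp_key {k : Type} [Field k] (A B Z : Matrix (Fin 2) (Fin 2) k)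
    (hA : A.trace = 0) (hB : B.trace = 0) (hZ : Z.trace = 0) :
    (2 * ((A * B).trace ^ 2 - (A * A).trace * (B * B).trace)) • Z =
      (2 * ((A * B).trace * (B * Z).trace - (B * B).trace * (A * Z).trace)) • A +
      (2 * ((A * B).trace * (A * Z).trace - (A * A).trace * (B * Z).trace)) • B +
      ((A * B - B * A) * Z).trace • (A * B - B * A) := by
  rw [sp_tz A hA, sp_tz B hB, sp_tz Z hZ]
  generalize A 0 0 = a
  generalize A 0 1 = b
  generalize A 1 0 = c
  generalize B 0 0 = a'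
  generalize B 0 1 = b'
  generalize B 1 0 = c'
  generalize Z 0 0 = x
  generalize Z 0 1 = y
  generalize Z 1 0 = z
  ext i j
  fin_cases i <;> fin_cases j <;>
    simp [Matrix.mul_apply, Fin.sum_univ_two, Matrix.trace_fin_two] <;> ring

private theorem sp_ch {k : Type} [Field k] (A B : Matrix (Fin 2) (Fin 2) k)
    (hA : A.trace = 0) (hB : B.trace = 0) :
    A * B + B * A = (A * B).trace • (1 : Matrix (Fin 2) (Fin 2) k) := by
  rw [sp_tz A hA, sp_tz B hB]
  generalize A 0 0 = a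
  generalize A 0 1 = b
  generalize A 1 0 = c
  generalize B 0 0 = a'
  generalize B 0 1 = b'
  generalize B 1 0 = c'
  ext i j
  fin_cases i <;> fin_cases j <;>
    simp [Matrix.mul_apply, Fin.sum_univ_two, Matrix.trace_fin_two] <;> ring

/-- a nilpotent matrix has trace zero -/
private theorem sp_nil {k : Type} [Field k] (Y : Matrix (Fin 2) (Fin 2) k) (hY : Y * Y = 0) :
    Y.trace = 0 := by
  have h00 : Y 0 0 * Y 0 0 + Y 0 1 * Y 1 0 = 0 := by
    have := congrFun (congrFun hY 0) 0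
    rw [Matrix.mul_apply, Fin.sum_univ_two] at this
    exact this
  have h01 : Y 0 0 * Y 0 1 + Y 0 1 * Y 1 1 = 0 := by
    have := congrFun (congrFun hY 0) 1
    rw [Matrix.mul_apply, Fin.sum_univ_two] at this
    exact this
  have h10 : Y 1 0 * Y 0 0 + Y 1 1 * Y 1 0 = 0 := by
    have := congrFun (congrFun hY 1) 0
    rw [Matrix.mul_apply, Fin.sum_univ_two] at this
    exact this
  have h11 : Y 1 0 * Y 0 1 + Y 1 1 * Y 1 1 = 0 := by
    have := congrFun (congrFun hY 1) 1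
    rw [Matrix.mul_apply, Fin.sum_univ_two] at this
    exact this
  rw [Matrix.trace_fin_two]
  have h : (Y 0 0 + Y 1 1) ^ 3 = 0 := by
    linear_combination (Y 0 0 + Y 1 1 + 2 * Y 1 1) * h00 + (Y 0 0 + Y 1 1 + 2 * Y 0 0) * h11 -
      2 * Y 1 0 * h01 - 2 * Y 0 1 * h10
  exact pow_eq_zero_iff (by norm_num) |>.1 h

/-- the trace of `Y` times a conjugate with another kernel is not zero -/
private theorem sp_tr {k : Type} [Field k] (Y g : Matrix (Fin 2) (Fin 2) k) (hY : Y * Y = 0)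
    (v : Fin 2 → k) (hv : v ≠ 0) (hYv : (Y 1 0 ≠ 0 ∧ v = ![Y 0 0, Y 1 0]) ∨
      (Y 1 0 = 0 ∧ Y 0 1 ≠ 0 ∧ v = ![1, 0]))
    (hg : ∀ c : k, g.mulVec v ≠ c • v) : (Y * (g * Y * g.adjugate)).trace ≠ 0 := by
  have htr := sp_nil Y hY
  have hYe := sp_tz Y htr
  have hP : Y 0 0 ^ 2 + Y 0 1 * Y 1 0 = 0 := by
    have := congrFun (congrFun hY 0) 0
    rw [Matrix.mul_apply, Fin.sum_univ_two] at this
    have h2 : Y 0 0 * Y 0 0 + Y 0 1 * Y 1 0 = 0 := this
    linear_combination h2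
  have hge : g = !![g 0 0, g 0 1; g 1 0, g 1 1] := Matrix.eta_fin_two g
  have hT : (Y * (g * Y * g.adjugate)).trace =
      2 * Y 0 0 ^ 2 * (g 0 0 * g 1 1 + g 0 1 * g 1 0) +
      2 * Y 0 0 * Y 0 1 * (g 1 0 * g 1 1 - g 0 0 * g 1 0) +
      2 * Y 0 0 * Y 1 0 * (g 0 1 * g 1 1 - g 0 0 * g 0 1) +
      Y 0 1 * Y 1 0 * (g 0 0 ^ 2 + g 1 1 ^ 2) - Y 0 1 ^ 2 * g 1 0 ^ 2 - Y 1 0 ^ 2 * g 0 1 ^ 2 := by
    rw [Matrix.adjugate_fin_two, Matrix.trace_fin_two]
    have h11 : Y 1 1 = -Y 0 0 := by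
      rw [Matrix.trace_fin_two] at htr
      linear_combination htr
    simp only [Matrix.mul_apply, Fin.sum_univ_two, h11, Matrix.of_apply, Matrix.cons_val_zero,
      Matrix.cons_val_one, Matrix.cons_val', Matrix.cons_val_fin_one]
    ring
  rcases hYv with ⟨hr, rfl⟩ | ⟨hr, hq, rfl⟩
  · intro h0
    rw [hT] at h0
    set p := Y 0 0
    set q := Y 0 1
    set r := Y 1 0
    have hE2 : (p * (g 1 0 * p + g 1 1 * r) - r * (g 0 0 * p + g 0 1 * r)) ^ 2 = 0 := by
      linear_combination (2 * p * r * g 1 0 * (g 1 1 - g 0 0) + r ^ 2 * (g 0 0 ^ 2 + g 1 1 ^ 2) -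
        g 1 0 ^ 2 * (p ^ 2 + q * r) + 2 * g 1 0 ^ 2 * p ^ 2) * hP - r ^ 2 * h0
    have hE : p * (g 1 0 * p + g 1 1 * r) - r * (g 0 0 * p + g 0 1 * r) = 0 :=
      pow_eq_zero_iff (by norm_num) |>.1 hE2
    refine hg ((g 1 0 * p + g 1 1 * r) / r) ?_
    ext i
    fin_cases i
    · show g.mulVec ![p, r] 0 = (g 1 0 * p + g 1 1 * r) / r * p
      rw [Matrix.mulVec, dotProduct, Fin.sum_univ_two, Matrix.cons_val_zero, Matrix.cons_val_one,
        div_mul_eq_mul_div, eq_div_iff hr]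
      try simp only [Matrix.cons_val_fin_one]
      linear_combination -hE
    · show g.mulVec ![p, r] 1 = (g 1 0 * p + g 1 1 * r) / r * r
      rw [Matrix.mulVec, dotProduct, Fin.sum_univ_two, Matrix.cons_val_zero, Matrix.cons_val_one,
        div_mul_cancel₀ _ hr]
      rfl
  · intro h0
    rw [hT, hr] at h0
    have hp : Y 0 0 = 0 := by
      rw [hr, mul_zero, add_zero] at hP
      exact pow_eq_zero_iff (by norm_num) |>.1 hP
    rw [hp] at h0
    have h1 : (Y 0 1 * g 1 0) ^ 2 = 0 := by linear_combination -h0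
    have h2 : Y 0 1 * g 1 0 = 0 := pow_eq_zero_iff (by norm_num) |>.1 h1
    have h3 : g 1 0 = 0 := by
      rcases mul_eq_zero.1 h2 with h | h
      · exact absurd h hq
      · exact h
    refine hg (g 0 0) ?_
    ext i
    fin_cases i
    · show g.mulVec ![1, 0] 0 = g 0 0 * 1
      rw [Matrix.mulVec, dotProduct, Fin.sum_univ_two, Matrix.cons_val_zero, Matrix.cons_val_one]
      simp
    · show g.mulVec ![1, 0] 1 = g 0 0 * 0
      rw [Matrix.mulVec, dotProduct, Fin.sum_univ_two, Matrix.cons_val_zero, Matrix.cons_val_one,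
        h3]
      simp

private theorem sp_yby {k : Type} [Field k] (Y B : Matrix (Fin 2) (Fin 2) k) (hY : Y * Y = 0)
    (htr : Y.trace = 0) (hBt : B.trace = 0) : Y * B * Y = (Y * B).trace • Y := by
  have h1 := sp_ch Y B htr hBt
  have h3 : B * Y = (Y * B).trace • (1 : Matrix (Fin 2) (Fin 2) k) - Y * B := by
    rw [← h1]
    abel
  rw [Matrix.mul_assoc, h3, mul_sub, ← Matrix.mul_assoc, hY, zero_mul, sub_zero,
    Matrix.mul_smul, mul_one]

theorem span_sl2 {k : Type} [Field k] (h2 : (2 : k) ≠ 0) {Γ : Type} [Group Γ]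
    (ρ : Γ →* GL (Fin 2) k)
    (hirr : ∀ v : Fin 2 → k, v ≠ 0 → ∃ x : Γ, ∀ c : k,
      (ρ x : Matrix (Fin 2) (Fin 2) k).mulVec v ≠ c • v)
    (u : Γ) (s : k) (Y : Matrix (Fin 2) (Fin 2) k)
    (hu : (ρ u : Matrix (Fin 2) (Fin 2) k) = s • (1 + Y)) (hY : Y * Y = 0) (hY0 : Y ≠ 0)
    (W : Submodule k (Matrix (Fin 2) (Fin 2) k)) (hW : Y ∈ W)
    (hst : ∀ x : Γ, ∀ Z ∈ W, (ρ x : Matrix (Fin 2) (Fin 2) k) * Z *
      (((ρ x)⁻¹ : GL (Fin 2) k) : Matrix (Fin 2) (Fin 2) k) ∈ W)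
    (Z : Matrix (Fin 2) (Fin 2) k) (hZ : Z.trace = 0) : Z ∈ W := by
  have htr := sp_nil Y hY
  -- a vector in the kernel
  obtain ⟨v, hv, hYv⟩ : ∃ v : Fin 2 → k, v ≠ 0 ∧ ((Y 1 0 ≠ 0 ∧ v = ![Y 0 0, Y 1 0]) ∨
      (Y 1 0 = 0 ∧ Y 0 1 ≠ 0 ∧ v = ![1, 0])) := by
    by_cases hr : Y 1 0 = 0
    · refine ⟨![1, 0], ?_, Or.inr ⟨hr, ?_, rfl⟩⟩
      · intro h
        have := congrFun h 0
        simp at this
      · intro hq
        apply hY0
        have hP : Y 0 0 * Y 0 0 + Y 0 1 * Y 1 0 = 0 := by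
          have := congrFun (congrFun hY 0) 0
          rw [Matrix.mul_apply, Fin.sum_univ_two] at this
          exact this
        have hp : Y 0 0 = 0 := by
          rw [hr, mul_zero, add_zero] at hP
          exact mul_self_eq_zero.1 hP
        rw [sp_tz Y htr, hp, hq, hr]
        ext i j
        fin_cases i <;> fin_cases j <;> simp
    · refine ⟨![Y 0 0, Y 1 0], ?_, Or.inl ⟨hr, rfl⟩⟩
      intro h
      have := congrFun h 1
      simp at this
      exact hr this
  obtain ⟨x, hx⟩ := hirr v hv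
  set g : Matrix (Fin 2) (Fin 2) k := (ρ x : Matrix (Fin 2) (Fin 2) k) with hg
  have hT := sp_tr Y g hY v hv hYv hx
  set B := g * Y * g.adjugate with hB
  have hdet : g.det ≠ 0 := (Matrix.isUnits_det_units (ρ x)).ne_zero
  have hBW : B ∈ W := by
    have h1 := W.smul_mem g.det (hst x Y hW)
    rw [Matrix.coe_units_inv, Matrix.inv_def, Ring.inverse_eq_inv', Matrix.mul_smul, smul_smul,
      mul_inv_cancel₀ hdet, one_smul] at h1
    exact h1
  have hBt : B.trace = 0 := by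
    rw [hB, Matrix.trace_mul_comm, ← Matrix.mul_assoc, Matrix.adjugate_mul, Matrix.smul_mul,
      one_mul, Matrix.trace_smul, htr, smul_zero]
  have hs : s ≠ 0 := by
    intro h0
    rw [h0, zero_smul] at hu
    exact (ρ u).ne_zero hu
  have hinv : (((ρ u)⁻¹ : GL (Fin 2) k) : Matrix (Fin 2) (Fin 2) k) = s⁻¹ • (1 - Y) := by
    apply Units.inv_eq_of_mul_eq_one_right
    rw [hu, Matrix.smul_mul, Matrix.mul_smul, smul_smul, mul_inv_cancel₀ hs, one_smul]
    have : (1 + Y) * (1 - Y) = 1 - Y * Y := by noncomm_ring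
    rw [this, hY, sub_zero]
  have hYBY : Y * B * Y = (Y * B).trace • Y := sp_yby Y B hY htr hBt
  have hcomm : Y * B - B * Y ∈ W := by
    have h1 := hst u B hBW
    rw [hu, hinv, Matrix.mul_smul, Matrix.smul_mul, Matrix.smul_mul, smul_smul,
      inv_mul_cancel₀ hs, one_smul] at h1
    have h3 : (1 + Y) * B * (1 - Y) = B + (Y * B - B * Y) - Y * B * Y := by noncomm_ring
    rw [h3, hYBY] at h1
    have h4 := W.add_mem (W.sub_mem h1 hBW) (W.smul_mem (Y * B).trace hW)
    have h5 : B + (Y * B - B * Y) - (Y * B).trace • Y - B + (Y * B).trace • Y =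
        Y * B - B * Y := by abel
    rw [h5] at h4
    exact h4
  have hkey := sp_key Y B Z htr hBt hZ
  have hD : (2 * ((Y * B).trace ^ 2 - (Y * Y).trace * (B * B).trace)) ≠ 0 := by
    rw [hY, Matrix.trace_zero, zero_mul, sub_zero]
    exact mul_ne_zero h2 (pow_ne_zero 2 hT)
  have hmem : (2 * ((Y * B).trace ^ 2 - (Y * Y).trace * (B * B).trace)) • Z ∈ W := by
    rw [hkey]
    exact W.add_mem (W.add_mem (W.smul_mem _ hW) (W.smul_mem _ hBW)) (W.smul_mem _ hcomm)
  have hfin := W.smul_mem (2 * ((Y * B).trace ^ 2 - (Y * Y).trace * (B * B).trace))⁻¹ hmem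
  rw [smul_smul, inv_mul_cancel₀ hD, one_smul] at hfin
  exact hfin

end Pool.Agent.NLL
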