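import Pool.Agent.NLL.AdKill
import Pool.Agent.NLL.Span
import Pool.Agent.NLL.ExU
import Pool.Agent.NLL.Eig

/-!
# Project NLL, module Resid: residual representations

If the projective kernel field of an irreducible `ρ : Γ → GL_2(k)` of order divisible by `l` is
contained in the kernel field of `τ : Γ → GL_n(F_l)`, `l > C(n, [k : F_l])`, then for every `x` the
ratio of the eigenvalues of `ρ x` is a ratio of eigenvalues of `τ x`.
-/

set_option autoImplicit false

namespace Pool.Agent.NLL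

theorem residual (n a : ℕ) : ∃ C : ℕ, ∀ (l : ℕ) [Fact l.Prime], C < l → ∀ (k : Type) [Field k]
    [Finite k] [CharP k l] [Algebra (ZMod l) k], Nat.card k ≤ l ^ a →
    ∀ (Γ : Type) [Group Γ] (ρ : Γ →* GL (Fin 2) k) (τ : Γ →* GL (Fin n) (ZMod l)),
    (∀ x, τ x = 1 → ∃ s : k, (ρ x : Matrix (Fin 2) (Fin 2) k) = s • 1) →
    (∀ v : Fin 2 → k, v ≠ 0 → ∃ x : Γ, ∀ c : k,
      (ρ x : Matrix (Fin 2) (Fin 2) k).mulVec v ≠ c • v) →
    (∃ x, l ∣ orderOf (ρ x)) →
    ∀ x : Γ, (Wm (ρ x : Matrix (Fin 2) (Fin 2) k).det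
      ((ρ x : Matrix (Fin 2) (Fin 2) k).trace ^ 2 - 2 * (ρ x : Matrix (Fin 2) (Fin 2) k).det)
      ((τ x : Matrix (Fin n) (Fin n) (ZMod l)).map (algebraMap (ZMod l) k))).det = 0 := by
  obtain ⟨C, hC⟩ := ad_kill n a
  refine ⟨C + n + 2, fun l hlp hl k _ _ _ _ hk Γ _ ρ τ hker hirr ⟨x0, hx0⟩ x => ?_⟩
  have hfin : Module.Finite (ZMod l) k := Module.Finite.of_finite
  have hka : Module.finrank (ZMod l) k ≤ a := by
    have h1 : Nat.card k = l ^ Module.finrank (ZMod l) k := by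
      have h2 := Module.natCard_eq_pow_finrank (K := ZMod l) (V := k)
      rw [h2, Nat.card_zmod]
    rw [h1] at hk
    exact (Nat.pow_le_pow_iff_right hlp.out.one_lt).mp hk
  obtain ⟨u, s, Y, hu, hY, hY2, hY0⟩ := exists_unip (by omega : n ≤ l) ρ τ hker x0 hx0
  have h2 : (2 : k) ≠ 0 := by
    have h1 : ((2 : ℕ) : k) ≠ 0 := by
      rw [Ne, CharP.cast_eq_zero_iff k l]
      intro h3
      have h4 := Nat.le_of_dvd (by norm_num) h3
      omega
    exact_mod_cast h1
  refine eig (ρ x) (τ x) fun P hP Z hZ => ?_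
  -- the `k`-subspace killed by `P`, stable under conjugation
  obtain ⟨W, hW⟩ : ∃ W : Submodule k (Matrix (Fin 2) (Fin 2) k), ∀ Z, Z ∈ W ↔
      ∀ y : Γ, Polynomial.aeval (cj (ZMod l) (ρ x)) P
        ((ρ y : Matrix (Fin 2) (Fin 2) k) * Z *
          (((ρ y)⁻¹ : GL (Fin 2) k) : Matrix (Fin 2) (Fin 2) k)) = 0 := by
    have hlin : ∀ (c : k) (Z : Matrix (Fin 2) (Fin 2) k),
        Polynomial.aeval (cj (ZMod l) (ρ x)) P (c • Z) =
          c • Polynomial.aeval (cj (ZMod l) (ρ x)) P Z := by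
      intro c Z
      rw [aeval_cj, aeval_cj, Finset.smul_sum]
      refine Finset.sum_congr rfl fun j _ => ?_
      rw [Matrix.mul_smul, Matrix.smul_mul, smul_comm]
    refine ⟨{ carrier := {Z | ∀ y : Γ, Polynomial.aeval (cj (ZMod l) (ρ x)) P
                ((ρ y : Matrix (Fin 2) (Fin 2) k) * Z *
                  (((ρ y)⁻¹ : GL (Fin 2) k) : Matrix (Fin 2) (Fin 2) k)) = 0}
              zero_mem' := fun y => by rw [mul_zero, zero_mul, map_zero]
              add_mem' := fun {Z Z'} hZ hZ' y => by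
                rw [mul_add, add_mul, map_add, hZ y, hZ' y, add_zero]
              smul_mem' := fun c Z hZ y => by
                rw [Matrix.mul_smul, Matrix.smul_mul, hlin, hZ y, smul_zero] }, fun Z => Iff.rfl⟩
  have hYW : Y ∈ W := by
    rw [hW]
    intro y
    have h3 := hC l (by omega) k hka Γ ρ τ hker x (y * u * y⁻¹) s
      ((ρ y : Matrix (Fin 2) (Fin 2) k) * Y *
        (((ρ y)⁻¹ : GL (Fin 2) k) : Matrix (Fin 2) (Fin 2) k)) (by
        rw [map_mul, map_mul, map_inv, conj_pow, hu, mul_one, mul_inv_cancel]) (by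
        rw [map_mul, map_mul, map_inv, Units.val_mul, Units.val_mul, hY, mul_assoc,
          Matrix.smul_mul, Matrix.mul_smul, add_mul, mul_add, one_mul, ← Units.val_mul,
          mul_inv_cancel, Units.val_one, mul_assoc]) (by
        have h1 : (((ρ y)⁻¹ : GL (Fin 2) k) : Matrix (Fin 2) (Fin 2) k) *
            (ρ y : Matrix (Fin 2) (Fin 2) k) = 1 := by
          rw [← Units.val_mul, inv_mul_cancel, Units.val_one]
        calc _ = (ρ y : Matrix (Fin 2) (Fin 2) k) * Y *
            ((((ρ y)⁻¹ : GL (Fin 2) k) : Matrix (Fin 2) (Fin 2) k) *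
            (ρ y : Matrix (Fin 2) (Fin 2) k)) * Y *
            (((ρ y)⁻¹ : GL (Fin 2) k) : Matrix (Fin 2) (Fin 2) k) := by
              simp only [mul_assoc]
          _ = (ρ y : Matrix (Fin 2) (Fin 2) k) * (Y * Y) *
            (((ρ y)⁻¹ : GL (Fin 2) k) : Matrix (Fin 2) (Fin 2) k) := by
              rw [h1, mul_one, mul_assoc _ Y Y]
          _ = 0 := by rw [hY2, mul_zero, zero_mul]) P hP
    exact h3
  have hZW := span_sl2 h2 ρ hirr u s Y hY hY2 hY0 W hYW (fun y Z hZ => by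
    rw [hW] at hZ ⊢
    intro y'
    have h1 := hZ (y' * y)
    rw [map_mul ρ, mul_inv_rev, Units.val_mul, Units.val_mul] at h1
    simp only [mul_assoc] at h1 ⊢
    exact h1) Z hZ
  have h5 := (hW Z).mp hZW 1
  rw [map_one, inv_one, Units.val_one, one_mul, mul_one] at h5
  exact h5

end Pool.Agent.NLL
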