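import Pool.Agent.NLL.Defs

/-!
# Project NLL, module Tri: the determinant of `Wm d s T` in terms of the eigenvalues of `T`

PLAN. (1) Over an algebraically closed field every square matrix is similar to an upper triangular one: induction on `n` (an eigenvector as first column of an invertible matrix, block matrices; or via `Module.End` and an invariant flag; grep the pool
for an existing version). (2) `Wm d s (g T g⁻¹)` is conjugate to `Wm d s T` (it is the matrix of `X ↦ d T² X - s T X T + d X T²`, conjugate it by `X ↦ g X g⁻¹`; as matrices `Wm d s T = d • (T*T) ⊗ₖ 1 - s • T ⊗ₖ Tᵀ + d • 1 ⊗ₖ (T*T)ᵀ`, use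
`Matrix.mul_kronecker_mul`). (3) For `T` upper triangular: order the pairs `(i, j)` by `(i, -j)` lexicographically (`X ↦ T X` moves `i`, `X ↦ X T` moves `j` in the other direction): `Wm d s T` is triangular for the order `toLex (i, OrderDual.toDual j)`
with diagonal entries `d T_ii² - s T_ii T_jj + d T_jj²` (`Matrix.det_of_upperTriangular` / `Matrix.BlockTriangular.det`). (4) `T.charpoly = ∏ (X - C T_ii)` (`Matrix.charpoly_of_upperTriangular`), so its roots are the multiset of the `T_ii`.
ALTERNATIVE without triangularisation: `Wm` factors, `X ↦ (α₁ L - α₂ R)(α₂ L - α₁ R)` with `L = ` left, `R = ` right multiplication by `T`, and `det (a L - b R) = ∏ (a β_i - b β_j)`.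
-/

set_option autoImplicit false

namespace Pool.Agent.NLL

open Polynomial in
private theorem tri_lin {A : Type*} [Field A] [IsAlgClosed A] {n : ℕ} {R : Type*} [CommRing R]
    (φ : A →+* R) (T : Matrix (Fin n) (Fin n) A) (z : R) :
    (T.map φ - z • (1 : Matrix (Fin n) (Fin n) R)).det =
      (T.charpoly.roots.map fun t => φ t - z).prod := by
  have h1 := Matrix.eval_charpoly (T.map φ) z
  have hsp : (T.charpoly).Splits := IsAlgClosed.splits _
  have h2 : T.charpoly = (T.charpoly.roots.map fun a => X - C a).prod :=
    hsp.eq_prod_roots_of_monic (Matrix.charpoly_monic T)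
  have hcard : T.charpoly.roots.card = n := by
    rw [← hsp.natDegree_eq_card_roots, Matrix.charpoly_natDegree_eq_dim, Fintype.card_fin]
  have h3 : ((T.map φ).charpoly).eval z = (T.charpoly.roots.map fun a => z - φ a).prod := by
    rw [show T.map φ = T.map (φ : A → R) from rfl, Matrix.charpoly_map, h2, Polynomial.map_multiset_prod,
      Polynomial.eval_multiset_prod, Multiset.map_map, Multiset.map_map]
    rw [← h2]
    congr 1
    apply Multiset.map_congr rfl
    intro a _
    simp
  have h4 : T.map φ - z • (1 : Matrix (Fin n) (Fin n) R) = -(Matrix.scalar (Fin n) z - T.map φ) := by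
    rw [neg_sub, Matrix.smul_one_eq_diagonal]
    rfl
  rw [h4, Matrix.det_neg, ← h1, h3, Fintype.card_fin]
  have h5 : (T.charpoly.roots.map fun t => φ t - z) =
      T.charpoly.roots.map fun t => (-1) * (z - φ t) := by
    apply Multiset.map_congr rfl
    intro t _
    ring
  rw [h5, Multiset.prod_map_mul, Multiset.map_const', Multiset.prod_replicate, hcard]

private theorem tri_quad {A : Type*} [Field A] [IsAlgClosed A] {n : ℕ} {R : Type*} [CommRing R]
    (φ : A →+* R) (d s : A) (T : Matrix (Fin n) (Fin n) A) (y : R) :
    (φ d • (T.map φ * T.map φ) - (φ s * y) • T.map φ + (φ d * y ^ 2) • (1 : Matrix (Fin n) (Fin n) R)).det =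
      (T.charpoly.roots.map fun t => φ d * φ t ^ 2 - φ s * y * φ t + φ d * y ^ 2).prod := by
  have hsp : (T.charpoly).Splits := IsAlgClosed.splits _
  have hcard : T.charpoly.roots.card = n := by
    rw [← hsp.natDegree_eq_card_roots, Matrix.charpoly_natDegree_eq_dim, Fintype.card_fin]
  by_cases hd : d = 0
  · subst hd
    have h0 := tri_lin φ T (0 : R)
    rw [zero_smul, sub_zero] at h0
    have h1 : (φ 0 • (T.map φ * T.map φ) - (φ s * y) • T.map φ + (φ 0 * y ^ 2) • (1 : Matrix (Fin n) (Fin n) R)) =
        (-(φ s * y)) • T.map φ := by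
      rw [map_zero, zero_smul, zero_mul, zero_smul, add_zero, zero_sub, neg_smul]
    rw [h1, Matrix.det_smul, h0, Fintype.card_fin]
    have h5 : (T.charpoly.roots.map fun t => φ 0 * φ t ^ 2 - φ s * y * φ t + φ 0 * y ^ 2) =
        T.charpoly.roots.map fun t => (-(φ s * y)) * (φ t - 0) := by
      apply Multiset.map_congr rfl
      intro t _
      rw [map_zero]
      ring
    rw [h5, Multiset.prod_map_mul, Multiset.map_const', Multiset.prod_replicate, hcard]
  · obtain ⟨α, hα⟩ : ∃ α : A, d * α ^ 2 - s * α + d = 0 := by
      have hdeg : (Polynomial.C d * Polynomial.X ^ 2 + Polynomial.C (-s) * Polynomial.X + Polynomial.C d).degree ≠ 0 := by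
        rw [Polynomial.degree_quadratic hd]
        norm_num
      obtain ⟨x, hx⟩ := IsAlgClosed.exists_root _ hdeg
      refine ⟨x, ?_⟩
      rw [Polynomial.IsRoot.def] at hx
      simp only [Polynomial.eval_add, Polynomial.eval_mul, Polynomial.eval_C, Polynomial.eval_pow,
        Polynomial.eval_X] at hx
      linear_combination hx
    set β : A := s / d - α with hβ
    have hsum : d * (α + β) = s := by
      rw [hβ]
      field_simp
      ring
    have hprod : d * (α * β) = d := by
      have h1 : d * (α * β) = s * α - d * α ^ 2 := by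
        rw [hβ]
        field_simp
      rw [h1]
      linear_combination (-1 : A) * hα
    have hsum' : φ d * (φ α + φ β) = φ s := by rw [← map_add, ← map_mul, hsum]
    have hprod' : φ d * (φ α * φ β) = φ d := by rw [← map_mul, ← map_mul, hprod]
    have hfac : φ d • (T.map φ * T.map φ) - (φ s * y) • T.map φ + (φ d * y ^ 2) • (1 : Matrix (Fin n) (Fin n) R) =
        φ d • ((T.map φ - (φ α * y) • (1 : Matrix (Fin n) (Fin n) R)) *
          (T.map φ - (φ β * y) • (1 : Matrix (Fin n) (Fin n) R))) := by
      rw [sub_mul, mul_sub, mul_sub, Matrix.mul_smul, Matrix.smul_mul, Matrix.smul_mul, Matrix.mul_smul,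
        Matrix.mul_one, Matrix.one_mul, Matrix.mul_one, ← hsum', smul_sub, smul_sub, smul_sub]
      simp only [smul_smul]
      have e1 : φ d * (φ α * y * (φ β * y)) = φ d * y ^ 2 := by
        linear_combination y ^ 2 * hprod'
      rw [e1, show φ d * (φ α + φ β) * y = φ d * (φ β * y) + φ d * (φ α * y) by ring, add_smul]
      abel
    rw [hfac, Matrix.det_smul, Matrix.det_mul, tri_lin, tri_lin, Fintype.card_fin]
    have h5 : (T.charpoly.roots.map fun t => φ d * φ t ^ 2 - φ s * y * φ t + φ d * y ^ 2) =
        T.charpoly.roots.map fun t => φ d * ((φ t - φ α * y) * (φ t - φ β * y)) := by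
      apply Multiset.map_congr rfl
      intro t _
      linear_combination (y * φ t) * hsum' - y ^ 2 * hprod'
    rw [h5, Multiset.prod_map_mul, Multiset.map_const', Multiset.prod_replicate, hcard,
      Multiset.prod_map_mul]

theorem det_Wm {A : Type*} [Field A] [IsAlgClosed A] {n : ℕ} (d s : A)
    (T : Matrix (Fin n) (Fin n) A) :
    (Wm d s T).det = ((T.charpoly.roots ×ˢ T.charpoly.roots).map fun b : A × A =>
      d * b.1 ^ 2 - s * b.1 * b.2 + d * b.2 ^ 2).prod := by
  classical
  set M : Matrix (Fin n) (Fin n) (Polynomial A) :=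
    Polynomial.C d • (T.map Polynomial.C * T.map Polynomial.C) -
      (Polynomial.C s * Polynomial.X) • T.map Polynomial.C +
      (Polynomial.C d * Polynomial.X ^ 2) • (1 : Matrix (Fin n) (Fin n) (Polynomial A)) with hM
  have hdetM : M.det = (T.charpoly.roots.map fun t => Polynomial.C d * Polynomial.C t ^ 2 -
      Polynomial.C s * Polynomial.X * Polynomial.C t + Polynomial.C d * Polynomial.X ^ 2).prod :=
    tri_quad (Polynomial.C : A →+* Polynomial A) d s T Polynomial.X
  let f : Polynomial A →+* Matrix (Fin n) (Fin n) A :=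
    (Polynomial.aeval T.transpose : Polynomial A →ₐ[A] Matrix (Fin n) (Fin n) A).toRingHom
  have hfC : ∀ c : A, f (Polynomial.C c) = c • (1 : Matrix (Fin n) (Fin n) A) := by
    intro c
    show (Polynomial.aeval T.transpose) (Polynomial.C c) = _
    rw [Polynomial.aeval_C, Algebra.algebraMap_eq_smul_one]
  have hfX : f Polynomial.X = T.transpose := by
    show (Polynomial.aeval T.transpose) Polynomial.X = _
    rw [Polynomial.aeval_X]
  have hfq : ∀ u v w : A, f (Polynomial.C u - Polynomial.C v * Polynomial.X +
      Polynomial.C w * (Polynomial.X * Polynomial.X)) =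
      u • (1 : Matrix (Fin n) (Fin n) A) - v • T.transpose + w • (T.transpose * T.transpose) := by
    intro u v w
    rw [map_add, map_sub, map_mul, map_mul, map_mul, hfC, hfC, hfC, hfX, Matrix.smul_mul,
      Matrix.smul_mul, Matrix.one_mul, Matrix.one_mul]
  have hcomp : (M.map f).comp (Fin n) (Fin n) (Fin n) (Fin n) A = Wm d s T := by
    ext p q
    have hentry : M p.1 q.1 = Polynomial.C (d * (T * T) p.1 q.1) -
        Polynomial.C (s * T p.1 q.1) * Polynomial.X +
        Polynomial.C (d * (if p.1 = q.1 then 1 else 0)) * (Polynomial.X * Polynomial.X) := by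
      rw [hM, Matrix.add_apply, Matrix.sub_apply, Matrix.smul_apply, Matrix.smul_apply, Matrix.smul_apply,
        ← Matrix.map_mul, Matrix.map_apply, Matrix.map_apply, Matrix.one_apply, smul_eq_mul, smul_eq_mul,
        smul_eq_mul, Polynomial.C_mul, Polynomial.C_mul, Polynomial.C_mul]
      split_ifs
      · rw [Polynomial.C_1]; ring
      · rw [Polynomial.C_0]; ring
    show (f (M p.1 q.1)) p.2 q.2 = _
    rw [hentry, hfq, Wm, Matrix.of_apply, ← Matrix.transpose_mul,
      Matrix.add_apply, Matrix.sub_apply, Matrix.smul_apply, Matrix.smul_apply, Matrix.smul_apply,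
      Matrix.one_apply, Matrix.transpose_apply, Matrix.transpose_apply, smul_eq_mul, smul_eq_mul,
      smul_eq_mul]
  have key := Matrix.det_det M f
  rw [hcomp] at key
  rw [← key, hdetM]
  let g : Polynomial A →* A := Matrix.detMonoidHom.comp (f : Polynomial A →* Matrix (Fin n) (Fin n) A)
  have hg : ∀ q : Polynomial A, (f q).det = g q := fun q => rfl
  rw [hg, map_multiset_prod, Multiset.map_map]
  have hrhs : ((T.charpoly.roots ×ˢ T.charpoly.roots).map fun b : A × A =>
      d * b.1 ^ 2 - s * b.1 * b.2 + d * b.2 ^ 2).prod =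
      (T.charpoly.roots.map fun i => (T.charpoly.roots.map fun j =>
        d * i ^ 2 - s * i * j + d * j ^ 2).prod).prod :=
    Multiset.prod_map_product_eq_prod_prod _ _ _
  rw [hrhs]
  congr 1
  apply Multiset.map_congr rfl
  intro t _
  show (f _).det = _
  have h1 := tri_quad (RingHom.id A) d s T t
  have h2 : f (Polynomial.C d * Polynomial.C t ^ 2 - Polynomial.C s * Polynomial.X * Polynomial.C t +
      Polynomial.C d * Polynomial.X ^ 2) =
      ((RingHom.id A) d • (T.map (RingHom.id A) * T.map (RingHom.id A)) - ((RingHom.id A) s * t) • T.map (RingHom.id A) +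
        ((RingHom.id A) d * t ^ 2) • (1 : Matrix (Fin n) (Fin n) A)).transpose := by
    have hid : T.map (RingHom.id A) = T := by
      ext i j
      rfl
    rw [hid, show Polynomial.C d * Polynomial.C t ^ 2 - Polynomial.C s * Polynomial.X * Polynomial.C t +
      Polynomial.C d * Polynomial.X ^ 2 = Polynomial.C (d * t ^ 2) -
        Polynomial.C (s * t) * Polynomial.X + Polynomial.C d * (Polynomial.X * Polynomial.X) by
        rw [Polynomial.C_mul, Polynomial.C_mul, Polynomial.C_pow]; ring]
    rw [hfq, Matrix.transpose_add,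
      Matrix.transpose_sub, Matrix.transpose_smul, Matrix.transpose_smul, Matrix.transpose_smul,
      Matrix.transpose_mul, Matrix.transpose_one]
    simp only [RingHom.id_apply]
    abel
  rw [h2, Matrix.det_transpose, h1]
  congr 1
  apply Multiset.map_congr rfl
  intro j _
  simp only [RingHom.id_apply]
  ring

end Pool.Agent.NLL
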