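import Pool.Agent.NLL.PowB

/-!
# Project NLL, module AdLg: the logarithm of the conjugation by a unipotent matrix of size two

PLAN. `s ≠ 0` (`u` is invertible). `(1 + Y) * (1 - Y) = 1`, so `u⁻¹ = s⁻¹ • (1 - Y)` and for every natural number `j` the `j`-th power of `cj u` is `Z ↦ (1 + j Y) Z (1 - j Y)` (`cj` is multiplicative;
`(1 + Y) ^ j = 1 + j • Y`), i.e. `(cj u) ^ j = 1 + j • (mulLeft Y - mulRight Y) - j² • (mulLeft Y * mulRight Y)`. Apply `e`: with `a = e (mulLeft Y - mulRight Y)`, `b = e (mulLeft Y * mulRight Y)` the matrix of polynomials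
`F = 1 + X • a.map C - X² • b.map C` has entries of degree `≤ 2 < l` and `F.map (eval t) = (e (cj u)) ^ t.val` for all `t : ZMod l` (use `t = (t.val : ZMod l)`). Moreover `(e (cj u)) ^ l = 1` (take `j = l`), so
`(e (cj u) - 1) ^ m = 0` by `sub_one_pow`. `pw_unique` gives `F = pw (e (cj u))` and the coefficient of `X` is `a`.
-/

set_option autoImplicit false

namespace Pool.Agent.NLL

/-- powers of `1 + a - b` in an algebra with `a * a = -2 b`, `a b = b a = b b = 0` -/
private theorem ad_pow {R : Type*} [Ring R] (a b : R) (h1 : a * a = -(2 * b)) (h2 : a * b = 0)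
    (h3 : b * a = 0) (h4 : b * b = 0) (j : ℕ) :
    (1 + a - b) ^ j = 1 + (j : R) * a - (j : R) ^ 2 * b := by
  induction j with
  | zero => simp
  | succ j ih =>
    rw [pow_succ, ih]
    push_cast
    have e1 : (j : R) * a * a = -((j : R) * (2 * b)) := by rw [mul_assoc, h1, mul_neg]
    have e2 : (j : R) * a * b = 0 := by rw [mul_assoc, h2, mul_zero]
    have e3 : (j : R) ^ 2 * b * a = 0 := by rw [mul_assoc, h3, mul_zero]
    have e4 : (j : R) ^ 2 * b * b = 0 := by rw [mul_assoc, h4, mul_zero]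
    have e5 : (1 + (j : R) * a - (j : R) ^ 2 * b) * (1 + a - b) =
        1 + a - b + (j : R) * a + (j : R) * a * a - (j : R) * a * b - (j : R) ^ 2 * b -
          (j : R) ^ 2 * b * a + (j : R) ^ 2 * b * b := by noncomm_ring
    rw [e5, e1, e2, e3, e4]
    noncomm_ring

theorem lg_ad {l : ℕ} [Fact l.Prime] (hl : 3 ≤ l) {k : Type} [Field k] [Algebra (ZMod l) k] {m : ℕ}
    (hm : m ≤ l)
    (e : Module.End (ZMod l) (Matrix (Fin 2) (Fin 2) k) ≃ₐ[ZMod l] Matrix (Fin m) (Fin m) (ZMod l))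
    (u : GL (Fin 2) k) (s : k) (Y : Matrix (Fin 2) (Fin 2) k)
    (hu : (u : Matrix (Fin 2) (Fin 2) k) = s • (1 + Y)) (hY : Y * Y = 0) :
    lg (e (cj (ZMod l) u)) =
      e (LinearMap.mulLeft (ZMod l) Y - LinearMap.mulRight (ZMod l) Y) := by
  have hs : s ≠ 0 := by
    intro h0
    rw [h0, zero_smul] at hu
    exact u.ne_zero hu
  have hinv : ((u⁻¹ : GL (Fin 2) k) : Matrix (Fin 2) (Fin 2) k) = s⁻¹ • (1 - Y) := by
    apply Units.inv_eq_of_mul_eq_one_right
    rw [hu, Matrix.smul_mul, Matrix.mul_smul, smul_smul, mul_inv_cancel₀ hs, one_smul]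
    have : (1 + Y) * (1 - Y) = 1 - Y * Y := by noncomm_ring
    rw [this, hY, sub_zero]
  set a : Module.End (ZMod l) (Matrix (Fin 2) (Fin 2) k) :=
    LinearMap.mulLeft (ZMod l) Y - LinearMap.mulRight (ZMod l) Y with ha
  set b : Module.End (ZMod l) (Matrix (Fin 2) (Fin 2) k) :=
    LinearMap.mulLeft (ZMod l) Y * LinearMap.mulRight (ZMod l) Y with hb
  have haZ : ∀ Z, a Z = Y * Z - Z * Y := fun Z => rfl
  have hbZ : ∀ Z, b Z = Y * (Z * Y) := fun Z => rfl
  have hU : cj (ZMod l) u = 1 + a - b := by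
    refine LinearMap.ext fun Z => ?_
    have h1 : cj (ZMod l) u Z = (u : Matrix (Fin 2) (Fin 2) k) *
        (Z * ((u⁻¹ : GL (Fin 2) k) : Matrix (Fin 2) (Fin 2) k)) := rfl
    have h2 : (1 + a - b : Module.End (ZMod l) (Matrix (Fin 2) (Fin 2) k)) Z =
        Z + a Z - b Z := rfl
    rw [h1, h2, haZ, hbZ, hu, hinv, Matrix.mul_smul, Matrix.smul_mul, Matrix.mul_smul, smul_smul,
      mul_inv_cancel₀ hs, one_smul]
    noncomm_ring
  have h1 : a * a = -(2 * b) := by
    refine LinearMap.ext fun Z => ?_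
    have e1 : (a * a : Module.End (ZMod l) (Matrix (Fin 2) (Fin 2) k)) Z = a (a Z) := rfl
    have e2 : (-(2 * b) : Module.End (ZMod l) (Matrix (Fin 2) (Fin 2) k)) Z = -(b Z + b Z) := by
      rw [two_mul]
      rfl
    rw [e1, e2, haZ, haZ, hbZ]
    have e3 : Y * (Y * Z - Z * Y) - (Y * Z - Z * Y) * Y =
        (Y * Y) * Z - (Y * (Z * Y) + Y * (Z * Y)) + Z * (Y * Y) := by noncomm_ring
    rw [e3, hY, zero_mul, mul_zero, zero_sub, add_zero]
  have h2 : a * b = 0 := by
    refine LinearMap.ext fun Z => ?_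
    have e1 : (a * b : Module.End (ZMod l) (Matrix (Fin 2) (Fin 2) k)) Z = a (b Z) := rfl
    rw [e1, haZ, hbZ]
    have e3 : Y * (Y * (Z * Y)) - Y * (Z * Y) * Y = (Y * Y) * (Z * Y) - Y * Z * (Y * Y) := by
      noncomm_ring
    rw [e3, hY, zero_mul, mul_zero, sub_zero]
    rfl
  have h3 : b * a = 0 := by
    refine LinearMap.ext fun Z => ?_
    have e1 : (b * a : Module.End (ZMod l) (Matrix (Fin 2) (Fin 2) k)) Z = b (a Z) := rfl
    rw [e1, haZ, hbZ]
    have e3 : Y * ((Y * Z - Z * Y) * Y) = (Y * Y) * (Z * Y) - Y * Z * (Y * Y) := by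
      noncomm_ring
    rw [e3, hY, zero_mul, mul_zero, sub_zero]
    rfl
  have h4 : b * b = 0 := by
    refine LinearMap.ext fun Z => ?_
    have e1 : (b * b : Module.End (ZMod l) (Matrix (Fin 2) (Fin 2) k)) Z = b (b Z) := rfl
    rw [e1, hbZ, hbZ]
    have e3 : Y * (Y * (Z * Y) * Y) = (Y * Y) * (Z * Y * Y) := by
      noncomm_ring
    rw [e3, hY, zero_mul]
    rfl
  have hpow : ∀ j : ℕ, (e (cj (ZMod l) u)) ^ j =
      1 + ((j : ZMod l)) • e a - ((j : ZMod l) ^ 2) • e b := by
    intro j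
    rw [← map_pow, hU, ad_pow a b h1 h2 h3 h4 j, map_sub, map_add, map_one, map_mul, map_mul,
      map_pow, map_natCast]
    congr 1
    · congr 1
      rw [← nsmul_eq_mul, Nat.cast_smul_eq_nsmul]
    · rw [← Nat.cast_pow, ← nsmul_eq_mul, ← Nat.cast_pow, Nat.cast_smul_eq_nsmul]
  have hone : (e (cj (ZMod l) u)) ^ l = 1 := by
    rw [hpow, ZMod.natCast_self, zero_smul, zero_pow two_ne_zero, zero_smul, add_zero, sub_zero]
  have hnil := sub_one_pow (e (cj (ZMod l) u)) hone
  set F : Matrix (Fin m) (Fin m) (Polynomial (ZMod l)) := Matrix.of fun i j =>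
    Polynomial.C ((1 : Matrix (Fin m) (Fin m) (ZMod l)) i j) + Polynomial.X * Polynomial.C (e a i j) -
      Polynomial.X ^ 2 * Polynomial.C (e b i j) with hF
  have hFij : ∀ i j, F i j = Polynomial.C ((1 : Matrix (Fin m) (Fin m) (ZMod l)) i j) +
      Polynomial.X * Polynomial.C (e a i j) - Polynomial.X ^ 2 * Polynomial.C (e b i j) :=
    fun i j => rfl
  have hdeg : ∀ i j, (F i j).degree < (l : WithBot ℕ) := by
    intro i j
    have hn : (F i j).natDegree ≤ 2 := by
      rw [hFij]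
      compute_degree
    refine lt_of_le_of_lt Polynomial.degree_le_natDegree ?_
    have : (F i j).natDegree < l := by omega
    exact_mod_cast this
  have hev : ∀ t : ZMod l, F.map (Polynomial.eval t) = (e (cj (ZMod l) u)) ^ t.val := by
    intro t
    rw [hpow, ZMod.natCast_zmod_val]
    ext i j
    rw [Matrix.map_apply, hFij, Matrix.sub_apply, Matrix.add_apply, Matrix.smul_apply,
      Matrix.smul_apply, smul_eq_mul, smul_eq_mul, Polynomial.eval_sub, Polynomial.eval_add,
      Polynomial.eval_mul, Polynomial.eval_mul, Polynomial.eval_pow, Polynomial.eval_X,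
      Polynomial.eval_C, Polynomial.eval_C, Polynomial.eval_C]
  have huniq := pw_unique hm (e (cj (ZMod l) u)) hnil F hdeg hev
  unfold lg
  rw [← huniq]
  ext i j
  rw [Matrix.map_apply, hFij, Polynomial.coeff_sub, Polynomial.coeff_add, Polynomial.coeff_C,
    if_neg one_ne_zero, zero_add, Polynomial.coeff_mul_C, Polynomial.coeff_mul_C,
    Polynomial.coeff_X_one, one_mul, Polynomial.coeff_X_pow, if_neg (by norm_num), zero_mul,
    sub_zero]

end Pool.Agent.NLL
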