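import Pool.Agent.NLL.ThmN
import Pool.Agent.NLL.AdLg

/-!
# Project NLL, module AdKill: polynomials killing conjugation by `τ x` kill conjugation by `ρ x` on logarithms
-/

set_option autoImplicit false

namespace Pool.Agent.NLL

private theorem cj_apply {K R : Type} [Field K] [CommRing R] [Algebra K R] {n : ℕ}
    (g : GL (Fin n) R) (X : Matrix (Fin n) (Fin n) R) :
    cj K g X = (g : Matrix (Fin n) (Fin n) R) * X *
      ((g⁻¹ : GL (Fin n) R) : Matrix (Fin n) (Fin n) R) := by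
  simp only [cj, LinearMap.comp_apply, LinearMap.mulLeft_apply, LinearMap.mulRight_apply, mul_assoc]

/-- conjugation as a homomorphism -/
private noncomputable def cjHom (K R : Type) [Field K] [CommRing R] [Algebra K R] (n : ℕ) :
    GL (Fin n) R →* Module.End K (Matrix (Fin n) (Fin n) R) where
  toFun := cj K
  map_one' := by
    ext1 X
    rw [cj_apply]
    simp
  map_mul' g h := by
    ext1 X
    rw [Module.End.mul_apply, cj_apply, cj_apply, cj_apply, mul_inv_rev, Units.val_mul,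
      Units.val_mul]
    simp only [mul_assoc]

private theorem cj_pow {K R : Type} [Field K] [CommRing R] [Algebra K R] {n : ℕ}
    (g : GL (Fin n) R) (j : ℕ) : cj K (g ^ j) = (cj K g) ^ j :=
  map_pow (cjHom K R n) g j

theorem aeval_cj {K R : Type} [Field K] [CommRing R] [Algebra K R] {n : ℕ}
    (g : GL (Fin n) R) (P : Polynomial K) (X : Matrix (Fin n) (Fin n) R) :
    Polynomial.aeval (cj K g) P X = ∑ j : Fin (P.natDegree + 1), P.coeff j •
      (((g ^ (j : ℕ) : GL (Fin n) R) : Matrix (Fin n) (Fin n) R) * X *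
        (((g ^ (j : ℕ))⁻¹ : GL (Fin n) R) : Matrix (Fin n) (Fin n) R)) := by
  rw [Polynomial.aeval_eq_sum_range, LinearMap.sum_apply, ← Fin.sum_univ_eq_sum_range
    (fun j => (P.coeff j • cj K g ^ j) X)]
  refine Finset.sum_congr rfl fun j _ => ?_
  rw [LinearMap.smul_apply, ← cj_pow, cj_apply]

private theorem scalar_of_comm {k : Type} [Field k] (h2 : (2 : k) ≠ 0)
    (Z : Matrix (Fin 2) (Fin 2) k) (hc : ∀ X, Z * X = X * Z) (ht : Z.trace = 0) : Z = 0 := by
  have h1 := hc !![0, 1; 0, 0]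
  have h3 := hc !![0, 0; 1, 0]
  have e1 := congrFun (congrFun h1 0) 0
  have e2 := congrFun (congrFun h1 0) 1
  have e3 := congrFun (congrFun h3 0) 0
  have e4 := congrFun (congrFun h3 1) 1
  simp [Matrix.mul_apply, Fin.sum_univ_two] at e1 e2 e3 e4
  rw [Matrix.trace_fin_two] at ht
  have h5 : Z 0 0 = 0 := by
    have h6 : (2 : k) * Z 0 0 = 0 := by
      rw [two_mul]
      nth_rewrite 2 [e2]
      exact ht
    exact (mul_eq_zero.mp h6).resolve_left h2
  ext i j
  fin_cases i <;> fin_cases j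
  · exact h5
  · simpa using e3
  · exact e1.symm
  · show Z 1 1 = 0
    rw [← e2]
    exact h5

theorem ad_kill (n a : ℕ) : ∃ C : ℕ, ∀ (l : ℕ) [Fact l.Prime], C < l → ∀ (k : Type) [Field k]
    [Algebra (ZMod l) k] [Module.Finite (ZMod l) k], Module.finrank (ZMod l) k ≤ a →
    ∀ (Γ : Type) [Group Γ] (ρ : Γ →* GL (Fin 2) k) (τ : Γ →* GL (Fin n) (ZMod l)),
    (∀ x, τ x = 1 → ∃ s : k, (ρ x : Matrix (Fin 2) (Fin 2) k) = s • 1) →
    ∀ (x u : Γ) (s : k) (Y : Matrix (Fin 2) (Fin 2) k), τ u ^ l = 1 →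
    (ρ u : Matrix (Fin 2) (Fin 2) k) = s • (1 + Y) → Y * Y = 0 →
    ∀ P : Polynomial (ZMod l), Polynomial.aeval (cj (ZMod l) (τ x)) P = 0 →
    Polynomial.aeval (cj (ZMod l) (ρ x)) P Y = 0 := by
  choose C hC using fun m : ℕ => log_linear n m
  refine ⟨3 + 4 * a + ∑ m ∈ Finset.range (4 * a + 1), C m,
    fun l _ hl k _ _ _ hka Γ _ ρ τ hker x u s Y hu hY hY2 P hP => ?_⟩
  obtain ⟨m, hm⟩ : ∃ m, m = Module.finrank (ZMod l) (Matrix (Fin 2) (Fin 2) k) := ⟨_, rfl⟩
  have hm4 : m ≤ 4 * a := by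
    rw [hm, Module.finrank_matrix, Fintype.card_fin]
    omega
  have hCm : C m < l := by
    have h1 : C m ≤ ∑ m ∈ Finset.range (4 * a + 1), C m :=
      Finset.single_le_sum (f := C) (fun _ _ => Nat.zero_le _) (Finset.mem_range.mpr (by omega))
    omega
  have hml : m ≤ l := by omega
  have h3l : 3 ≤ l := by omega
  have h2 : (2 : k) ≠ 0 := by
    have h1 : (2 : ZMod l) ≠ 0 := by
      intro h0
      have h3 : ((2 : ℕ) : ZMod l) = 0 := by exact_mod_cast h0
      rw [ZMod.natCast_eq_zero_iff] at h3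
      have h4 := Nat.le_of_dvd (by norm_num) h3
      omega
    have h4 := (map_ne_zero (algebraMap (ZMod l) k)).mpr h1
    rwa [map_ofNat] at h4
  obtain ⟨e⟩ : Nonempty (Module.End (ZMod l) (Matrix (Fin 2) (Fin 2) k) ≃ₐ[ZMod l]
      Matrix (Fin m) (Fin m) (ZMod l)) := by
    subst hm
    exact ⟨LinearMap.toMatrixAlgEquiv (Module.finBasis (ZMod l) (Matrix (Fin 2) (Fin 2) k))⟩
  obtain ⟨σ, hσ⟩ : ∃ σ : Γ →* GL (Fin m) (ZMod l), ∀ y,
      (σ y : Matrix (Fin m) (Fin m) (ZMod l)) = e (cj (ZMod l) (ρ y)) :=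
    ⟨((e : Module.End (ZMod l) (Matrix (Fin 2) (Fin 2) k) →* Matrix (Fin m) (Fin m) (ZMod l)).comp
      ((cjHom (ZMod l) k 2).comp ρ)).toHomUnits, fun y => rfl⟩
  have hker2 : ∀ y, τ y = 1 → σ y = 1 := by
    intro y hy
    obtain ⟨s, hs⟩ := hker y hy
    apply Units.ext
    rw [hσ, Units.val_one]
    have h1 : cj (ZMod l) (ρ y) = 1 := by
      ext1 X
      rw [cj_apply, Module.End.one_apply]
      have h2 : (ρ y : Matrix (Fin 2) (Fin 2) k) * X = X * (ρ y : Matrix (Fin 2) (Fin 2) k) := by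
        rw [hs, Matrix.smul_mul, Matrix.mul_smul, one_mul, mul_one]
      rw [h2, mul_assoc, ← Units.val_mul, mul_inv_cancel, Units.val_one, mul_one]
    rw [h1, map_one]
  have hkey := hC m l hCm Γ τ σ hker2 (Fin (P.natDegree + 1)) (fun j => P.coeff j)
    (fun j => x ^ (j : ℕ) * u * (x ^ (j : ℕ))⁻¹) (fun j => by
      rw [map_mul, map_mul, map_inv, conj_pow, hu, mul_one, mul_inv_cancel]) (by
      have h1 := LinearMap.congr_fun hP (lg (τ u : Matrix (Fin n) (Fin n) (ZMod l)))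
      rw [aeval_cj, LinearMap.zero_apply] at h1
      rw [← h1]
      refine Finset.sum_congr rfl fun j _ => ?_
      rw [map_mul, map_mul, map_inv, map_pow, Units.val_mul, Units.val_mul, lg_conj])
  -- the element `Z`
  obtain ⟨Z, hZ⟩ : ∃ Z, Z = Polynomial.aeval (cj (ZMod l) (ρ x)) P Y := ⟨_, rfl⟩
  rw [← hZ]
  have hZs := hZ
  rw [aeval_cj] at hZs
  have hYj : ∀ j : ℕ, lg (σ (x ^ j * u * (x ^ j)⁻¹) : Matrix (Fin m) (Fin m) (ZMod l)) =
      e (LinearMap.mulLeft (ZMod l) (((ρ x ^ j : GL (Fin 2) k) : Matrix (Fin 2) (Fin 2) k) * Y *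
        (((ρ x ^ j)⁻¹ : GL (Fin 2) k) : Matrix (Fin 2) (Fin 2) k)) -
        LinearMap.mulRight (ZMod l) (((ρ x ^ j : GL (Fin 2) k) : Matrix (Fin 2) (Fin 2) k) * Y *
        (((ρ x ^ j)⁻¹ : GL (Fin 2) k) : Matrix (Fin 2) (Fin 2) k))) := by
    intro j
    rw [hσ]
    refine lg_ad h3l hml e _ s _ ?_ ?_
    · rw [map_mul, map_mul, map_inv, map_pow, Units.val_mul, Units.val_mul, hY, mul_assoc,
        Matrix.smul_mul, Matrix.mul_smul, add_mul, mul_add, one_mul, ← Units.val_mul,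
        mul_inv_cancel, Units.val_one, mul_assoc]
    · have h1 : (((ρ x ^ j)⁻¹ : GL (Fin 2) k) : Matrix (Fin 2) (Fin 2) k) *
          ((ρ x ^ j : GL (Fin 2) k) : Matrix (Fin 2) (Fin 2) k) = 1 := by
        rw [← Units.val_mul, inv_mul_cancel, Units.val_one]
      calc _ = ((ρ x ^ j : GL (Fin 2) k) : Matrix (Fin 2) (Fin 2) k) * Y *
          ((((ρ x ^ j)⁻¹ : GL (Fin 2) k) : Matrix (Fin 2) (Fin 2) k) *
          ((ρ x ^ j : GL (Fin 2) k) : Matrix (Fin 2) (Fin 2) k)) * Y *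
          (((ρ x ^ j)⁻¹ : GL (Fin 2) k) : Matrix (Fin 2) (Fin 2) k) := by
            simp only [mul_assoc]
        _ = ((ρ x ^ j : GL (Fin 2) k) : Matrix (Fin 2) (Fin 2) k) * (Y * Y) *
          (((ρ x ^ j)⁻¹ : GL (Fin 2) k) : Matrix (Fin 2) (Fin 2) k) := by
            rw [h1, mul_one, mul_assoc _ Y Y]
        _ = 0 := by rw [hY2, mul_zero, zero_mul]
  simp only [hYj] at hkey
  have h5 : e (LinearMap.mulLeft (ZMod l) Z - LinearMap.mulRight (ZMod l) Z) = 0 := by
    rw [← hkey, hZs]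
    simp only [← map_smul, ← map_sum]
    congr 1
    ext1 X
    simp only [LinearMap.sub_apply, LinearMap.mulLeft_apply, LinearMap.mulRight_apply,
      LinearMap.sum_apply, LinearMap.smul_apply, Finset.sum_mul, Finset.mul_sum,
      ← Finset.sum_sub_distrib]
    refine Finset.sum_congr rfl fun j _ => ?_
    rw [smul_mul_assoc, mul_smul_comm, smul_sub]
  have h6 : LinearMap.mulLeft (ZMod l) Z - LinearMap.mulRight (ZMod l) Z = 0 := by
    apply e.injective
    rw [h5, map_zero]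
  refine scalar_of_comm h2 Z (fun X => ?_) ?_
  · have h7 := LinearMap.congr_fun h6 X
    rw [LinearMap.sub_apply, LinearMap.mulLeft_apply, LinearMap.mulRight_apply,
      LinearMap.zero_apply, sub_eq_zero] at h7
    exact h7
  · rw [hZs, Matrix.trace_sum]
    refine Finset.sum_eq_zero fun j _ => ?_
    rw [Matrix.trace_smul, Matrix.trace_mul_cycle, ← Units.val_mul, inv_mul_cancel, Units.val_one,
      one_mul]
    have h8 : Y.trace = 0 := by
      have h9 : IsNilpotent Y := ⟨2, by rw [pow_two]; exact hY2⟩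
      exact (Matrix.isNilpotent_trace_of_isNilpotent h9).eq_zero
    rw [h8, smul_zero]

end Pool.Agent.NLL
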