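import Pool.Agent.NLL.Defs

/-!
# Project NLL, module Coef: specialisations of a polynomial in one distinguished variable
-/

set_option autoImplicit false

namespace Pool.Agent.NLL

open MvPolynomial

theorem exists_coef {K : Type} [Field K] {N E : ℕ} (p : MvPolynomial (Fin (N + 1)) K) (hp : p ≠ 0)
    (hE : p.totalDegree ≤ E) : ∃ q : MvPolynomial (Fin N) K, q ≠ 0 ∧ q.totalDegree ≤ E ∧
      ∀ v : Fin N → K, eval v q ≠ 0 → ∀ S : Finset K,
        (∀ x ∈ S, eval (Fin.cons x v : Fin (N + 1) → K) p = 0) → S.card ≤ E := by
  classical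
  set P := finSuccEquiv K N p with hP
  have hP0 : P ≠ 0 := by
    intro h
    apply hp
    have h1 : finSuccEquiv K N p = finSuccEquiv K N 0 := by rw [← hP, h, map_zero]
    exact (finSuccEquiv K N).injective h1
  refine ⟨P.coeff P.natDegree, ?_, ?_, ?_⟩
  · exact Polynomial.leadingCoeff_ne_zero.2 hP0
  · have h1 := totalDegree_coeff_finSuccEquiv_add_le p P.natDegree
      (Polynomial.leadingCoeff_ne_zero.2 hP0)
    rw [← hP] at h1
    omega
  · intro v hv S hS
    set Q : Polynomial K := P.map (eval v) with hQ
    have hQ0 : Q ≠ 0 := by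
      intro h
      apply hv
      have h1 : Q.coeff P.natDegree = 0 := by rw [h, Polynomial.coeff_zero]
      rw [hQ, Polynomial.coeff_map] at h1
      exact h1
    have hQd : Q.natDegree ≤ E := by
      have h1 : Q.natDegree ≤ P.natDegree := Polynomial.natDegree_map_le
      have h2 : P.natDegree = degreeOf 0 p := natDegree_finSuccEquiv p
      have h3 := degreeOf_le_totalDegree p 0
      omega
    have h1 : S ⊆ Q.roots.toFinset := by
      intro x hx
      rw [Multiset.mem_toFinset, Polynomial.mem_roots hQ0]
      have h2 := hS x hx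
      rw [eval_eq_eval_mv_eval'] at h2
      exact h2
    calc S.card ≤ Q.roots.toFinset.card := Finset.card_le_card h1
      _ ≤ Multiset.card Q.roots := Multiset.toFinset_card_le _
      _ ≤ Q.natDegree := Polynomial.card_roots' Q
      _ ≤ E := hQd

end Pool.Agent.NLL
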