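import Pool.Agent.NLL.Defs

/-!
# Project NLL, module SZ: the number of zeros over the prime field

PLAN. `MvPolynomial.schwartz_zippel_totalDegree` with `S = Finset.univ` (`#S = l`, `Fintype.piFinset (fun _ => univ) = univ`): `#zeros / l^(N+1) ≤ totalDegree / l`; clear denominators.
-/

set_option autoImplicit false

namespace Pool.Agent.NLL

open MvPolynomial

theorem card_zeros {l : ℕ} [Fact l.Prime] {N D : ℕ} (q : MvPolynomial (Fin (N + 1)) (ZMod l))
    (hq : q ≠ 0) (hD : q.totalDegree ≤ D) :
    (Finset.univ.filter fun s : Fin (N + 1) → ZMod l => eval s q = 0).card ≤ D * l ^ N := by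
  classical
  have hl : 0 < l := (Fact.out : l.Prime).pos
  have h := MvPolynomial.schwartz_zippel_totalDegree hq (Finset.univ : Finset (ZMod l))
  have hc : (Finset.univ : Finset (ZMod l)).card = l := by
    rw [Finset.card_univ, ZMod.card]
  have hs : (Finset.univ.filter fun s : Fin (N + 1) → ZMod l => eval s q = 0) =
      (Fintype.piFinset fun _ : Fin (N + 1) => (Finset.univ : Finset (ZMod l))).filter
        (fun f => eval f q = 0) := by
    ext s
    simp [Fintype.mem_piFinset]
  rw [← hs, hc] at h
  have hl' : (0 : ℚ≥0) < (l : ℚ≥0) := by exact_mod_cast hl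
  rw [div_le_div_iff₀ (by positivity) hl'] at h
  have h1 : (Finset.univ.filter fun s : Fin (N + 1) → ZMod l => eval s q = 0).card * l ≤
      q.totalDegree * l ^ (N + 1) := by exact_mod_cast h
  have h2 : q.totalDegree * l ^ (N + 1) ≤ D * l ^ N * l := by
    calc q.totalDegree * l ^ (N + 1) ≤ D * l ^ (N + 1) := Nat.mul_le_mul_right _ hD
      _ = D * l ^ N * l := by rw [pow_succ]; ring
  exact Nat.le_of_mul_le_mul_right (h1.trans h2) hl

end Pool.Agent.NLL
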