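import Pool.Agent.NLL.Easy
import Pool.Agent.NLL.Coef
import Pool.Agent.NLL.SZ

/-!
# Project NLL, module Big: a big fibre

If the `x j` are algebraic over the `z i` (annihilating polynomials of degree at most `E`) and the `z i` are algebraically
independent, then every set of points has a large subset on which all the `x j` are constant (pigeonhole).
-/

set_option autoImplicit false

namespace Pool.Agent.NLL

open MvPolynomial

private theorem bg_degree {K σ τ : Type*} [Field K] {D : ℕ} (s : σ → MvPolynomial τ K)
    (hs : ∀ v, (s v).totalDegree ≤ D) (P : MvPolynomial σ K) :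
    (aeval s P).totalDegree ≤ P.totalDegree * D := by
  rw [aeval_def, eval₂_eq]
  refine totalDegree_finsetSum_le ?_
  intro m hm
  refine (totalDegree_mul _ _).trans ?_
  have h1 : (algebraMap K (MvPolynomial τ K) (coeff m P)).totalDegree = 0 := totalDegree_C _
  rw [h1, zero_add]
  refine (totalDegree_finsetProd _ _).trans ?_
  calc ∑ i ∈ m.support, (s i ^ m i).totalDegree ≤ ∑ i ∈ m.support, m i * D := by
        refine Finset.sum_le_sum ?_
        intro i _
        refine (totalDegree_pow _ _).trans ?_
        exact Nat.mul_le_mul_left _ (hs i)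
    _ = (∑ i ∈ m.support, m i) * D := by rw [Finset.sum_mul]
    _ ≤ P.totalDegree * D := Nat.mul_le_mul_right _ (le_totalDegree hm)

private theorem bg_eval {K : Type} [Field K] {m N : ℕ} (y : Fin m → MvPolynomial (Fin N) K)
    (s : Fin N → K) (p : MvPolynomial (Fin m) K) :
    eval s (aeval y p) = eval (fun i => eval s (y i)) p := by
  exact eval₂Hom_bind₁ _ _ _ _

private theorem bg_fibre {α β : Type} [DecidableEq α] [DecidableEq β] (B : Finset α) (f : α → β) :
    ∃ S : Finset α, S ⊆ B ∧ (∀ s ∈ S, ∀ t ∈ S, f s = f t) ∧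
      B.card ≤ (B.image f).card * S.card := by
  by_cases hB : B.Nonempty
  · obtain ⟨b, hb, hmax⟩ := Finset.exists_max_image (B.image f)
      (fun a => (B.filter fun x => f x = a).card) (hB.image f)
    refine ⟨B.filter fun x => f x = b, Finset.filter_subset _ _, ?_, ?_⟩
    · intro s hs t ht
      rw [(Finset.mem_filter.1 hs).2, (Finset.mem_filter.1 ht).2]
    · have h1 := Finset.card_le_mul_card_image (f := f) B
        ((B.filter fun x => f x = b).card) (fun a ha => hmax a ha)
      rw [mul_comm]
      exact h1
  · rw [Finset.not_nonempty_iff_eq_empty] at hB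
    refine ⟨∅, Finset.empty_subset _, ?_, ?_⟩
    · intro s hs
      exact absurd hs (Finset.notMem_empty s)
    · rw [hB, Finset.card_empty]
      exact Nat.zero_le _

theorem big_fibre {l : ℕ} [Fact l.Prime] {N E D : ℕ} {A : Type} [Fintype A] (hEl : E < l)
    (z0 : MvPolynomial (Fin (N + 1)) (ZMod l)) (z : Fin N → MvPolynomial (Fin (N + 1)) (ZMod l))
    (x : A → MvPolynomial (Fin (N + 1)) (ZMod l)) (hz : ∀ i, (z i).totalDegree ≤ D)
    (hj : (jac (Fin.cons z0 z : Fin (N + 1) → MvPolynomial (Fin (N + 1)) (ZMod l))).det ≠ 0)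
    (hx : ∀ j, Ann E (Fin.cons (x j) z : Fin (N + 1) → MvPolynomial (Fin (N + 1)) (ZMod l)))
    (B : Finset (Fin (N + 1) → ZMod l)) :
    ∃ S : Finset (Fin (N + 1) → ZMod l), S ⊆ B ∧
      (∀ s ∈ S, ∀ t ∈ S, ∀ j, eval s (x j) = eval t (x j)) ∧
      B.card ≤ Fintype.card A * (E * D) * l ^ N + l ^ N * E ^ Fintype.card A * S.card := by
  classical
  choose p hp0 hpE hpa using hx
  choose q hq0 hqE hqS using fun j => exists_coef (p j) (hp0 j) (hpE j)
  have hQ0 : ∀ j, aeval z (q j) ≠ 0 := by
    intro j h0
    refine not_ann hEl _ hj ⟨rename Fin.succ (q j), ?_, ?_, ?_⟩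
    · intro h1
      apply hq0 j
      apply rename_injective _ (Fin.succ_injective N)
      rw [h1, map_zero]
    · exact (totalDegree_rename_le _ _).trans (hqE j)
    · rw [aeval_rename]
      exact h0
  have hQd : ∀ j, (aeval z (q j)).totalDegree ≤ E * D := by
    intro j
    exact (bg_degree z hz (q j)).trans (Nat.mul_le_mul_right _ (hqE j))
  have hZ : ∀ j, (Finset.univ.filter fun s : Fin (N + 1) → ZMod l =>
      eval s (aeval z (q j)) = 0).card ≤ E * D * l ^ N :=
    fun j => card_zeros _ (hQ0 j) (hQd j)
  set Z : Finset (Fin (N + 1) → ZMod l) := Finset.univ.biUnion fun j : A =>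
    Finset.univ.filter fun s : Fin (N + 1) → ZMod l => eval s (aeval z (q j)) = 0 with hZdef
  have hZc : Z.card ≤ Fintype.card A * (E * D) * l ^ N := by
    calc Z.card ≤ ∑ j : A, (Finset.univ.filter fun s : Fin (N + 1) → ZMod l =>
          eval s (aeval z (q j)) = 0).card := Finset.card_biUnion_le
      _ ≤ ∑ _j : A, E * D * l ^ N := Finset.sum_le_sum fun j _ => hZ j
      _ = Fintype.card A * (E * D) * l ^ N := by
        rw [Finset.sum_const, Finset.card_univ, smul_eq_mul]
        ring
  set key : (Fin (N + 1) → ZMod l) → (Fin N → ZMod l) × (A → ZMod l) :=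
    fun s => (fun i => eval s (z i), fun j => eval s (x j)) with hkey
  set R : A → (Fin N → ZMod l) → Finset (ZMod l) := fun j v =>
    if eval v (q j) ≠ 0 then
      Finset.univ.filter fun a => eval (Fin.cons a v : Fin (N + 1) → ZMod l) (p j) = 0
    else ∅ with hR
  have hRc : ∀ j v, (R j v).card ≤ E := by
    intro j v
    simp only [hR]
    split_ifs with h
    · exact hqS j v h _ fun a ha => (Finset.mem_filter.1 ha).2
    · rw [Finset.card_empty]
      exact Nat.zero_le _
  have himg : ((B \ Z).image key).card ≤ l ^ N * E ^ Fintype.card A := by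
    have hsub : (B \ Z).image key ⊆ Finset.univ.biUnion fun v : Fin N → ZMod l =>
        (Fintype.piFinset fun j => R j v).image fun w => (v, w) := by
      intro a ha
      obtain ⟨s, hs, rfl⟩ := Finset.mem_image.1 ha
      rw [Finset.mem_biUnion]
      refine ⟨fun i => eval s (z i), Finset.mem_univ _, ?_⟩
      rw [Finset.mem_image]
      refine ⟨fun j => eval s (x j), ?_, rfl⟩
      rw [Fintype.mem_piFinset]
      intro j
      have hs2 : s ∉ Z := (Finset.mem_sdiff.1 hs).2
      have h1 : eval (fun i => eval s (z i)) (q j) ≠ 0 := by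
        intro h2
        apply hs2
        rw [hZdef, Finset.mem_biUnion]
        refine ⟨j, Finset.mem_univ _, Finset.mem_filter.2 ⟨Finset.mem_univ _, ?_⟩⟩
        rw [bg_eval]
        exact h2
      simp only [hR]
      rw [if_pos h1, Finset.mem_filter]
      refine ⟨Finset.mem_univ _, ?_⟩
      have h3 : (Fin.cons (eval s (x j)) (fun i => eval s (z i)) : Fin (N + 1) → ZMod l) =
          fun i => eval s ((Fin.cons (x j) z : Fin (N + 1) → MvPolynomial (Fin (N + 1)) (ZMod l)) i) := by
        funext i
        refine Fin.cases ?_ (fun i => ?_) i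
        · rfl
        · rfl
      rw [h3, ← bg_eval, hpa j, map_zero]
    calc ((B \ Z).image key).card ≤ _ := Finset.card_le_card hsub
      _ ≤ ∑ v : Fin N → ZMod l, ((Fintype.piFinset fun j => R j v).image fun w => (v, w)).card :=
        Finset.card_biUnion_le
      _ ≤ ∑ _v : Fin N → ZMod l, E ^ Fintype.card A := by
        refine Finset.sum_le_sum fun v _ => ?_
        refine Finset.card_image_le.trans ?_
        rw [Fintype.card_piFinset]
        calc ∏ j, (R j v).card ≤ ∏ _j : A, E := Finset.prod_le_prod' fun j _ => hRc j v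
          _ = E ^ Fintype.card A := by rw [Finset.prod_const, Finset.card_univ]
      _ = l ^ N * E ^ Fintype.card A := by
        rw [Finset.sum_const, Finset.card_univ, smul_eq_mul, Fintype.card_fun, ZMod.card,
          Fintype.card_fin]
  obtain ⟨S, hSB, hSf, hSc⟩ := bg_fibre (B \ Z) key
  refine ⟨S, hSB.trans Finset.sdiff_subset, ?_, ?_⟩
  · intro s hs t ht j
    have h1 := hSf s hs t ht
    exact congrFun (congrArg Prod.snd h1) j
  · have h1 : B.card ≤ Z.card + (B \ Z).card := by
      calc B.card ≤ (Z ∪ (B \ Z)).card := Finset.card_le_card (by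
            intro s hs
            rw [Finset.mem_union, Finset.mem_sdiff]
            by_cases h : s ∈ Z
            · exact Or.inl h
            · exact Or.inr ⟨hs, h⟩)
        _ ≤ Z.card + (B \ Z).card := Finset.card_union_le _ _
    calc B.card ≤ Z.card + (B \ Z).card := h1
      _ ≤ Fintype.card A * (E * D) * l ^ N + ((B \ Z).image key).card * S.card :=
        Nat.add_le_add hZc hSc
      _ ≤ Fintype.card A * (E * D) * l ^ N + l ^ N * E ^ Fintype.card A * S.card :=
        Nat.add_le_add_left (Nat.mul_le_mul_right _ himg) _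

end Pool.Agent.NLL
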