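import Pool.Agent.NLL.Defs

/-!
# Project NLL, module Count: N+1 polynomials in N variables have an annihilating polynomial of bounded degree

PLAN (dimension count). Put `q = ((N+1) * D + 1) ^ N`, `E = (N+1) * q`. The monomials `∏ Z_i ^ e_i`, `e : Fin (N+1) → Fin (q+1)`, are `(q+1)^(N+1)` many,
of total degree `≤ E`. Their values `∏ z_i ^ e_i` have total degree `≤ E * D`, so they lie in the span of the monomials `∏ t_j ^ f_j` with `f : Fin N → Fin (E*D+1)`, of dimension
`≤ (E*D+1)^N = ((N+1)*q*D+1)^N ≤ (((N+1)*D+1) * (q+1))^N = q * (q+1)^N < (q+1)^(N+1)`. So the `(q+1)^(N+1)` values are linearly dependent over `K`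
(e.g. `Fintype.card` versus `Module.finrank` in `Submodule`, or: the linear map `(Fin (N+1) → Fin (q+1)) → K` to coefficient functions `(Fin N → Fin (E*D+1)) → K`, `c ↦ (f ↦ coeff f (∑ c_e ∏ z^e))`, has a nonzero
kernel element by `LinearMap.exists_ne_zero_of...` / `LinearMap.ker_ne_bot_of_finrank_lt`; a polynomial of total degree `≤ E*D` all of whose coefficients with exponents `≤ E*D` vanish is zero).
`p = ∑ c_e monomial e 1 ≠ 0` since the exponents are distinct.
-/

set_option autoImplicit false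

namespace Pool.Agent.NLL

open MvPolynomial

/-- the exponent of a bounded tuple -/
private noncomputable def mon {m B : ℕ} (e : Fin m → Fin B) : Fin m →₀ ℕ :=
  Finsupp.equivFunOnFinite.symm fun i => (e i : ℕ)

private theorem mon_apply {m B : ℕ} (e : Fin m → Fin B) (i : Fin m) : mon e i = e i := rfl

private theorem mon_inj {m B : ℕ} {e e' : Fin m → Fin B} (h : mon e = mon e') : e = e' := by
  funext i
  apply Fin.ext
  rw [← mon_apply e, h, mon_apply]

/-- the polynomial with the coefficients `c` -/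
private noncomputable def PP (K : Type) [Field K] (m B : ℕ) :
    ((Fin m → Fin B) → K) →ₗ[K] MvPolynomial (Fin m) K where
  toFun c := ∑ e, monomial (mon e) (c e)
  map_add' c c' := by
    rw [← Finset.sum_add_distrib]
    refine Finset.sum_congr rfl fun e _ => ?_
    rw [Pi.add_apply, map_add]
  map_smul' r c := by
    rw [RingHom.id_apply, Finset.smul_sum]
    refine Finset.sum_congr rfl fun e _ => ?_
    rw [Pi.smul_apply, smul_monomial]

private theorem PP_apply (K : Type) [Field K] (m B : ℕ) (c : (Fin m → Fin B) → K) :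
    PP K m B c = ∑ e, monomial (mon e) (c e) := rfl

private theorem PP_coeff (K : Type) [Field K] (m B : ℕ) (c : (Fin m → Fin B) → K)
    (e0 : Fin m → Fin B) : coeff (mon e0) (PP K m B c) = c e0 := by
  classical
  rw [PP_apply, coeff_sum, Finset.sum_eq_single e0]
  · rw [coeff_monomial, if_pos rfl]
  · intro e _ he
    rw [coeff_monomial, if_neg fun h => he (mon_inj h)]
  · intro h
    exact absurd (Finset.mem_univ _) h

private theorem PP_deg (K : Type) [Field K] (m q : ℕ) (c : (Fin m → Fin (q + 1)) → K) :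
    (PP K m (q + 1) c).totalDegree ≤ m * q := by
  rw [PP_apply]
  refine totalDegree_finsetSum_le fun e _ => ?_
  refine (totalDegree_monomial_le _ _).trans ?_
  rw [Finsupp.sum_fintype _ _ (fun _ => rfl)]
  calc ∑ i, (mon e) i ≤ ∑ _i : Fin m, q := Finset.sum_le_sum fun i _ => by
        rw [mon_apply]
        exact Nat.lt_succ_iff.1 (e i).2
    _ = m * q := by simp

private theorem PP_aeval (K : Type) [Field K] (m q D : ℕ) {N : ℕ}
    (z : Fin m → MvPolynomial (Fin N) K) (hz : ∀ i, (z i).totalDegree ≤ D)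
    (c : (Fin m → Fin (q + 1)) → K) :
    (aeval z (PP K m (q + 1) c)).totalDegree ≤ m * q * D := by
  rw [PP_apply, map_sum]
  refine totalDegree_finsetSum_le fun e _ => ?_
  rw [aeval_monomial, ← C_eq_algebraMap]
  refine (totalDegree_mul _ _).trans ?_
  rw [totalDegree_C, zero_add, Finsupp.prod_fintype _ _ (fun i => pow_zero _)]
  refine (totalDegree_finsetProd _ _).trans ?_
  calc ∑ i, (z i ^ (mon e) i).totalDegree ≤ ∑ _i : Fin m, q * D := Finset.sum_le_sum fun i _ => by
        refine (totalDegree_pow _ _).trans ?_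
        refine Nat.mul_le_mul ?_ (hz i)
        rw [mon_apply]
        exact Nat.lt_succ_iff.1 (e i).2
    _ = m * q * D := by
        rw [Finset.sum_const, Finset.card_univ, Fintype.card_fin, smul_eq_mul, mul_assoc]

private theorem coeff_zero_of {K : Type} [Field K] {N B : ℕ} {f : MvPolynomial (Fin N) K}
    (hf : f.totalDegree ≤ B) (h : ∀ e : Fin N → Fin (B + 1), coeff (mon e) f = 0) : f = 0 := by
  ext d
  rw [coeff_zero]
  by_contra hd
  have h1 : d ∈ f.support := mem_support_iff.2 hd
  have h2 : ∀ i, d i ≤ B := fun i => by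
    have h3 := le_totalDegree h1
    have h4 : d i ≤ d.sum fun _ e => e := by
      rw [Finsupp.sum_fintype _ _ (fun _ => rfl)]
      exact Finset.single_le_sum (f := fun i => d i) (fun i _ => Nat.zero_le _)
        (Finset.mem_univ i)
    omega
  apply hd
  have h3 := h fun i => ⟨d i, Nat.lt_succ_iff.2 (h2 i)⟩
  have h4 : mon (fun i => (⟨d i, Nat.lt_succ_iff.2 (h2 i)⟩ : Fin (B + 1))) = d := by
    ext i
    rfl
  rwa [h4] at h3

private theorem count_lt (N D : ℕ) :
    ((N + 1) * (((N + 1) * D + 1) ^ N) * D + 1) ^ N <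
      (((N + 1) * D + 1) ^ N + 1) ^ (N + 1) := by
  generalize hq : ((N + 1) * D + 1) ^ N = q
  have h1 : (N + 1) * q * D + 1 ≤ ((N + 1) * D + 1) * (q + 1) := by
    have h2 : ((N + 1) * D + 1) * (q + 1) = (N + 1) * q * D + 1 + ((N + 1) * D + q) := by ring
    omega
  calc ((N + 1) * q * D + 1) ^ N ≤ (((N + 1) * D + 1) * (q + 1)) ^ N := Nat.pow_le_pow_left h1 N
    _ = q * (q + 1) ^ N := by rw [mul_pow, hq]
    _ < (q + 1) * (q + 1) ^ N := Nat.mul_lt_mul_of_pos_right (Nat.lt_succ_self q) (by positivity)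
    _ = (q + 1) ^ (N + 1) := by rw [pow_succ]; ring

theorem exists_ann (N D : ℕ) : ∃ E : ℕ, ∀ (K : Type) [Field K]
    (z : Fin (N + 1) → MvPolynomial (Fin N) K), (∀ i, (z i).totalDegree ≤ D) → Ann E z := by
  obtain ⟨q, hq⟩ : ∃ q : ℕ, q = ((N + 1) * D + 1) ^ N := ⟨_, rfl⟩
  refine ⟨(N + 1) * q, fun K _ z hz => ?_⟩
  have hcard := count_lt N D
  rw [← hq] at hcard
  let Φ : ((Fin (N + 1) → Fin (q + 1)) → K) →ₗ[K]
      ((Fin N → Fin ((N + 1) * q * D + 1)) → K) :=
    LinearMap.pi fun f => (lcoeff K (mon f)) ∘ₗ (aeval z).toLinearMap ∘ₗ (PP K (N + 1) (q + 1))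
  have hker : LinearMap.ker Φ ≠ ⊥ := by
    refine LinearMap.ker_ne_bot_of_finrank_lt ?_
    rw [Module.finrank_fintype_fun_eq_card, Module.finrank_fintype_fun_eq_card]
    simpa using hcard
  obtain ⟨c, hc, hc0⟩ := (Submodule.ne_bot_iff _).1 hker
  refine ⟨PP K (N + 1) (q + 1) c, ?_, PP_deg K (N + 1) q c, ?_⟩
  · intro h
    apply hc0
    funext e
    rw [← PP_coeff K (N + 1) (q + 1) c e, h, coeff_zero]
    rfl
  · refine coeff_zero_of (PP_aeval K (N + 1) q D z hz c) fun f => ?_
    have h1 := congrFun (LinearMap.mem_ker.1 hc) f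
    exact h1

end Pool.Agent.NLL
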