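import Mathlib

/-!
# Project NLL (MP_6cbef8_nt): log-linearity of homomorphisms of linear groups over `F_l`

Definitions.
* `jac z`: the Jacobian matrix of `N` polynomials in `N` variables.
* `Ann E z`: the polynomials `z` have a nonzero annihilating polynomial of total degree at most `E`.
* `pw A`: for `A` with `(A - 1) ^ n = 0` the matrix `A ^ X` with polynomial entries (binomial series).
* `lg A`: the coefficient of `X` in `pw A`, the logarithm of `A`.
* `pv A k`: the matrix `A ^ X_k`; `Ph u`: the product of the `u k ^ X_k`.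
* `IL N L`: the matrices over the polynomial ring whose coefficients lie in the subspace `L`.
* `cj K g`: conjugation by `g`.
* `Wm d s T`: the matrix of `X ↦ d T² X - s T X T + d X T²`.
* `cpn n g`: the companion matrix; `om n f g`: the determinant of `Wm` for the polynomials `f`, `g`.
-/

set_option autoImplicit false

namespace Pool.Agent.NLL

open MvPolynomial

/-- the Jacobian matrix -/
noncomputable def jac {K : Type} [Field K] {N : ℕ} (z : Fin N → MvPolynomial (Fin N) K) :
    Matrix (Fin N) (Fin N) (MvPolynomial (Fin N) K) :=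
  Matrix.of fun i j => pderiv j (z i)

/-- the `z i` have a nonzero annihilating polynomial of total degree at most `E` -/
def Ann {K : Type} [Field K] {N m : ℕ} (E : ℕ) (z : Fin m → MvPolynomial (Fin N) K) : Prop :=
  ∃ p : MvPolynomial (Fin m) K, p ≠ 0 ∧ p.totalDegree ≤ E ∧ aeval z p = 0

/-- the matrix `A ^ X`, for `(A - 1) ^ n = 0` -/
noncomputable def pw {K : Type} [Field K] {n : ℕ} (A : Matrix (Fin n) (Fin n) K) :
    Matrix (Fin n) (Fin n) (Polynomial K) :=
  ∑ k ∈ Finset.range n, (Polynomial.C ((k.factorial : K)⁻¹) * descPochhammer K k) •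
    ((A - 1) ^ k).map Polynomial.C

/-- the logarithm -/
noncomputable def lg {K : Type} [Field K] {n : ℕ} (A : Matrix (Fin n) (Fin n) K) :
    Matrix (Fin n) (Fin n) K :=
  (pw A).map fun q => q.coeff 1

/-- the matrix `A ^ X_k` -/
noncomputable def pv {K : Type} [Field K] {n N : ℕ} (A : Matrix (Fin n) (Fin n) K) (k : Fin N) :
    Matrix (Fin n) (Fin n) (MvPolynomial (Fin N) K) :=
  (pw A).map (Polynomial.aeval (X k : MvPolynomial (Fin N) K))

/-- the product of the matrices `u k ^ X_k` -/
noncomputable def Ph {K : Type} [Field K] {n N : ℕ} (u : Fin N → Matrix (Fin n) (Fin n) K) :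
    Matrix (Fin n) (Fin n) (MvPolynomial (Fin N) K) :=
  (List.ofFn fun k => pv (u k) k).prod

/-- the matrices whose coefficients lie in `L` -/
noncomputable def IL {K : Type} [Field K] {n : ℕ} (N : ℕ)
    (L : Submodule K (Matrix (Fin n) (Fin n) K)) :
    Submodule (MvPolynomial (Fin N) K) (Matrix (Fin n) (Fin n) (MvPolynomial (Fin N) K)) :=
  Submodule.span (MvPolynomial (Fin N) K)
    ((fun M : Matrix (Fin n) (Fin n) K => M.map (C : K →+* MvPolynomial (Fin N) K)) '' (L : Set _))

/-- conjugation by `g` -/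
noncomputable def cj (K : Type) {R : Type} [Field K] [CommRing R] [Algebra K R] {n : ℕ}
    (g : GL (Fin n) R) : Module.End K (Matrix (Fin n) (Fin n) R) :=
  LinearMap.mulLeft K (g : Matrix (Fin n) (Fin n) R) ∘ₗ
    LinearMap.mulRight K ((g⁻¹ : GL (Fin n) R) : Matrix (Fin n) (Fin n) R)

/-- the matrix of `X ↦ d T² X - s T X T + d X T²` -/
def Wm {R : Type*} [CommRing R] {n : ℕ} (d s : R) (T : Matrix (Fin n) (Fin n) R) :
    Matrix (Fin n × Fin n) (Fin n × Fin n) R :=
  Matrix.of fun p q => d * ((T * T) p.1 q.1) * (if p.2 = q.2 then 1 else 0) -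
    s * (T p.1 q.1) * (T q.2 p.2) + d * (if p.1 = q.1 then 1 else 0) * ((T * T) q.2 p.2)

/-- the companion matrix of the monic polynomial `g` of degree `n` -/
def cpn {R : Type*} [CommRing R] (n : ℕ) (g : Polynomial R) : Matrix (Fin n) (Fin n) R :=
  Matrix.of fun i j => if (j : ℕ) + 1 = n then -g.coeff i else if (i : ℕ) = j + 1 then 1 else 0

/-- `∏ (a₁ b - a₂ b') (a₂ b - a₁ b')` over the roots `a₁, a₂` of `f` and all pairs `b, b'` of roots
of `g` -/
def om {R : Type*} [CommRing R] (n : ℕ) (f g : Polynomial R) : R :=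
  (Wm (f.coeff 0) (f.coeff 1 ^ 2 - 2 * f.coeff 0) (cpn n g)).det

end Pool.Agent.NLL
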