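import Pool.Agent.NLL.Defs

/-!
# Project NLL, module Easy: a nonzero Jacobian determinant excludes annihilating polynomials of degree less than the characteristic

An annihilating polynomial of minimal total degree has a nonzero partial derivative, because its degree is
less than the characteristic; the chain rule gives a nonzero row vector killed by the Jacobian matrix.
-/

set_option autoImplicit false

namespace Pool.Agent.NLL

open MvPolynomial

private theorem chain {K : Type} [Field K] {N : ℕ} (z : Fin N → MvPolynomial (Fin N) K) (j : Fin N)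
    (p : MvPolynomial (Fin N) K) :
    pderiv j (aeval z p) = ∑ i, aeval z (pderiv i p) * pderiv j (z i) := by
  induction p using MvPolynomial.induction_on with
  | C a => simp
  | add p q hp hq =>
    rw [map_add, map_add, hp, hq, ← Finset.sum_add_distrib]
    refine Finset.sum_congr rfl (fun i _ => ?_)
    rw [map_add, map_add, add_mul]
  | mul_X p n hp =>
    rw [map_mul, aeval_X, pderiv_mul, hp]
    have h : ∀ i : Fin N, aeval z (pderiv i (p * X n)) * pderiv j (z i) =
        aeval z (pderiv i p) * pderiv j (z i) * z n + (if n = i then aeval z p * pderiv j (z i) else 0) := by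
      intro i
      rw [pderiv_mul, pderiv_X, map_add, map_mul, map_mul, aeval_X]
      by_cases hni : n = i
      · subst hni
        rw [if_pos rfl, Pi.single_eq_same, map_one]
        ring
      · rw [if_neg hni, Pi.single_eq_of_ne hni, map_zero]
        ring
    rw [Finset.sum_congr rfl (fun i _ => h i), Finset.sum_add_distrib, Finset.sum_ite_eq,
      if_pos (Finset.mem_univ _), Finset.sum_mul]

private theorem deg_lt {K : Type} [Field K] {N : ℕ} (i : Fin N) (p : MvPolynomial (Fin N) K)
    (h : pderiv i p ≠ 0) : (pderiv i p).totalDegree < p.totalDegree := by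
  have key : ∀ m ∈ (pderiv i p).support, (m.sum fun _ e => e) < p.totalDegree := by
    intro m hm
    rw [mem_support_iff, coeff_pderiv] at hm
    have h1 : m + Finsupp.single i 1 ∈ p.support := by
      rw [mem_support_iff]
      exact left_ne_zero_of_mul hm
    have h2 := le_totalDegree h1
    have h3 : ((m + Finsupp.single i 1).sum fun _ e => e) = (m.sum fun _ e => e) + 1 := by
      rw [Finsupp.sum_add_index' (fun _ => rfl) (fun _ _ _ => rfl), Finsupp.sum_single_index rfl]
    omega
  obtain ⟨m, hm⟩ := support_nonempty.2 h
  have h0 : 0 < p.totalDegree := lt_of_le_of_lt (Nat.zero_le _) (key m hm)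
  exact (Finset.sup_lt_iff (f := fun m : Fin N →₀ ℕ => m.sum fun _ e => e)
    (show (⊥ : ℕ) < p.totalDegree from h0)).2 key

private theorem exists_pderiv {K : Type} [Field K] {l : ℕ} [CharP K l] {N : ℕ}
    (p : MvPolynomial (Fin N) K) (h0 : p.totalDegree ≠ 0) (hl : p.totalDegree < l) :
    ∃ i, pderiv i p ≠ 0 := by
  by_contra hcon
  push Not at hcon
  apply h0
  rw [← Nat.le_zero]
  refine Finset.sup_le ?_
  intro m hm
  by_contra hms
  have hms' : ∃ i, m i ≠ 0 := by
    by_contra hz
    push Not at hz
    apply hms
    have : m = 0 := Finsupp.ext hz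
    rw [this]
    simp
  obtain ⟨i, hi⟩ := hms'
  have hle : m i ≤ p.totalDegree := by
    refine le_trans ?_ (le_totalDegree hm)
    exact Finset.single_le_sum (f := fun j => m j) (fun _ _ => Nat.zero_le _)
      (Finsupp.mem_support_iff.2 hi)
  have hsub : m - Finsupp.single i 1 + Finsupp.single i 1 = m := by
    apply tsub_add_cancel_of_le
    rw [Finsupp.single_le_iff]
    omega
  have hc := coeff_pderiv (i := i) p (m - Finsupp.single i 1)
  rw [hcon i, coeff_zero, hsub] at hc
  have hcast : (((m - Finsupp.single i 1 : Fin N →₀ ℕ) i : ℕ) : K) + 1 = (m i : K) := by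
    have : (m - Finsupp.single i 1 : Fin N →₀ ℕ) i + 1 = m i := by
      have h5 := congrArg (fun f : Fin N →₀ ℕ => f i) hsub
      simp only [Finsupp.coe_add, Pi.add_apply, Finsupp.single_eq_same] at h5
      exact h5
    rw [← this]
    push_cast
    ring
  rw [hcast] at hc
  rcases mul_eq_zero.1 hc.symm with h | h
  · exact (mem_support_iff.1 hm) h
  · rw [CharP.cast_eq_zero_iff K l] at h
    have := Nat.le_of_dvd (Nat.pos_of_ne_zero hi) h
    omega

theorem not_ann {K : Type} [Field K] {l : ℕ} [CharP K l] [Fact l.Prime] {N E : ℕ} (hE : E < l)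
    (z : Fin N → MvPolynomial (Fin N) K) (h : (jac z).det ≠ 0) : ¬ Ann E z := by
  rintro ⟨p, hp0, hpE, hp⟩
  have main : ∀ d : ℕ, ∀ q : MvPolynomial (Fin N) K, q ≠ 0 → q.totalDegree = d → d ≤ E →
      aeval z q ≠ 0 := by
    intro d
    induction d using Nat.strong_induction_on with
    | _ d ih =>
      intro q hq hd hdE hz
      by_cases h0 : q.totalDegree = 0
      · rw [totalDegree_eq_zero_iff_eq_C] at h0
        rw [h0, aeval_C] at hz
        apply hq
        rw [h0]
        have : (C (coeff 0 q) : MvPolynomial (Fin N) K) = 0 := hz
        exact this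
      · obtain ⟨i, hi⟩ := exists_pderiv (l := l) q h0 (by omega)
        have hlt := deg_lt i q hi
        have hne := ih _ (by omega) (pderiv i q) hi rfl (by omega)
        apply hne
        have hv : (fun i => aeval z (pderiv i q)) = (0 : Fin N → MvPolynomial (Fin N) K) := by
          apply Matrix.eq_zero_of_vecMul_eq_zero h
          funext j
          have := chain z j q
          rw [hz, map_zero] at this
          show (∑ i, aeval z (pderiv i q) * (jac z) i j) = 0
          rw [this]
          rfl
        exact congrFun hv i
  exact main _ p hp0 rfl hpE hp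

end Pool.Agent.NLL
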