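import Pool.Agent.NLL.Defs

/-!
# Project NLL, module Hard: no annihilating polynomial of small degree implies a nonzero Jacobian determinant
-/

set_option autoImplicit false

namespace Pool.Agent.NLL

open MvPolynomial

/-- chain rule -/
private theorem hard_chain {K : Type} [Field K] {N m : ℕ} (w : Fin m → MvPolynomial (Fin N) K)
    (p : MvPolynomial (Fin m) K) (j : Fin N) :
    pderiv j (aeval w p) = ∑ a, aeval w (pderiv a p) * pderiv j (w a) := by
  classical
  induction p using MvPolynomial.induction_on with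
  | C c =>
    simp only [pderiv_C, map_zero, zero_mul, Finset.sum_const_zero]
    rw [MvPolynomial.aeval_C]
    exact pderiv_C
  | add p q hp hq =>
    simp only [map_add, add_mul, Finset.sum_add_distrib, hp, hq]
  | mul_X p b hp =>
    rw [map_mul, aeval_X, pderiv_mul, hp, Finset.sum_mul]
    have h1 : ∀ a, aeval w (pderiv a (p * X b)) * pderiv j (w a) =
        aeval w (pderiv a p) * pderiv j (w a) * w b +
          (if a = b then aeval w p * pderiv j (w b) else 0) := by
      intro a
      rw [pderiv_mul, map_add, map_mul, map_mul, aeval_X]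
      by_cases hab : a = b
      · subst hab
        rw [if_pos rfl, pderiv_X_self, map_one]
        ring
      · rw [if_neg hab, pderiv_X_of_ne (Ne.symm hab), map_zero]
        ring
    simp_rw [h1]
    rw [Finset.sum_add_distrib, Finset.sum_ite_eq' Finset.univ b, if_pos (Finset.mem_univ b)]

private theorem hard_deg {K : Type} [Field K] {m : ℕ} (p : MvPolynomial (Fin m) K) (i : Fin m)
    (h : pderiv i p ≠ 0) : (pderiv i p).totalDegree < p.totalDegree := by
  classical
  obtain ⟨d, hd, hdm⟩ : ∃ d ∈ (pderiv i p).support,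
      (d.sum fun _ e => e) = (pderiv i p).totalDegree := by
    have h1 : (pderiv i p).support.Nonempty := by
      rw [Finset.nonempty_iff_ne_empty, ne_eq, support_eq_empty]
      exact h
    obtain ⟨d, hd, he⟩ := Finset.exists_mem_eq_sup _ h1 (fun d : Fin m →₀ ℕ => d.sum fun _ e => e)
    exact ⟨d, hd, he.symm⟩
  have h2 : d + Finsupp.single i 1 ∈ p.support := by
    rw [mem_support_iff] at hd ⊢
    intro h3
    apply hd
    rw [coeff_pderiv, h3, zero_mul]
  have h3 := le_totalDegree h2
  rw [Finsupp.sum_add_index' (fun _ => rfl) (fun _ _ _ => rfl), Finsupp.sum_single_index rfl,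
    hdm] at h3
  omega

/-- a polynomial with vanishing derivative in the variable `0` and small degree does not involve it -/
private theorem hard_rename {K : Type} [Field K] {l : ℕ} [CharP K l] {N E : ℕ} (hEl : E < l)
    (p : MvPolynomial (Fin (N + 1)) K) (hE : p.totalDegree ≤ E) (h : pderiv 0 p = 0) :
    ∃ q : MvPolynomial (Fin N) K, q.totalDegree ≤ E ∧ rename Fin.succ q = p := by
  classical
  have h1 : ∀ d ∈ p.support, d 0 = 0 := by
    intro d hd
    by_contra h0
    have h2 : coeff (d - Finsupp.single 0 1) (pderiv 0 p) = 0 := by rw [h, coeff_zero]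
    have h3 : d - Finsupp.single 0 1 + Finsupp.single 0 1 = d := by
      ext a
      by_cases ha : a = 0
      · subst ha
        simp only [Finsupp.add_apply, Finsupp.tsub_apply, Finsupp.single_eq_same]
        omega
      · simp [Finsupp.single_eq_of_ne ha]
    rw [coeff_pderiv, h3, mul_eq_zero] at h2
    rcases h2 with h2 | h2
    · exact (mem_support_iff.1 hd) h2
    · have h4 : ((d - Finsupp.single 0 1 : Fin (N + 1) →₀ ℕ) 0 : K) + 1 = ((d 0 : ℕ) : K) := by
        have h5 : (d - Finsupp.single 0 1 : Fin (N + 1) →₀ ℕ) 0 = d 0 - 1 := by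
          simp
        rw [h5, ← Nat.cast_add_one]
        congr 1
        omega
      rw [h4, CharP.cast_eq_zero_iff K l] at h2
      have h6 := Nat.le_of_dvd (Nat.pos_of_ne_zero h0) h2
      have h7 : d 0 ≤ p.totalDegree := (monomial_le_degreeOf 0 hd).trans
        (degreeOf_le_totalDegree p 0)
      omega
  obtain ⟨q, hq⟩ := exists_rename_eq_of_vars_subset_range p (Fin.succ : Fin N → Fin (N + 1))
    (Fin.succ_injective N) (by
      intro a ha
      rw [Finset.mem_coe, mem_vars_iff_mem_support] at ha
      obtain ⟨d, hd, had⟩ := ha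
      have h2 : a ≠ 0 := by
        rintro rfl
        rw [Finsupp.mem_support_iff] at had
        exact had (h1 d hd)
      exact ⟨a.pred h2, Fin.succ_pred a h2⟩)
  refine ⟨q, ?_, hq⟩
  unfold totalDegree
  refine Finset.sup_le fun d hd => ?_
  have h2 : d.mapDomain Fin.succ ∈ p.support := by
    rw [mem_support_iff, ← hq, coeff_rename_mapDomain _ (Fin.succ_injective N)]
    exact mem_support_iff.1 hd
  have h3 := le_totalDegree h2
  rw [Finsupp.sum_mapDomain_index (fun _ => rfl) (fun _ _ _ => rfl)] at h3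
  omega

/-- for every `i` a suitable relation -/
private theorem hard_rel {K : Type} [Field K] {l : ℕ} [CharP K l] {N D E : ℕ} (hD : 1 ≤ D)
    (hE : ∀ z : Fin (N + 1) → MvPolynomial (Fin N) K, (∀ i, (z i).totalDegree ≤ D) → Ann E z)
    (hEl : E < l) (z : Fin N → MvPolynomial (Fin N) K) (hz : ∀ i, (z i).totalDegree ≤ D)
    (h : ¬ Ann E z) (i : Fin N) : ∃ p : MvPolynomial (Fin (N + 1)) K,
      aeval (Fin.cons (X i) z : Fin (N + 1) → MvPolynomial (Fin N) K) p = 0 ∧
      aeval (Fin.cons (X i) z : Fin (N + 1) → MvPolynomial (Fin N) K) (pderiv 0 p) ≠ 0 := by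
  classical
  set w : Fin (N + 1) → MvPolynomial (Fin N) K := Fin.cons (X i) z with hw
  have h1 : ∃ e : ℕ, ∃ p : MvPolynomial (Fin (N + 1)) K, p ≠ 0 ∧ p.totalDegree = e ∧
      e ≤ E ∧ aeval w p = 0 := by
    obtain ⟨p, hp0, hpE, hp⟩ := hE w (by
      intro a
      refine Fin.cases ?_ (fun b => ?_) a
      · rw [hw, Fin.cons_zero, totalDegree_X]
        exact hD
      · rw [hw, Fin.cons_succ]
        exact hz b)
    exact ⟨_, p, hp0, rfl, hpE, hp⟩
  obtain ⟨p, hp0, hpd, hpE, hp⟩ := Nat.find_spec h1
  refine ⟨p, hp, ?_⟩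
  intro hcon
  by_cases hder : pderiv 0 p = 0
  · obtain ⟨q, hqE, hq⟩ := hard_rename hEl p (by omega) hder
    apply h
    refine ⟨q, ?_, hqE, ?_⟩
    · rintro rfl
      rw [map_zero] at hq
      exact hp0 hq.symm
    · rw [← hq, aeval_rename] at hp
      have h2 : w ∘ Fin.succ = z := by
        funext b
        show w b.succ = z b
        rw [hw, Fin.cons_succ]
      rw [h2] at hp
      exact hp
  · have h2 := hard_deg p 0 hder
    refine Nat.find_min h1 (m := (pderiv 0 p).totalDegree) (by omega) ⟨pderiv 0 p, hder, rfl, ?_, hcon⟩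
    omega

theorem jac_ne_zero {K : Type} [Field K] {l : ℕ} [CharP K l] [Fact l.Prime] {N D E : ℕ}
    (hD : 1 ≤ D)
    (hE : ∀ z : Fin (N + 1) → MvPolynomial (Fin N) K, (∀ i, (z i).totalDegree ≤ D) → Ann E z)
    (hEl : E < l) (z : Fin N → MvPolynomial (Fin N) K) (hz : ∀ i, (z i).totalDegree ≤ D)
    (h : ¬ Ann E z) : (jac z).det ≠ 0 := by
  classical
  choose p hp hc using fun i => hard_rel (l := l) hD hE hEl z hz h i
  set M : Matrix (Fin N) (Fin N) (MvPolynomial (Fin N) K) := Matrix.of fun i a =>
    aeval (Fin.cons (X i) z : Fin (N + 1) → MvPolynomial (Fin N) K) (pderiv a.succ (p i)) with hM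
  set c : Fin N → MvPolynomial (Fin N) K := fun i =>
    aeval (Fin.cons (X i) z : Fin (N + 1) → MvPolynomial (Fin N) K) (pderiv 0 (p i)) with hcdef
  have h1 : M * jac z = Matrix.diagonal fun i => - c i := by
    ext1 i j
    rw [Matrix.mul_apply]
    have h2 := hard_chain (Fin.cons (X i) z : Fin (N + 1) → MvPolynomial (Fin N) K) (p i) j
    rw [hp i, map_zero, Fin.sum_univ_succ, Fin.cons_zero] at h2
    simp only [Fin.cons_succ] at h2
    have h3 : ∑ a, M i a * jac z a j = ∑ a : Fin N,
        aeval (Fin.cons (X i) z : Fin (N + 1) → MvPolynomial (Fin N) K)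
          (pderiv a.succ (p i)) * pderiv j (z a) := rfl
    rw [h3]
    by_cases hij : i = j
    · subst hij
      rw [Matrix.diagonal_apply_eq]
      rw [pderiv_X_self, mul_one] at h2
      exact (neg_eq_of_add_eq_zero_right h2.symm).symm
    · rw [Matrix.diagonal_apply_ne _ hij]
      rw [pderiv_X_of_ne hij, mul_zero, zero_add] at h2
      exact h2.symm
  intro h0
  have h2 : (M * jac z).det = 0 := by rw [Matrix.det_mul, h0, mul_zero]
  rw [h1, Matrix.det_diagonal, Finset.prod_eq_zero_iff] at h2
  obtain ⟨i, _, hi⟩ := h2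
  exact hc i (neg_eq_zero.1 hi)

end Pool.Agent.NLL
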