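import Pool.Agent.NLL.Defs

/-!
# Coefficients of polynomial curves in a subspace of matrices

A matrix of polynomials of degree less than `l` over `ZMod l` all of whose values lie in a linear subspace
has all its coefficient matrices in that subspace: a linear functional vanishing on the subspace gives a
polynomial of degree less than `l` with `l` roots.
-/

set_option autoImplicit false

namespace Pool.Agent.NLL

theorem coeff_mem {l : ℕ} [Fact l.Prime] {n : ℕ}
    (L : Submodule (ZMod l) (Matrix (Fin n) (Fin n) (ZMod l)))
    (F : Matrix (Fin n) (Fin n) (Polynomial (ZMod l)))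
    (hF : ∀ i j, (F i j).degree < (l : WithBot ℕ))
    (h : ∀ t : ZMod l, F.map (Polynomial.eval t) ∈ L) (j : ℕ) :
    (F.map fun q => q.coeff j) ∈ L := by
  classical
  by_contra hM
  obtain ⟨f, hfM, hfL⟩ := Submodule.exists_le_ker_of_notMem hM
  have hfL' : ∀ x ∈ L, f x = 0 := fun x hx => hfL hx
  have hf : ∀ A : Matrix (Fin n) (Fin n) (ZMod l),
      f A = ∑ i, ∑ k, f (Matrix.single i k 1) * A i k := by
    intro A
    conv_lhs => rw [Matrix.matrix_eq_sum_single A]
    rw [map_sum]
    refine Finset.sum_congr rfl fun i _ => ?_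
    rw [map_sum]
    refine Finset.sum_congr rfl fun k _ => ?_
    have : Matrix.single i k (A i k) = A i k • Matrix.single i k (1 : ZMod l) := by
      rw [Matrix.smul_single, smul_eq_mul, mul_one]
    rw [this, map_smul, smul_eq_mul, mul_comm]
  set q : Polynomial (ZMod l) := ∑ i, ∑ k, Polynomial.C (f (Matrix.single i k 1)) * F i k with hq
  have hdeg : q.degree < (l : WithBot ℕ) := by
    have hl : (0 : WithBot ℕ) < (l : WithBot ℕ) := by
      exact_mod_cast (Fact.out : l.Prime).pos
    rw [hq]
    refine lt_of_le_of_lt (Polynomial.degree_sum_le _ _) ?_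
    rw [Finset.sup_lt_iff (lt_of_le_of_lt bot_le hl)]
    intro i _
    refine lt_of_le_of_lt (Polynomial.degree_sum_le _ _) ?_
    rw [Finset.sup_lt_iff (lt_of_le_of_lt bot_le hl)]
    intro k _
    refine lt_of_le_of_lt (Polynomial.degree_mul_le _ _) ?_
    refine lt_of_le_of_lt (add_le_add Polynomial.degree_C_le le_rfl) ?_
    rw [zero_add]
    exact hF i k
  have heval : ∀ t : ZMod l, q.eval t = 0 := by
    intro t
    have h1 : q.eval t = f (F.map (Polynomial.eval t)) := by
      rw [hf, hq, Polynomial.eval_finsetSum]
      refine Finset.sum_congr rfl fun i _ => ?_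
      rw [Polynomial.eval_finsetSum]
      refine Finset.sum_congr rfl fun k _ => ?_
      rw [Polynomial.eval_mul, Polynomial.eval_C, Matrix.map_apply]
    rw [h1]
    exact hfL' _ (h t)
  have hq0 : q = 0 := by
    refine Polynomial.eq_zero_of_degree_lt_of_eval_finset_eq_zero (s := Finset.univ) ?_
      fun t _ => heval t
    rw [Finset.card_univ, ZMod.card]
    exact hdeg
  apply hfM
  have h2 : f (F.map fun q => q.coeff j) = q.coeff j := by
    rw [hf, hq, Polynomial.finsetSum_coeff]
    refine Finset.sum_congr rfl fun i _ => ?_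
    rw [Polynomial.finsetSum_coeff]
    refine Finset.sum_congr rfl fun k _ => ?_
    rw [Polynomial.coeff_C_mul, Matrix.map_apply]
  rw [h2, hq0, Polynomial.coeff_zero]

end Pool.Agent.NLL
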