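import Pool.Agent.NLL.ProdA

/-!
# Project NLL, module JacLow: the Jacobian rank of the pair

At `0` the `k`-th column of all the partial derivatives is the vector of the entries of `lg (u k)` and `lg (v k)`; these vectors are linearly independent, so some `N` rows have a nonzero determinant.
-/

set_option autoImplicit false

namespace Pool.Agent.NLL

open MvPolynomial

/-- `N` linearly independent vectors have a nonzero `N × N` minor -/
private theorem exists_minor {K : Type} [Field K] {ι : Type} [Fintype ι] {N : ℕ}
    (Z : Fin N → ι → K) (hZ : LinearIndependent K Z) :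
    ∃ σ : Fin N → ι, (Matrix.of fun i k : Fin N => Z k (σ i)).det ≠ 0 := by
  classical
  set A : Matrix (Fin N) ι K := Matrix.of Z with hA
  have hrk : A.rank = N := by
    have h := LinearIndependent.rank_matrix (M := A) hZ
    simpa using h
  have hrkT : A.transpose.rank = N := by rw [Matrix.rank_transpose, hrk]
  have hspan : Submodule.span K (Set.range fun c : ι => fun k : Fin N => Z k c) = ⊤ := by
    apply Submodule.eq_top_of_finrank_eq
    have h := Matrix.rank_eq_finrank_span_row A.transpose
    rw [hrkT] at h
    have hr : Set.range A.transpose.row = Set.range fun c : ι => fun k : Fin N => Z k c := rfl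
    rw [hr] at h
    rw [← h]
    simp
  obtain ⟨κ, a, -, ha2, ha3⟩ := exists_linearIndependent' K
    (fun c : ι => fun k : Fin N => Z k c)
  rw [hspan] at ha2
  let b : Module.Basis κ K (Fin N → K) := Module.Basis.mk ha3 (by rw [ha2])
  haveI : Fintype κ := FiniteDimensional.fintypeBasisIndex b
  have hcard : Fintype.card κ = N := by
    rw [← Module.finrank_eq_card_basis b]
    simp
  have e : Fin N ≃ κ := (Fintype.equivFinOfCardEq hcard).symm
  refine ⟨fun i => a (e i), ?_⟩
  have hli : LinearIndependent K (fun i : Fin N => fun k : Fin N => Z k (a (e i))) :=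
    ha3.comp e e.injective
  have hu : IsUnit (Matrix.of fun i k : Fin N => Z k (a (e i))) := by
    rw [← Matrix.linearIndependent_rows_iff_isUnit]
    exact hli
  exact ((Matrix.isUnit_iff_isUnit_det _).1 hu).ne_zero

/-- the entries of a pair of matrices -/
private def entries (K : Type) [Field K] (n m : ℕ) :
    (Matrix (Fin n) (Fin n) K × Matrix (Fin m) (Fin m) K) →ₗ[K]
      ((Fin n × Fin n) ⊕ (Fin m × Fin m) → K) where
  toFun p := Sum.elim (fun a : Fin n × Fin n => p.1 a.1 a.2) (fun b : Fin m × Fin m => p.2 b.1 b.2)
  map_add' p q := by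
    funext c
    rcases c with c | c <;> simp
  map_smul' r p := by
    funext c
    rcases c with c | c <;> simp

private theorem entries_injective (K : Type) [Field K] (n m : ℕ) :
    Function.Injective (entries K n m) := by
  intro p q h
  refine Prod.ext ?_ ?_
  · ext i j
    have := congrFun h (Sum.inl (i, j))
    simpa [entries] using this
  · ext i j
    have := congrFun h (Sum.inr (i, j))
    simpa [entries] using this

theorem jac_low {l : ℕ} [Fact l.Prime] {n m N : ℕ} (hn : n ≤ l) (hm : m ≤ l)
    (u : Fin N → Matrix (Fin n) (Fin n) (ZMod l)) (hu : ∀ k, (u k - 1) ^ n = 0)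
    (v : Fin N → Matrix (Fin m) (Fin m) (ZMod l)) (hv : ∀ k, (v k - 1) ^ m = 0)
    (hli : LinearIndependent (ZMod l) fun k => (lg (u k), lg (v k))) :
    ∃ σ : Fin N → (Fin n × Fin n) ⊕ (Fin m × Fin m),
      (jac fun i => Sum.elim (fun a : Fin n × Fin n => Ph u a.1 a.2)
        (fun b : Fin m × Fin m => Ph v b.1 b.2) (σ i)).det ≠ 0 := by
  have hZ : LinearIndependent (ZMod l)
      (fun k => entries (ZMod l) n m (lg (u k), lg (v k))) :=
    hli.map' (entries (ZMod l) n m)
      (LinearMap.ker_eq_bot.2 (entries_injective (ZMod l) n m))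
  obtain ⟨σ, hσ⟩ := exists_minor _ hZ
  refine ⟨σ, fun h0 => hσ ?_⟩
  have h1 := congrArg (eval (0 : Fin N → ZMod l)) h0
  rw [RingHom.map_det, map_zero] at h1
  rw [← h1]
  congr 1
  ext i k
  simp only [Matrix.of_apply, RingHom.mapMatrix_apply, Matrix.map_apply, jac, entries,
    LinearMap.coe_mk, AddHom.coe_mk]
  rcases σ i with c | c
  · simp only [Sum.elim_inl]
    rw [Ph_pderiv_zero hn u hu]
  · simp only [Sum.elim_inr]
    rw [Ph_pderiv_zero hm v hv]

end Pool.Agent.NLL
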