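import Pool.Agent.NLL.ProdB

/-!
# Project NLL, module JacUp: the Jacobian rank of `Ph u` is at most `dim L`

PLAN. Let `b : Fin d → L` be a basis (`Module.finBasis`, `d = finrank L < N`). `IL N L` is spanned over the polynomial ring by the `d` matrices `(b j).map C` (every `M ∈ L` is a combination of the `b j`), so for every `k`
the `Λ_k` of `Ph_pderiv` is `∑ j, lam k j • (b j).map C` (`Submodule.mem_span_range_iff_exists_fun` / `mem_span_set'`). Hence `pderiv k (Ph u a b') = ∑ j, lam k j * (Ph u * (b j).map C) a b'`, i.e. the Jacobian matrix is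
`P * Q` with `P : Matrix (Fin N) (Fin d)`, `P i j = (Ph u * (b j).map C) (σ i).1 (σ i).2`, `Q j k = lam k j`. A product of an `N × d` and a `d × N` matrix with `d < N` over a commutative ring has determinant `0`
(extend both by zero columns/rows to `N × N` matrices: `det = det P' * det Q'`, `P'` has a zero column; or over the fraction field by ranks: `Matrix.rank_mul_le_left`, `rank_le_width`, `Matrix.rank_of_isUnit`).
-/

set_option autoImplicit false

namespace Pool.Agent.NLL

open MvPolynomial

private theorem ju_det {R : Type} [CommRing R] [IsDomain R] {N d : ℕ} (hd : d < N)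
    (P : Matrix (Fin N) (Fin d) R) (Q : Matrix (Fin d) (Fin N) R) : (P * Q).det = 0 := by
  by_contra hdet
  have h1 : ((P * Q).map (algebraMap R (FractionRing R))).det ≠ 0 := by
    intro h
    have h2 : algebraMap R (FractionRing R) (P * Q).det = 0 := by
      rw [RingHom.map_det]
      exact h
    exact hdet ((FaithfulSMul.algebraMap_eq_zero_iff R (FractionRing R)).1 h2)
  have h2 : IsUnit ((P * Q).map (algebraMap R (FractionRing R))) := by
    rw [Matrix.isUnit_iff_isUnit_det]
    exact isUnit_iff_ne_zero.2 h1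
  have h3 := Matrix.rank_of_isUnit _ h2
  rw [Matrix.map_mul, Fintype.card_fin] at h3
  have h4 := Matrix.rank_mul_le_left (P.map (algebraMap R (FractionRing R)))
    (Q.map (algebraMap R (FractionRing R)))
  have h5 := Matrix.rank_le_card_width (P.map (algebraMap R (FractionRing R)))
  rw [Fintype.card_fin] at h5
  omega

private theorem ju_span {K : Type} [Field K] {n N d : ℕ}
    {L : Submodule K (Matrix (Fin n) (Fin n) K)} (b : Module.Basis (Fin d) K L)
    (Λ : Matrix (Fin n) (Fin n) (MvPolynomial (Fin N) K)) (hΛ : Λ ∈ IL N L) :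
    ∃ c : Fin d → MvPolynomial (Fin N) K,
      Λ = ∑ j, c j • ((b j : Matrix (Fin n) (Fin n) K).map (C : K →+* MvPolynomial (Fin N) K)) := by
  unfold IL at hΛ
  induction hΛ using Submodule.span_induction with
  | mem x hx =>
    obtain ⟨M, hM, rfl⟩ := hx
    refine ⟨fun j => C (b.repr ⟨M, hM⟩ j), ?_⟩
    have h1 := b.sum_repr ⟨M, hM⟩
    have h2 := congrArg (fun x : L => (x : Matrix (Fin n) (Fin n) K)) h1
    simp only [Submodule.coe_sum, Submodule.coe_smul] at h2
    ext1 a c
    have h3 := congrFun (congrFun h2 a) c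
    rw [Matrix.sum_apply] at h3
    rw [Matrix.sum_apply]
    show C (M a c) = _
    rw [← h3, map_sum]
    refine Finset.sum_congr rfl fun j _ => ?_
    rw [Matrix.smul_apply, Matrix.smul_apply, smul_eq_mul, smul_eq_mul, C_mul, Matrix.map_apply]
  | zero => exact ⟨0, by simp⟩
  | add x y _ _ hx hy =>
    obtain ⟨c, hc⟩ := hx
    obtain ⟨c', hc'⟩ := hy
    refine ⟨c + c', ?_⟩
    rw [hc, hc', ← Finset.sum_add_distrib]
    refine Finset.sum_congr rfl fun j _ => ?_
    rw [Pi.add_apply, add_smul]
  | smul a x _ hx =>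
    obtain ⟨c, hc⟩ := hx
    refine ⟨a • c, ?_⟩
    rw [hc, Finset.smul_sum]
    refine Finset.sum_congr rfl fun j _ => ?_
    rw [Pi.smul_apply, smul_eq_mul, mul_smul]

theorem jac_up {l : ℕ} [Fact l.Prime] {n N : ℕ} (hn : 2 * n ≤ l)
    (u : Fin N → Matrix (Fin n) (Fin n) (ZMod l)) (hu : ∀ k, (u k - 1) ^ n = 0)
    (L : Submodule (ZMod l) (Matrix (Fin n) (Fin n) (ZMod l))) (hL : ∀ k, lg (u k) ∈ L)
    (hst : ∀ k, ∀ M ∈ L, ∀ t : ZMod l, u k ^ t.val * M * u k ^ (-t).val ∈ L)
    (hd : Module.finrank (ZMod l) L < N) (σ : Fin N → Fin n × Fin n) :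
    (jac fun i => Ph u (σ i).1 (σ i).2).det = 0 := by
  have b := Module.finBasis (ZMod l) L
  choose Λ hΛ hder using fun k => Ph_pderiv hn u hu L hL hst k
  choose lam hlam using fun k => ju_span b (Λ k) (hΛ k)
  have hJ : (jac fun i => Ph u (σ i).1 (σ i).2) =
      (Matrix.of fun i j => (Ph u * ((b j : Matrix (Fin n) (Fin n) (ZMod l)).map
        (C : ZMod l →+* MvPolynomial (Fin N) (ZMod l)))) (σ i).1 (σ i).2) *
      (Matrix.of fun j k => lam k j) := by
    ext1 i k
    rw [Matrix.mul_apply]
    have h1 : (jac fun i => Ph u (σ i).1 (σ i).2) i k =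
        ((Ph u).map (pderiv k)) (σ i).1 (σ i).2 := rfl
    rw [h1, hder k, hlam k, Finset.mul_sum, Matrix.sum_apply]
    refine Finset.sum_congr rfl fun j _ => ?_
    rw [Matrix.mul_smul, Matrix.smul_apply, smul_eq_mul, mul_comm]
    rfl
  rw [hJ]
  exact ju_det hd _ _

end Pool.Agent.NLL
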