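import Pool.Agent.NLL.Defs

/-!
# Project NLL, module Sel: a maximal choice of coordinates

PLAN. Consider `w : Fin (N+1) → A ⊕ Fin (N+1)`, `zz w i = Sum.elim x X (w i)`. For `w = Sum.inr` the Jacobian is the identity, of determinant `1 ≠ 0`. Among the (finitely many) `w` with `(jac (zz w)).det ≠ 0` take one
with the maximal number of indices `i` with `w i` in the left summand (`Finset.exists_max_image` or `Finite.exists_max`). Not all `w i` are left: otherwise `w = Sum.inl ∘ σ`, contradicting `hx`. Let `w b` be right. WLOG `b = 0`: replace `w` by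
`w ∘ Equiv.swap 0 b` (rows of the Jacobian are permuted, `Matrix.det_permute`, the determinant stays nonzero and the number of left indices is unchanged); so take `z0 = zz w 0`, `z i = zz w i.succ` after the swap.
For `j : A` the function `w' = Function.update w 0 (Sum.inl j)` has more left indices, so `(jac (zz w')).det = 0`, and `zz w' = Fin.cons (x j) z`.
-/

set_option autoImplicit false

namespace Pool.Agent.NLL

open MvPolynomial

section aux

variable {K : Type} [Field K] {N : ℕ} {A : Type}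

/-- the polynomials chosen by `w` -/
private noncomputable def zz (x : A → MvPolynomial (Fin (N + 1)) K)
    (w : Fin (N + 1) → A ⊕ Fin (N + 1)) (i : Fin (N + 1)) : MvPolynomial (Fin (N + 1)) K :=
  Sum.elim x X (w i)

/-- the number of indices in the left summand -/
private def cnt (w : Fin (N + 1) → A ⊕ Fin (N + 1)) : ℕ :=
  ∑ i, if (w i).isLeft then 1 else 0

private theorem jac_inr (x : A → MvPolynomial (Fin (N + 1)) K) : (jac (zz x Sum.inr)).det ≠ 0 := by
  have h : jac (zz x Sum.inr) = 1 := by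
    refine Matrix.ext fun i j => ?_
    show pderiv j (X i : MvPolynomial (Fin (N + 1)) K) =
      (1 : Matrix (Fin (N + 1)) (Fin (N + 1)) (MvPolynomial (Fin (N + 1)) K)) i j
    rw [pderiv_X, Matrix.one_apply]
    by_cases h : i = j
    · subst h
      rw [if_pos rfl, Pi.single_eq_same]
    · rw [if_neg h, Pi.single_eq_of_ne h]
  rw [h, Matrix.det_one]
  exact one_ne_zero

private theorem jac_swap (x : A → MvPolynomial (Fin (N + 1)) K)
    (w : Fin (N + 1) → A ⊕ Fin (N + 1)) (σ : Equiv.Perm (Fin (N + 1)))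
    (h : (jac (zz x w)).det ≠ 0) : (jac (zz x (w ∘ σ))).det ≠ 0 := by
  have h1 : jac (zz x (w ∘ σ)) = (jac (zz x w)).submatrix σ id := rfl
  rw [h1, Matrix.det_permute]
  refine mul_ne_zero ?_ h
  rcases Int.units_eq_one_or (Equiv.Perm.sign σ) with h2 | h2 <;> rw [h2] <;> simp

private theorem cnt_swap (w : Fin (N + 1) → A ⊕ Fin (N + 1)) (σ : Equiv.Perm (Fin (N + 1))) :
    cnt (w ∘ σ) = cnt w :=
  Equiv.sum_comp σ fun i => if (w i).isLeft then 1 else 0

end aux

theorem select {K : Type} [Field K] {N : ℕ} {A : Type} [Fintype A]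
    (x : A → MvPolynomial (Fin (N + 1)) K)
    (hx : ∀ σ : Fin (N + 1) → A, (jac fun i => x (σ i)).det = 0) :
    ∃ (z0 : MvPolynomial (Fin (N + 1)) K) (z : Fin N → MvPolynomial (Fin (N + 1)) K),
      (∀ i, (∃ j, z i = x j) ∨ ∃ c, z i = X c) ∧
      (jac (Fin.cons z0 z : Fin (N + 1) → MvPolynomial (Fin (N + 1)) K)).det ≠ 0 ∧
      ∀ j, (jac (Fin.cons (x j) z : Fin (N + 1) → MvPolynomial (Fin (N + 1)) K)).det = 0 := by
  classical
  obtain ⟨w, hw, hmax⟩ := Finset.exists_max_image
    (Finset.univ.filter fun w : Fin (N + 1) → A ⊕ Fin (N + 1) => (jac (zz x w)).det ≠ 0) cnt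
    ⟨Sum.inr, Finset.mem_filter.2 ⟨Finset.mem_univ _, jac_inr x⟩⟩
  rw [Finset.mem_filter] at hw
  obtain ⟨-, hw⟩ := hw
  have hb : ∃ b c, w b = Sum.inr c := by
    by_contra hcon
    push Not at hcon
    have h1 : ∀ i, ∃ j, w i = Sum.inl j := by
      intro i
      rcases h : w i with j | c
      · exact ⟨j, rfl⟩
      · exact absurd h (hcon i c)
    choose σ hσ using h1
    have h2 : zz x w = fun i => x (σ i) := by
      funext i
      unfold zz
      rw [hσ]
      rfl
    rw [h2] at hw
    exact hw (hx σ)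
  obtain ⟨b, c, hbc⟩ := hb
  obtain ⟨w1, hw1⟩ : ∃ w1, w1 = w ∘ Equiv.swap 0 b := ⟨_, rfl⟩
  have hd1 : (jac (zz x w1)).det ≠ 0 := by
    rw [hw1]
    exact jac_swap x w _ hw
  have hc1 : cnt w1 = cnt w := by
    rw [hw1]
    exact cnt_swap w _
  have h10 : w1 0 = Sum.inr c := by
    rw [hw1, Function.comp_apply, Equiv.swap_apply_left]
    exact hbc
  refine ⟨zz x w1 0, fun i => zz x w1 i.succ, fun i => ?_, ?_, fun j => ?_⟩
  · rcases h : w1 i.succ with j | d
    · exact Or.inl ⟨j, by show Sum.elim x X (w1 i.succ) = x j; rw [h]; rfl⟩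
    · exact Or.inr ⟨d, by show Sum.elim x X (w1 i.succ) = X d; rw [h]; rfl⟩
  · have h2 : (Fin.cons (zz x w1 0) (fun i => zz x w1 i.succ) :
        Fin (N + 1) → MvPolynomial (Fin (N + 1)) K) = zz x w1 :=
      Fin.cons_self_tail (zz x w1)
    rw [h2]
    exact hd1
  · by_contra hne
    have h2 : (Fin.cons (x j) (fun i => zz x w1 i.succ) :
        Fin (N + 1) → MvPolynomial (Fin (N + 1)) K) =
        zz x (Fin.cons (Sum.inl j) fun i => w1 i.succ) := by
      funext i
      refine Fin.cases ?_ (fun k => ?_) i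
      · rfl
      · rfl
    rw [h2] at hne
    have h3 := hmax _ (Finset.mem_filter.2 ⟨Finset.mem_univ _, hne⟩)
    rw [← hc1] at h3
    unfold cnt at h3
    rw [Fin.sum_univ_succ, Fin.sum_univ_succ, h10] at h3
    simp only [Fin.cons_zero, Fin.cons_succ, Sum.isLeft_inl, Sum.isLeft_inr, if_true] at h3
    simp at h3

end Pool.Agent.NLL
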