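import Pool.Agent.NLL.Easy
import Pool.Agent.NLL.Coef
import Pool.Agent.NLL.SZ

/-!
# Project NLL, module Small: small fibres

PLAN. For `i : Fin (N+1)` let `p_i` annihilate `Fin.cons (X i) y` and `q_i : MvPolynomial (Fin (N+1)) _` be from `exists_coef`. `aeval y q_i ≠ 0` by `not_ann` (degree `≤ E < l`), its total degree is `≤ E * D`.
`B` = the points `s` with `eval s (aeval y q_i) ≠ 0` for all `i`; the complement has at most `(N+1) * (E*D) * l^N` elements (`card_zeros`, union bound; `Fintype.card (Fin (N+1) → ZMod l) = l^(N+1)`).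
For `s ∈ B` and `t` with `eval t (y i) = eval s (y i)` for all `i`: put `v = fun i => eval s (y i)`, `eval v q_i = eval s (aeval y q_i) ≠ 0`, and
`0 = eval t (aeval (Fin.cons (X i) y) p_i) = eval (Fin.cons (t i) v) p_i`. So `t i` lies in a finset `R_i` with at most `E` elements (`exists_coef`), `t ∈ Fintype.piFinset R`, of cardinality `∏ (R_i).card ≤ E^(N+1)`.
-/

set_option autoImplicit false

namespace Pool.Agent.NLL

open MvPolynomial

private theorem deg_aeval {K : Type} [Field K] {N m D E : ℕ} (y : Fin m → MvPolynomial (Fin N) K)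
    (hy : ∀ i, (y i).totalDegree ≤ D) (q : MvPolynomial (Fin m) K) (hq : q.totalDegree ≤ E) :
    (aeval y q).totalDegree ≤ E * D := by
  rw [aeval_def, eval₂_eq]
  refine totalDegree_finsetSum_le ?_
  intro d hd
  refine (totalDegree_mul _ _).trans ?_
  have h1 : (algebraMap K (MvPolynomial (Fin N) K) (q.coeff d)).totalDegree = 0 :=
    totalDegree_C _
  rw [h1, zero_add]
  refine (totalDegree_finsetProd _ _).trans ?_
  calc ∑ i ∈ d.support, (y i ^ d i).totalDegree ≤ ∑ i ∈ d.support, d i * D := by
        refine Finset.sum_le_sum ?_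
        intro i _
        exact (totalDegree_pow _ _).trans (Nat.mul_le_mul_left _ (hy i))
    _ = (∑ i ∈ d.support, d i) * D := by rw [Finset.sum_mul]
    _ ≤ E * D := by
        refine Nat.mul_le_mul_right _ ?_
        exact (le_totalDegree hd).trans hq

private theorem eval_aeval {K : Type} [Field K] {N m : ℕ} (y : Fin m → MvPolynomial (Fin N) K)
    (s : Fin N → K) (q : MvPolynomial (Fin m) K) :
    eval s (aeval y q) = eval (fun i => eval s (y i)) q := by
  induction q using MvPolynomial.induction_on with
  | C a => simp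
  | add p q hp hq => rw [map_add, map_add, map_add, hp, hq]
  | mul_X p n hp => rw [map_mul, map_mul, map_mul, hp, aeval_X, eval_X]

theorem small_fibre {l : ℕ} [Fact l.Prime] {N E D : ℕ} (hEl : E < l)
    (y : Fin (N + 1) → MvPolynomial (Fin (N + 1)) (ZMod l)) (hy : ∀ i, (y i).totalDegree ≤ D)
    (hj : (jac y).det ≠ 0)
    (ha : ∀ i, Ann E (Fin.cons (X i) y : Fin (N + 2) → MvPolynomial (Fin (N + 1)) (ZMod l))) :
    ∃ B : Finset (Fin (N + 1) → ZMod l), l ^ (N + 1) ≤ B.card + (N + 1) * (E * D) * l ^ N ∧
      ∀ s ∈ B, (Finset.univ.filter fun t : Fin (N + 1) → ZMod l =>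
        ∀ i, eval t (y i) = eval s (y i)).card ≤ E ^ (N + 1) := by
  classical
  choose p hp0 hpE hp using ha
  choose q hq0 hqE hq using fun i => exists_coef (p i) (hp0 i) (hpE i)
  have hne : ∀ i, aeval y (q i) ≠ 0 := by
    intro i h
    exact not_ann hEl y hj ⟨q i, hq0 i, hqE i, h⟩
  have hdeg : ∀ i, (aeval y (q i)).totalDegree ≤ E * D := fun i => deg_aeval y hy (q i) (hqE i)
  refine ⟨Finset.univ.filter fun s => ∀ i, eval s (aeval y (q i)) ≠ 0, ?_, ?_⟩
  · have hcard : (Finset.univ : Finset (Fin (N + 1) → ZMod l)).card = l ^ (N + 1) := by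
      rw [Finset.card_univ, Fintype.card_fun, ZMod.card, Fintype.card_fin]
    rw [← hcard]
    have hsub : (Finset.univ : Finset (Fin (N + 1) → ZMod l)) ⊆
        (Finset.univ.filter fun s => ∀ i, eval s (aeval y (q i)) ≠ 0) ∪
        (Finset.univ : Finset (Fin (N + 1))).biUnion
          (fun i => Finset.univ.filter fun s : Fin (N + 1) → ZMod l =>
            eval s (aeval y (q i)) = 0) := by
      intro s _
      rw [Finset.mem_union, Finset.mem_biUnion, Finset.mem_filter]
      by_cases h : ∀ i, eval s (aeval y (q i)) ≠ 0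
      · exact Or.inl ⟨Finset.mem_univ _, h⟩
      · push Not at h
        obtain ⟨i, hi⟩ := h
        exact Or.inr ⟨i, Finset.mem_univ _, Finset.mem_filter.2 ⟨Finset.mem_univ _, hi⟩⟩
    refine (Finset.card_le_card hsub).trans ((Finset.card_union_le _ _).trans ?_)
    refine Nat.add_le_add_left ?_ _
    refine Finset.card_biUnion_le.trans ?_
    calc ∑ i : Fin (N + 1), (Finset.univ.filter fun s : Fin (N + 1) → ZMod l =>
          eval s (aeval y (q i)) = 0).card ≤ ∑ _i : Fin (N + 1), E * D * l ^ N :=
          Finset.sum_le_sum fun i _ => card_zeros _ (hne i) (hdeg i)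
      _ = (N + 1) * (E * D) * l ^ N := by
          rw [Finset.sum_const, Finset.card_univ, Fintype.card_fin, smul_eq_mul]
          ring
  · intro s hs
    rw [Finset.mem_filter] at hs
    have hs' := hs.2
    have hfib : ∀ t : Fin (N + 1) → ZMod l, (∀ i, eval t (y i) = eval s (y i)) → ∀ i,
        eval (Fin.cons (t i) (fun j => eval s (y j)) : Fin (N + 2) → ZMod l) (p i) = 0 := by
      intro t ht i
      have h1 := congrArg (eval t) (hp i)
      rw [map_zero, eval_aeval] at h1
      have h2 : (fun j => eval t ((Fin.cons (X i) y :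
          Fin (N + 2) → MvPolynomial (Fin (N + 1)) (ZMod l)) j)) =
          (Fin.cons (t i) (fun j => eval s (y j)) : Fin (N + 2) → ZMod l) := by
        funext j
        refine Fin.cases ?_ (fun k => ?_) j
        · rw [Fin.cons_zero, Fin.cons_zero, eval_X]
        · rw [Fin.cons_succ, Fin.cons_succ, ht k]
      rw [h2] at h1
      exact h1
    have hR : ∀ i, (Finset.univ.filter fun x : ZMod l =>
        eval (Fin.cons x (fun j => eval s (y j)) : Fin (N + 2) → ZMod l) (p i) = 0).card ≤ E := by
      intro i
      refine hq i (fun j => eval s (y j)) ?_ _ ?_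
      · rw [← eval_aeval]
        exact hs' i
      · intro x hx
        exact (Finset.mem_filter.1 hx).2
    have hsub : (Finset.univ.filter fun t : Fin (N + 1) → ZMod l =>
        ∀ i, eval t (y i) = eval s (y i)) ⊆ Fintype.piFinset (fun i =>
          Finset.univ.filter fun x : ZMod l =>
            eval (Fin.cons x (fun j => eval s (y j)) : Fin (N + 2) → ZMod l) (p i) = 0) := by
      intro t ht
      rw [Fintype.mem_piFinset]
      intro i
      exact Finset.mem_filter.2 ⟨Finset.mem_univ _, hfib t (Finset.mem_filter.1 ht).2 i⟩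
    refine (Finset.card_le_card hsub).trans ?_
    rw [Fintype.card_piFinset]
    calc ∏ i : Fin (N + 1), (Finset.univ.filter fun x : ZMod l =>
          eval (Fin.cons x (fun j => eval s (y j)) : Fin (N + 2) → ZMod l) (p i) = 0).card
        ≤ ∏ _i : Fin (N + 1), E := Finset.prod_le_prod' fun i _ => hR i
      _ = E ^ (N + 1) := by rw [Finset.prod_const, Finset.card_univ, Fintype.card_fin]

end Pool.Agent.NLL
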