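import Pool.Agent.NLL.Count
import Pool.Agent.NLL.Hard
import Pool.Agent.NLL.Big
import Pool.Agent.NLL.Small
import Pool.Agent.NLL.Sel

/-!
# Project NLL, module MainP: two polynomial maps with different Jacobian ranks have different fibres
-/

set_option autoImplicit false

namespace Pool.Agent.NLL

open MvPolynomial

theorem fibre (N D : ℕ) (A B : Type) [Fintype A] [Fintype B] : ∃ C : ℕ, ∀ (l : ℕ) [Fact l.Prime],
    C < l → ∀ (x : A → MvPolynomial (Fin (N + 1)) (ZMod l))
      (y : B → MvPolynomial (Fin (N + 1)) (ZMod l)),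
      (∀ i, (x i).totalDegree ≤ D) → (∀ i, (y i).totalDegree ≤ D) →
      (∀ σ : Fin (N + 1) → A, (jac fun i => x (σ i)).det = 0) →
      (∃ σ : Fin (N + 1) → A ⊕ B, (jac fun i => Sum.elim x y (σ i)).det ≠ 0) →
      ∃ s t : Fin (N + 1) → ZMod l, (∀ j, eval s (x j) = eval t (x j)) ∧
        ∃ j, eval s (y j) ≠ eval t (y j) := by
  obtain ⟨E, hE⟩ := exists_ann (N + 1) (max D 1)
  refine ⟨E + ((N + 1) * (E * max D 1) + Fintype.card A * (E * max D 1) +
    E ^ Fintype.card A * E ^ (N + 1)), fun l hl hC x y hx hy hσ ⟨σ, hσ2⟩ => ?_⟩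
  have hEl : E < l := by omega
  by_contra hcon
  push Not at hcon
  have hD1 : 1 ≤ max D 1 := le_max_right _ _
  have hX : ∀ c : Fin (N + 1), (X c : MvPolynomial (Fin (N + 1)) (ZMod l)).totalDegree ≤ max D 1 := by
    intro c
    rw [totalDegree_X]
    exact hD1
  have hxD : ∀ i, (x i).totalDegree ≤ max D 1 := fun i => (hx i).trans (le_max_left _ _)
  have hyD : ∀ i, (y i).totalDegree ≤ max D 1 := fun i => (hy i).trans (le_max_left _ _)
  have hsD : ∀ i, (Sum.elim x y i).totalDegree ≤ max D 1 := by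
    rintro (i | i)
    · exact hxD i
    · exact hyD i
  obtain ⟨B0, hB0, hBf⟩ := small_fibre (D := max D 1) hEl (fun i => Sum.elim x y (σ i))
    (fun i => hsD _) hσ2 (fun i => hE (ZMod l) _ (by
      intro a
      refine Fin.cases ?_ (fun b => ?_) a
      · rw [Fin.cons_zero]
        exact hX i
      · rw [Fin.cons_succ]
        exact hsD _))
  obtain ⟨z0, z, hz, hj, hjx⟩ := select x hσ
  have hzD : ∀ i, (z i).totalDegree ≤ max D 1 := by
    intro i
    rcases hz i with ⟨j, hj⟩ | ⟨c, hc⟩
    · rw [hj]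
      exact hxD j
    · rw [hc]
      exact hX c
  obtain ⟨S, hSB, hSx, hS⟩ := big_fibre (D := max D 1) hEl z0 z x hzD hj (fun j => by
    by_contra hna
    refine jac_ne_zero (D := max D 1) hD1 (fun w hw => hE (ZMod l) w hw) hEl _ ?_ hna (hjx j)
    intro a
    refine Fin.cases ?_ (fun b => ?_) a
    · rw [Fin.cons_zero]
      exact hxD j
    · rw [Fin.cons_succ]
      exact hzD b) B0
  have hScard : S.card ≤ E ^ (N + 1) := by
    rcases S.eq_empty_or_nonempty with h0 | ⟨s0, hs0⟩
    · rw [h0, Finset.card_empty]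
      exact Nat.zero_le _
    · refine (Finset.card_le_card ?_).trans (hBf s0 (hSB hs0))
      intro t ht
      rw [Finset.mem_filter]
      refine ⟨Finset.mem_univ _, fun i => ?_⟩
      have h1 := hSx t ht s0 hs0
      rcases hi : σ i with a | b
      · simpa using h1 a
      · have h2 := hcon t s0 h1 b
        simpa using h2
  have hl0 : 0 < l ^ N := pow_pos hl.out.pos N
  have h1 : l ^ (N + 1) ≤ ((N + 1) * (E * max D 1) + Fintype.card A * (E * max D 1) +
      E ^ Fintype.card A * E ^ (N + 1)) * l ^ N := by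
    calc l ^ (N + 1) ≤ B0.card + (N + 1) * (E * max D 1) * l ^ N := hB0
      _ ≤ (Fintype.card A * (E * max D 1) * l ^ N + l ^ N * E ^ Fintype.card A * S.card) +
          (N + 1) * (E * max D 1) * l ^ N := Nat.add_le_add_right hS _
      _ ≤ (Fintype.card A * (E * max D 1) * l ^ N +
          l ^ N * E ^ Fintype.card A * E ^ (N + 1)) +
          (N + 1) * (E * max D 1) * l ^ N :=
        Nat.add_le_add_right (Nat.add_le_add_left (Nat.mul_le_mul_left _ hScard) _) _
      _ = _ := by ring
  rw [pow_succ, mul_comm (l ^ N) l] at h1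
  have h2 := Nat.le_of_mul_le_mul_right h1 hl0
  omega

end Pool.Agent.NLL
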