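import Pool.Agent.NLL.Defs

/-!
# Project NLL, module Nil: elements of order `l`

PLAN. (1) In characteristic `l` (the matrix ring is an algebra over `ZMod l`) `(A - 1) ^ l = A ^ l - 1` (`sub_pow_char_of_commute` / `Commute.one_right`; write `A = (A - 1) + 1` and use `add_pow_char_of_commute` if more
convenient). (2) A nilpotent `n × n` matrix over a field satisfies `M ^ n = 0`: `M.charpoly = X ^ n`
(`Matrix.isNilpotent_charpoly...`, `LinearMap.charpoly_eq_X_pow_iff`, or the minimal polynomial divides `X ^ l` and has degree `≤ n`), Cayley-Hamilton `Matrix.aeval_self_charpoly`; grep the pool for an existing version.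
(3) Converse: `(A - 1) ^ n = 0`, `n ≤ l` give `(A - 1) ^ l = 0`, so `A ^ l = 1`.
-/

set_option autoImplicit false

namespace Pool.Agent.NLL

private theorem nil_ch {l : ℕ} [Fact l.Prime] {n : ℕ} (A : Matrix (Fin n) (Fin n) (ZMod l)) :
    (A - 1) ^ l = A ^ l - 1 := by
  rcases Nat.eq_zero_or_pos n with h | h
  · subst h
    exact Subsingleton.elim _ _
  · have : Nonempty (Fin n) := ⟨⟨0, h⟩⟩
    have h1 : CharP (Matrix (Fin n) (Fin n) (ZMod l)) l := Matrix.charP l
    rw [sub_pow_char_of_commute l (Commute.one_right A), one_pow]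

private theorem nil_pow {l : ℕ} [Fact l.Prime] {n : ℕ} (M : Matrix (Fin n) (Fin n) (ZMod l))
    (hM : IsNilpotent M) : M ^ n = 0 := by
  have h1 : IsNilpotent (M.charpoly - Polynomial.X ^ Fintype.card (Fin n)) :=
    Matrix.isNilpotent_charpoly_sub_pow_of_isNilpotent hM
  have h2 : M.charpoly = Polynomial.X ^ n := by
    have h3 := h1.eq_zero
    rw [Fintype.card_fin] at h3
    exact sub_eq_zero.1 h3
  have h4 := Matrix.aeval_self_charpoly M
  rw [h2, map_pow, Polynomial.aeval_X] at h4
  exact h4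

theorem sub_one_pow {l : ℕ} [Fact l.Prime] {n : ℕ} (A : Matrix (Fin n) (Fin n) (ZMod l))
    (hA : A ^ l = 1) : (A - 1) ^ n = 0 := by
  refine nil_pow _ ⟨l, ?_⟩
  rw [nil_ch, hA, sub_self]

theorem pow_char {l : ℕ} [Fact l.Prime] {n : ℕ} (hn : n ≤ l)
    (A : Matrix (Fin n) (Fin n) (ZMod l)) (hA : (A - 1) ^ n = 0) : A ^ l = 1 := by
  have h1 := nil_ch A
  rw [pow_eq_zero_of_le hn hA] at h1
  exact (sub_eq_zero.1 h1.symm)

end Pool.Agent.NLL
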