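import Pool.Agent.NLL.Defs

/-!
# Project NLL, module Pow: the matrix `A ^ X`

PLAN. `pw_eval`: `(pw A).map (eval t) = ∑ k ∈ range n, ((k!)⁻¹ * (descPochhammer _ k).eval t) • (A - 1) ^ k`; with `t = (t.val : ZMod l)` (`ZMod.natCast_zmod_val`) and
`descPochhammer_eval_eq_descFactorial`, `Nat.descFactorial_eq_factorial_mul_choose` and `(k! : ZMod l) ≠ 0` for `k < n ≤ l` (`Nat.Prime.dvd_factorial`) the coefficient is `(Nat.choose t.val k : ZMod l)`;
`A ^ m = (1 + (A - 1)) ^ m = ∑ k ∈ range (m+1), choose m k • (A - 1) ^ k` (`Commute.add_pow`), terms with `k ≥ n` vanish by `hA`, terms with `k > m` by the binomial coefficient.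
`pw_degree`: every entry is a combination of `descPochhammer K k`, of degree `≤ k < n` (`descPochhammer_natDegree` or `monic_descPochhammer`, or an induction).
-/

set_option autoImplicit false

namespace Pool.Agent.NLL

private theorem pw_apply {K : Type} [Field K] {n : ℕ} (A : Matrix (Fin n) (Fin n) K)
    (i j : Fin n) : pw A i j = ∑ k ∈ Finset.range n,
      (Polynomial.C ((k.factorial : K)⁻¹) * descPochhammer K k) *
        Polynomial.C (((A - 1) ^ k) i j) := by
  unfold pw
  rw [Matrix.sum_apply]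
  rfl

private theorem coef {l : ℕ} [hl : Fact l.Prime] {k : ℕ} (hk : k < l) (m : ℕ) :
    (k.factorial : ZMod l)⁻¹ * (descPochhammer (ZMod l) k).eval (m : ZMod l) =
      ((m.choose k : ℕ) : ZMod l) := by
  have h0 : (k.factorial : ZMod l) ≠ 0 := by
    rw [Ne, ZMod.natCast_eq_zero_iff, hl.out.dvd_factorial]
    omega
  rw [descPochhammer_eval_eq_descFactorial, Nat.descFactorial_eq_factorial_mul_choose,
    Nat.cast_mul, inv_mul_cancel_left₀ h0]

theorem pw_eval {l : ℕ} [Fact l.Prime] {n : ℕ} (hn : n ≤ l)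
    (A : Matrix (Fin n) (Fin n) (ZMod l)) (hA : (A - 1) ^ n = 0) (t : ZMod l) :
    (pw A).map (Polynomial.eval t) = A ^ t.val := by
  have ht : ((t.val : ℕ) : ZMod l) = t := ZMod.natCast_zmod_val t
  obtain ⟨m, hm⟩ : ∃ m, m = t.val := ⟨_, rfl⟩
  rw [← hm] at ht ⊢
  have hnil : ∀ k, n ≤ k → (A - 1) ^ k = 0 := by
    intro k hk
    obtain ⟨d, rfl⟩ := Nat.exists_eq_add_of_le hk
    rw [pow_add, hA, zero_mul]
  have h1 : (pw A).map (Polynomial.eval t) =
      ∑ k ∈ Finset.range n, ((m.choose k : ℕ) : ZMod l) • (A - 1) ^ k := by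
    refine Matrix.ext fun i j => ?_
    rw [Matrix.map_apply, pw_apply, Polynomial.eval_finsetSum, Matrix.sum_apply]
    refine Finset.sum_congr rfl fun k hk => ?_
    rw [Finset.mem_range] at hk
    rw [Polynomial.eval_mul, Polynomial.eval_mul, Polynomial.eval_C, Polynomial.eval_C, ← ht,
      coef (by omega) m, Matrix.smul_apply, smul_eq_mul]
  have h2 : A ^ m = ∑ k ∈ Finset.range (m + 1), ((m.choose k : ℕ) : ZMod l) • (A - 1) ^ k := by
    have h3 := (Commute.one_right (A - 1)).add_pow m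
    rw [sub_add_cancel] at h3
    rw [h3]
    refine Finset.sum_congr rfl fun k _ => ?_
    rw [one_pow, mul_one, ← Nat.cast_comm, ← nsmul_eq_mul, Nat.cast_smul_eq_nsmul]
  rw [h1, h2]
  have h4 : ∑ k ∈ Finset.range n, ((m.choose k : ℕ) : ZMod l) • (A - 1) ^ k =
      ∑ k ∈ Finset.range (n + (m + 1)), ((m.choose k : ℕ) : ZMod l) • (A - 1) ^ k := by
    refine Finset.sum_subset (Finset.range_subset_range.2 (by omega)) fun k _ hk => ?_
    rw [Finset.mem_range, not_lt] at hk
    rw [hnil k hk, smul_zero]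
  have h5 : ∑ k ∈ Finset.range (m + 1), ((m.choose k : ℕ) : ZMod l) • (A - 1) ^ k =
      ∑ k ∈ Finset.range (n + (m + 1)), ((m.choose k : ℕ) : ZMod l) • (A - 1) ^ k := by
    refine Finset.sum_subset (Finset.range_subset_range.2 (by omega)) fun k _ hk => ?_
    rw [Finset.mem_range, not_lt] at hk
    rw [Nat.choose_eq_zero_of_lt (by omega), Nat.cast_zero, zero_smul]
  rw [h4, h5]

theorem pw_degree {K : Type} [Field K] {n : ℕ} (A : Matrix (Fin n) (Fin n) K) (i j : Fin n) :
    (pw A i j).degree < (n : WithBot ℕ) := by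
  rw [← Polynomial.mem_degreeLT, pw_apply]
  refine Submodule.sum_mem _ fun k hk => ?_
  rw [Finset.mem_range] at hk
  have h1 : Polynomial.C ((k.factorial : K)⁻¹) * descPochhammer K k *
      Polynomial.C (((A - 1) ^ k) i j) =
      ((k.factorial : K)⁻¹ * ((A - 1) ^ k) i j) • descPochhammer K k := by
    rw [Polynomial.smul_eq_C_mul, Polynomial.C_mul]
    ring
  rw [h1]
  refine Submodule.smul_mem _ _ ?_
  rw [Polynomial.mem_degreeLT]
  refine lt_of_le_of_lt Polynomial.degree_le_natDegree ?_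
  rw [descPochhammer_natDegree]
  exact_mod_cast hk

end Pool.Agent.NLL
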