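import Pool.Agent.NLL.Pow
import Pool.Agent.NLL.Nil

/-!
# Project NLL, module PowB: uniqueness, inverse and derivative of `A ^ X`

PLAN. Basic fact (U): two polynomials over `ZMod l` of degree `< l` with equal values at all `t : ZMod l` are equal (`Polynomial.eq_of_degree_sub_lt_of_eval_finset_eq` with `Finset.univ`, or `card_roots`).
`pw_unique`: (U) entrywise, `pw_eval`, `pw_degree`. `pw_inv`: the entries of the product have degree `≤ 2 (n-1) < l`, values at `t`: `A ^ t.val * A ^ (-t).val = 1`, because `A ^ l = 1` (`pow_char`) and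
`t.val + (-t).val ≡ 0 mod l`. In general `A ^ (s + t).val = A ^ s.val * A ^ t.val` (use `ZMod.val_add`, `pow_mod`-type lemma from `A ^ l = 1`).
`pw_deriv`: fix `s : ZMod l`. The matrices `(pw A).map (·.comp (X + C s))` and `((pw A).map (eval s)).map C * pw A` have entries of degree `< n ≤ l` and equal values `A ^ (t + s).val` at all `t`, so they are equal by (U);
take derivatives at `0` (`lg A` is the coefficient of `X`, i.e. the derivative at `0`; `A ^ s.val` commutes with `pw A`, so the order of the factors does not matter): `(derivative of pw A)(s) = A ^ s.val * lg A`. Both sides of the claim have degree `< l` and agree at all `s`.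
`pw_comm`: `pw A` is a combination of the powers of `A - 1` with polynomial coefficients and `lg A` a combination with coefficients in `K`; they commute.
`lg_conj`: `(B * A * B⁻¹ - 1) ^ k = B * (A - 1) ^ k * B⁻¹`, the entries of `lg` are the coefficients of `X`.
-/

set_option autoImplicit false

namespace Pool.Agent.NLL

private theorem pb_ext {l : ℕ} [Fact l.Prime] {f g : Polynomial (ZMod l)}
    (hf : f.degree < (l : WithBot ℕ)) (hg : g.degree < (l : WithBot ℕ))
    (h : ∀ t : ZMod l, f.eval t = g.eval t) : f = g := by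
  refine Polynomial.eq_of_degrees_lt_of_eval_finset_eq (Finset.univ : Finset (ZMod l)) ?_ ?_
    fun x _ => h x
  · rw [Finset.card_univ, ZMod.card]
    exact hf
  · rw [Finset.card_univ, ZMod.card]
    exact hg

private theorem pb_nat {K : Type} [Field K] {n : ℕ} (A : Matrix (Fin n) (Fin n) K)
    (i j : Fin n) : (pw A i j).natDegree ≤ n - 1 := by
  rw [Polynomial.natDegree_le_iff_coeff_eq_zero]
  intro N hN
  refine Polynomial.coeff_eq_zero_of_degree_lt (lt_of_lt_of_le (pw_degree A i j) ?_)
  have h1 : n ≤ N := by omega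
  exact_mod_cast h1

private theorem pb_deg {K : Type} [Field K] {f : Polynomial K} {l : ℕ} (h : f.natDegree < l) :
    f.degree < (l : WithBot ℕ) :=
  lt_of_le_of_lt Polynomial.degree_le_natDegree (by exact_mod_cast h)

private theorem pb_val {l : ℕ} [Fact l.Prime] {n : ℕ} {A : Matrix (Fin n) (Fin n) (ZMod l)}
    (hA : A ^ l = 1) (s t : ZMod l) : A ^ (s + t).val = A ^ s.val * A ^ t.val := by
  have h1 : ∀ m : ℕ, A ^ m = A ^ (m % l) := by
    intro m
    conv_lhs => rw [← Nat.mod_add_div m l, pow_add, pow_mul, hA, one_pow, mul_one]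
  rw [← pow_add, ZMod.val_add, ← h1]

private theorem pb_map_mul {K : Type} [Field K] {n : ℕ}
    (F G : Matrix (Fin n) (Fin n) (Polynomial K)) (t : K) :
    (F * G).map (Polynomial.eval t) = F.map (Polynomial.eval t) * G.map (Polynomial.eval t) :=
  Matrix.map_mul (f := Polynomial.evalRingHom t)

private theorem pb_map_C {K : Type} [Field K] {n : ℕ} (M : Matrix (Fin n) (Fin n) K) (t : K) :
    (M.map Polynomial.C).map (Polynomial.eval t) = M := by
  ext i j
  rw [Matrix.map_apply, Matrix.map_apply, Polynomial.eval_C]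

/-- the coefficients of the binomial series -/
private noncomputable def ck (K : Type) [Field K] (k : ℕ) : Polynomial K :=
  Polynomial.C ((k.factorial : K)⁻¹) * descPochhammer K k

private theorem pb_pw {K : Type} [Field K] {n : ℕ} (A : Matrix (Fin n) (Fin n) K) :
    pw A = ∑ k ∈ Finset.range n, ck K k • ((A - 1) ^ k).map Polynomial.C := rfl

private theorem pb_lg {K : Type} [Field K] {n : ℕ} (A : Matrix (Fin n) (Fin n) K) :
    lg A = ∑ k ∈ Finset.range n, (ck K k).coeff 1 • (A - 1) ^ k := by
  ext i j
  unfold lg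
  rw [Matrix.map_apply, pb_pw, Matrix.sum_apply, Matrix.sum_apply, Polynomial.finsetSum_coeff]
  refine Finset.sum_congr rfl fun k _ => ?_
  rw [Matrix.smul_apply, Matrix.smul_apply, Matrix.map_apply, smul_eq_mul, smul_eq_mul,
    Polynomial.coeff_mul_C]

theorem pw_unique {l : ℕ} [Fact l.Prime] {n : ℕ} (hn : n ≤ l)
    (A : Matrix (Fin n) (Fin n) (ZMod l)) (hA : (A - 1) ^ n = 0)
    (F : Matrix (Fin n) (Fin n) (Polynomial (ZMod l)))
    (hF : ∀ i j, (F i j).degree < (l : WithBot ℕ))
    (h : ∀ t : ZMod l, F.map (Polynomial.eval t) = A ^ t.val) : F = pw A := by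
  ext1 i j
  refine pb_ext (hF i j) (lt_of_lt_of_le (pw_degree A i j) (by exact_mod_cast hn)) fun t => ?_
  have h1 := congrFun (congrFun (h t) i) j
  have h2 := congrFun (congrFun (pw_eval hn A hA t) i) j
  rw [Matrix.map_apply] at h1 h2
  rw [h1, h2]

theorem pw_inv {l : ℕ} [Fact l.Prime] {n : ℕ} (hn : 2 * n ≤ l)
    (A : Matrix (Fin n) (Fin n) (ZMod l)) (hA : (A - 1) ^ n = 0) :
    pw A * (pw A).map (fun q => q.comp (-Polynomial.X)) = 1 := by
  have hn' : n ≤ l := by omega
  have hl := pow_char hn' A hA
  ext1 i j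
  have hn0 : 0 < n := lt_of_le_of_lt (Nat.zero_le _) i.2
  refine pb_ext (pb_deg (lt_of_le_of_lt (b := (n - 1) + (n - 1)) ?_ (by omega))) ?_ fun t => ?_
  · rw [Matrix.mul_apply]
    refine Polynomial.natDegree_sum_le_of_forall_le _ _ fun k _ => ?_
    refine Polynomial.natDegree_mul_le.trans (Nat.add_le_add (pb_nat A i k) ?_)
    rw [Matrix.map_apply, Polynomial.natDegree_comp, Polynomial.natDegree_neg,
      Polynomial.natDegree_X, mul_one]
    exact pb_nat A k j
  · refine pb_deg (lt_of_le_of_lt (b := 0) ?_ (by omega))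
    rw [Matrix.one_apply]
    split_ifs
    · rw [Polynomial.natDegree_one]
    · rw [Polynomial.natDegree_zero]
  · have h1 : ((pw A).map (fun q => q.comp (-Polynomial.X))).map (Polynomial.eval t) =
        (pw A).map (Polynomial.eval (-t)) := by
      ext i j
      rw [Matrix.map_apply, Matrix.map_apply, Matrix.map_apply, Polynomial.eval_comp,
        Polynomial.eval_neg, Polynomial.eval_X]
    have h2 : (pw A * (pw A).map (fun q => q.comp (-Polynomial.X))).map (Polynomial.eval t) =
        1 := by
      rw [pb_map_mul, h1, pw_eval hn' A hA, pw_eval hn' A hA, ← pb_val hl, add_neg_cancel,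
        ZMod.val_zero, pow_zero]
    have h3 := congrFun (congrFun h2 i) j
    rw [Matrix.map_apply] at h3
    rw [h3, Matrix.one_apply, Matrix.one_apply]
    split_ifs
    · rw [Polynomial.eval_one]
    · rw [Polynomial.eval_zero]

theorem pw_deriv {l : ℕ} [Fact l.Prime] {n : ℕ} (hn : n ≤ l)
    (A : Matrix (Fin n) (Fin n) (ZMod l)) (hA : (A - 1) ^ n = 0) :
    (pw A).map Polynomial.derivative = pw A * (lg A).map Polynomial.C := by
  have hl := pow_char hn A hA
  -- the functional equation
  have hfe : ∀ s : ZMod l, (pw A).map (fun q => q.comp (Polynomial.X + Polynomial.C s)) =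
      (A ^ s.val).map Polynomial.C * pw A := by
    intro s
    ext1 i j
    have hn0 : 0 < n := lt_of_le_of_lt (Nat.zero_le _) i.2
    refine pb_ext (pb_deg (lt_of_le_of_lt (b := n - 1) ?_ (by omega)))
      (pb_deg (lt_of_le_of_lt (b := n - 1) ?_ (by omega))) fun t => ?_
    · rw [Matrix.map_apply, Polynomial.natDegree_comp, Polynomial.natDegree_X_add_C, mul_one]
      exact pb_nat A i j
    · rw [Matrix.mul_apply]
      refine Polynomial.natDegree_sum_le_of_forall_le _ _ fun k _ => ?_
      rw [Matrix.map_apply]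
      exact (Polynomial.natDegree_C_mul_le _ _).trans (pb_nat A k j)
    · have h1 : ((pw A).map (fun q => q.comp (Polynomial.X + Polynomial.C s))).map
          (Polynomial.eval t) = (pw A).map (Polynomial.eval (t + s)) := by
        ext i j
        rw [Matrix.map_apply, Matrix.map_apply, Matrix.map_apply, Polynomial.eval_comp,
          Polynomial.eval_add, Polynomial.eval_X, Polynomial.eval_C]
      have h2 : ((pw A).map (fun q => q.comp (Polynomial.X + Polynomial.C s))).map
          (Polynomial.eval t) =
          ((A ^ s.val).map Polynomial.C * pw A).map (Polynomial.eval t) := by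
        rw [h1, pb_map_mul, pb_map_C, pw_eval hn A hA, pw_eval hn A hA, add_comm t s, pb_val hl]
      exact congrFun (congrFun h2 i) j
  have hlg : ∀ s : ZMod l, (pw A).map (fun q => (Polynomial.derivative q).eval s) =
      A ^ s.val * lg A := by
    intro s
    ext i j
    have h1 : (((pw A).map (fun q => q.comp (Polynomial.X + Polynomial.C s))) i j).coeff 1 =
        (((A ^ s.val).map Polynomial.C * pw A) i j).coeff 1 := by rw [hfe s]
    rw [Matrix.map_apply, ← Polynomial.taylor_apply, Polynomial.taylor_coeff_one,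
      Matrix.mul_apply, Polynomial.finsetSum_coeff] at h1
    rw [Matrix.map_apply, h1, Matrix.mul_apply]
    refine Finset.sum_congr rfl fun k _ => ?_
    rw [Matrix.map_apply, Polynomial.coeff_C_mul]
    rfl
  ext1 i j
  have hn0 : 0 < n := lt_of_le_of_lt (Nat.zero_le _) i.2
  refine pb_ext (pb_deg (lt_of_le_of_lt (b := n - 1) ?_ (by omega)))
    (pb_deg (lt_of_le_of_lt (b := n - 1) ?_ (by omega))) fun t => ?_
  · rw [Matrix.map_apply]
    exact (Polynomial.natDegree_derivative_le _).trans
      ((Nat.sub_le _ _).trans (pb_nat A i j))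
  · rw [Matrix.mul_apply]
    refine Polynomial.natDegree_sum_le_of_forall_le _ _ fun k _ => ?_
    rw [Matrix.map_apply]
    exact (Polynomial.natDegree_mul_C_le _ _).trans (pb_nat A i k)
  · have h2 : ((pw A).map Polynomial.derivative).map (Polynomial.eval t) =
        (pw A * (lg A).map Polynomial.C).map (Polynomial.eval t) := by
      rw [pb_map_mul, pb_map_C, pw_eval hn A hA, ← hlg t]
      rfl
    exact congrFun (congrFun h2 i) j

theorem pw_comm {K : Type} [Field K] {n : ℕ} (A : Matrix (Fin n) (Fin n) K) :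
    pw A * (lg A).map Polynomial.C = (lg A).map Polynomial.C * pw A := by
  have h1 : (lg A).map Polynomial.C = ∑ k ∈ Finset.range n,
      Polynomial.C ((ck K k).coeff 1) • ((A - 1) ^ k).map Polynomial.C := by
    ext1 i j
    rw [Matrix.map_apply, pb_lg, Matrix.sum_apply, Matrix.sum_apply, map_sum]
    refine Finset.sum_congr rfl fun k _ => ?_
    rw [Matrix.smul_apply, Matrix.smul_apply, Matrix.map_apply, smul_eq_mul, smul_eq_mul, map_mul]
  have h2 : ∀ j k : ℕ, Commute (((A - 1) ^ j).map (Polynomial.C : K →+* Polynomial K))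
      (((A - 1) ^ k).map (Polynomial.C : K →+* Polynomial K)) := by
    intro j k
    have h3 : ∀ m : ℕ, ((A - 1) ^ m).map (Polynomial.C : K →+* Polynomial K) =
        ((Polynomial.C : K →+* Polynomial K).mapMatrix (A - 1)) ^ m := by
      intro m
      rw [← map_pow]
      rfl
    rw [h3, h3]
    exact Commute.pow_pow (Commute.refl _) j k
  rw [h1, pb_pw]
  refine (Commute.sum_left _ _ _ fun j _ => Commute.sum_right _ _ _ fun k _ => ?_).eq
  exact ((h2 j k).smul_left _).smul_right _

theorem lg_conj {K : Type} [Field K] {n : ℕ} (B : GL (Fin n) K) (A : Matrix (Fin n) (Fin n) K) :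
    lg ((B : Matrix (Fin n) (Fin n) K) * A * ((B⁻¹ : GL (Fin n) K) : Matrix (Fin n) (Fin n) K)) =
      (B : Matrix (Fin n) (Fin n) K) * lg A *
        ((B⁻¹ : GL (Fin n) K) : Matrix (Fin n) (Fin n) K) := by
  rw [pb_lg, pb_lg, Finset.mul_sum, Finset.sum_mul]
  refine Finset.sum_congr rfl fun k _ => ?_
  have h1 : (B : Matrix (Fin n) (Fin n) K) * A * ((B⁻¹ : GL (Fin n) K) :
      Matrix (Fin n) (Fin n) K) - 1 =
      (B : Matrix (Fin n) (Fin n) K) * (A - 1) * ((B⁻¹ : GL (Fin n) K) :
        Matrix (Fin n) (Fin n) K) := by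
    rw [mul_sub, sub_mul, mul_one, Units.mul_inv]
  rw [h1, Units.conj_pow, mul_smul_comm, smul_mul_assoc]

end Pool.Agent.NLL
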