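import Pool.Agent.NLL.Pow
import Pool.Agent.NLL.PowB

/-!
# Project NLL, module ProdA: values, degree and derivatives at `0` of the product `Ph u`

PLAN. `Ph_eval`: evaluation is a ring homomorphism, `List.prod_hom`/`map_list_prod` for `RingHom.mapMatrix (eval s)`, `List.map_ofFn`, and `eval s (aeval (X k) q) = q.eval (s k)`, `pw_eval`.
`Ph_degree`: an entry of `pv (u k) k` has total degree `≤ n` (`aeval (X k) q` for `q.degree < n`: sum of `C c * X k ^ j`, `j < n`), an entry of a product of `N` such matrices total degree `≤ N * n` (induction on the list).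
`Ph_pderiv_zero`: product rule for a product of matrices over a list (`Derivation` entrywise; prove `pderiv k ((L₁ * L₂) i j) = ∑ ...` and induct on `List.ofFn`, or on `N` with `List.ofFn_succ`, generalising to a function
`w : Fin N → Matrix ..` with `(w i).map (eval 0) = 1` and `pderiv k` of the entries of `w i` zero for `i ≠ k`); at `0` all factors are `1` (`pw_eval` at `t = 0`) and the `k`-th factor contributes
`eval 0 (pderiv k (aeval (X k) q)) = q.derivative.eval 0 = q.coeff 1`.
-/

set_option autoImplicit false

namespace Pool.Agent.NLL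

open MvPolynomial

private theorem pv_map_eval {K : Type} [Field K] {n N : ℕ} (A : Matrix (Fin n) (Fin n) K)
    (k : Fin N) (s : Fin N → K) :
    (eval s).mapMatrix (pv A k) = (pw A).map (Polynomial.eval (s k)) := by
  refine Matrix.ext fun i j => ?_
  rw [RingHom.mapMatrix_apply, Matrix.map_apply, Matrix.map_apply]
  unfold pv
  rw [Matrix.map_apply]
  generalize pw A i j = q
  induction q using Polynomial.induction_on' with
  | add p q hp hq => rw [map_add, map_add, Polynomial.eval_add, hp, hq]
  | monomial m a =>
    rw [Polynomial.aeval_monomial, Polynomial.eval_monomial, map_mul, map_pow, eval_X,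
      MvPolynomial.algebraMap_eq, eval_C]

private theorem pv_degree {K : Type} [Field K] {n N : ℕ} (A : Matrix (Fin n) (Fin n) K)
    (k : Fin N) (i j : Fin n) : (pv A k i j).totalDegree ≤ n := by
  unfold pv
  rw [Matrix.map_apply]
  have h1 := pw_degree A i j
  generalize pw A i j = q at h1 ⊢
  rw [Polynomial.aeval_eq_sum_range]
  refine totalDegree_finsetSum_le fun d hd => ?_
  rw [Finset.mem_range] at hd
  refine (totalDegree_smul_le _ _).trans ?_
  rw [totalDegree_X_pow]
  by_cases hq : q = 0
  · rw [hq, Polynomial.natDegree_zero] at hd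
    omega
  · have h2 : q.natDegree < n := by
      rw [Polynomial.degree_eq_natDegree hq] at h1
      exact_mod_cast h1
    omega

private theorem list_degree {K : Type} [Field K] {n N : ℕ} (M : ℕ)
    (w : Fin M → Matrix (Fin n) (Fin n) (MvPolynomial (Fin N) K))
    (hw : ∀ a i j, (w a i j).totalDegree ≤ n) (i j : Fin n) :
    ((List.ofFn w).prod i j).totalDegree ≤ M * n := by
  induction M generalizing i j with
  | zero =>
    rw [List.ofFn_zero, List.prod_nil, Matrix.one_apply]
    split_ifs
    · rw [totalDegree_one]
      exact Nat.zero_le _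
    · rw [totalDegree_zero]
      exact Nat.zero_le _
  | succ M ih =>
    rw [List.ofFn_succ, List.prod_cons, Matrix.mul_apply]
    refine totalDegree_finsetSum_le fun b _ => ?_
    refine (totalDegree_mul _ _).trans ?_
    have h1 := hw 0 i b
    have h2 := ih (fun a => w a.succ) (fun a => hw a.succ) b j
    have h3 : (M + 1) * n = M * n + n := by ring
    omega

private theorem list_pderiv {K : Type} [Field K] {n N : ℕ} (k : Fin N) (M : ℕ)
    (w : Fin M → Matrix (Fin n) (Fin n) (MvPolynomial (Fin N) K))
    (hw : ∀ a, (eval (0 : Fin N → K)).mapMatrix (w a) = 1) (i j : Fin n) :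
    eval 0 (pderiv k ((List.ofFn w).prod i j)) = ∑ a, eval 0 (pderiv k (w a i j)) := by
  induction M generalizing i j with
  | zero =>
    rw [List.ofFn_zero, List.prod_nil, Matrix.one_apply, Finset.univ_eq_empty, Finset.sum_empty]
    split_ifs
    · rw [pderiv_one, map_zero]
    · rw [map_zero, map_zero]
  | succ M ih =>
    have h0 : (eval (0 : Fin N → K)).mapMatrix (List.ofFn fun a => w a.succ).prod = 1 := by
      rw [map_list_prod, List.map_ofFn]
      refine List.prod_eq_one fun x hx => ?_
      rw [List.mem_ofFn] at hx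
      obtain ⟨a, rfl⟩ := hx
      exact hw a.succ
    have h1 : ∀ a b, eval (0 : Fin N → K) (w 0 a b) = (1 : Matrix (Fin n) (Fin n) K) a b := by
      intro a b
      rw [← hw 0]
      rfl
    have h2 : ∀ a b, eval (0 : Fin N → K) ((List.ofFn fun a => w a.succ).prod a b) =
        (1 : Matrix (Fin n) (Fin n) K) a b := by
      intro a b
      rw [← h0]
      rfl
    rw [List.ofFn_succ, List.prod_cons, Matrix.mul_apply, map_sum, map_sum, Fin.sum_univ_succ]
    have h3 : ∀ b : Fin n, eval (0 : Fin N → K)
        (pderiv k (w 0 i b * (List.ofFn fun a => w a.succ).prod b j)) =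
        (1 : Matrix (Fin n) (Fin n) K) i b *
          eval 0 (pderiv k ((List.ofFn fun a => w a.succ).prod b j)) +
        (1 : Matrix (Fin n) (Fin n) K) b j * eval 0 (pderiv k (w 0 i b)) := by
      intro b
      rw [pderiv_mul, map_add, map_mul, map_mul, h1, h2]
      ring
    rw [Finset.sum_congr rfl fun b _ => h3 b, Finset.sum_add_distrib, add_comm]
    congr 1
    · rw [Finset.sum_eq_single j]
      · rw [Matrix.one_apply_eq, one_mul]
      · intro b _ hb
        rw [Matrix.one_apply_ne hb, zero_mul]
      · intro h
        exact absurd (Finset.mem_univ _) h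
    · rw [Finset.sum_eq_single i]
      · rw [Matrix.one_apply_eq, one_mul]
        exact ih (fun a => w a.succ) (fun a => hw a.succ) i j
      · intro b _ hb
        rw [Matrix.one_apply_ne (Ne.symm hb), zero_mul]
      · intro h
        exact absurd (Finset.mem_univ _) h

private theorem pv_pderiv {K : Type} [Field K] {n N : ℕ} (A : Matrix (Fin n) (Fin n) K)
    (k a : Fin N) (i j : Fin n) :
    eval 0 (pderiv k (pv A a i j)) = if a = k then lg A i j else 0 := by
  unfold pv lg
  rw [Matrix.map_apply, Matrix.map_apply]
  generalize pw A i j = q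
  rw [Derivation.map_aeval, smul_eq_mul, map_mul, pderiv_X, Pi.single_apply]
  split_ifs with h
  · rw [map_one, mul_one]
    have h1 : ∀ r : Polynomial K, eval (0 : Fin N → K) (Polynomial.aeval (X a) r) =
        r.eval 0 := by
      intro r
      induction r using Polynomial.induction_on' with
      | add p q hp hq => rw [map_add, map_add, Polynomial.eval_add, hp, hq]
      | monomial m c =>
        rw [Polynomial.aeval_monomial, Polynomial.eval_monomial, map_mul, map_pow, eval_X,
          MvPolynomial.algebraMap_eq, eval_C, Pi.zero_apply]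
    rw [h1, ← Polynomial.coeff_zero_eq_eval_zero, Polynomial.coeff_derivative]
    norm_num
  · rw [map_zero, mul_zero]

theorem Ph_eval {l : ℕ} [Fact l.Prime] {n N : ℕ} (hn : n ≤ l)
    (u : Fin N → Matrix (Fin n) (Fin n) (ZMod l)) (hu : ∀ k, (u k - 1) ^ n = 0)
    (s : Fin N → ZMod l) :
    (Ph u).map (eval s) = (List.ofFn fun k => u k ^ (s k).val).prod := by
  have h1 : (Ph u).map (eval s) = (eval s).mapMatrix (Ph u) := rfl
  rw [h1]
  unfold Ph
  rw [map_list_prod, List.map_ofFn]
  refine congrArg List.prod (congrArg List.ofFn (funext fun k => ?_))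
  rw [Function.comp_apply, pv_map_eval, pw_eval hn (u k) (hu k) (s k)]

theorem Ph_degree {K : Type} [Field K] {n N : ℕ} (u : Fin N → Matrix (Fin n) (Fin n) K)
    (i j : Fin n) : (Ph u i j).totalDegree ≤ N * n := by
  unfold Ph
  exact list_degree N _ (fun a i j => pv_degree (u a) a i j) i j

theorem Ph_pderiv_zero {l : ℕ} [Fact l.Prime] {n N : ℕ} (hn : n ≤ l)
    (u : Fin N → Matrix (Fin n) (Fin n) (ZMod l)) (hu : ∀ k, (u k - 1) ^ n = 0)
    (k : Fin N) (i j : Fin n) : eval 0 (pderiv k (Ph u i j)) = lg (u k) i j := by
  have h1 : ∀ a, (eval (0 : Fin N → ZMod l)).mapMatrix (pv (u a) a) = 1 := by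
    intro a
    rw [pv_map_eval, Pi.zero_apply, pw_eval hn (u a) (hu a) 0, ZMod.val_zero, pow_zero]
  unfold Ph
  rw [list_pderiv k N (fun a => pv (u a) a) h1 i j]
  rw [Finset.sum_congr rfl fun a _ => pv_pderiv (u a) k a i j, Finset.sum_ite_eq' ]
  rw [if_pos (Finset.mem_univ _)]

end Pool.Agent.NLL
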