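import Pool.Agent.NLL.PowB
import Pool.Agent.NLL.Interp

/-!
# Project NLL, module ProdB: the logarithmic derivatives of `Ph u` have coefficients in `L`

PLAN. Write `P i = pv (u i) i`, `Q i = ((pw (u i)).map (fun q => q.comp (-X))).map (aeval (X i))`; `P i * Q i = 1 = Q i * P i` (`pw_inv`, commutation: one-sided inverses of square matrices,
`Matrix.mul_eq_one_comm`). `(P k).map (pderiv k) = P k * (lg (u k)).map C` (`pw_deriv` and the chain rule `pderiv k (aeval (X k) q) = aeval (X k) (derivative q)`), `(P i).map (pderiv k) = 0` for `i ≠ k`.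
Product rule: `(Ph u).map (pderiv k) = (∏_{i<k} P i) * P k * (lg (u k)).map C * R` with `R = ∏_{i>k} P i`; with `R' = ` the product of the `Q i`, `i > k`, in the opposite order, `R * R' = 1`, so this is `Ph u * Λ`,
`Λ = R' * (lg (u k)).map C * R`. STABILITY (S): `Λ ∈ IL N L` implies `Q i * Λ * P i ∈ IL N L`: by linearity (`Submodule.span_induction`) `Λ = M.map C`, `M ∈ L`; then `Q i * M.map C * P i` is the image under `aeval (X i)` of
`F = (pw (u i)).map (·.comp (-X)) * M.map C * pw (u i)`, of degree `≤ 2 (n-1) < l`, with values `(u i) ^ (-t).val * M * (u i) ^ t.val ∈ L` (`hst` at `-t`), so all coefficient matrices `W_j` of `F` are in `L` (`coeff_mem`) and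
`Q i * M.map C * P i = ∑ j, (X i) ^ j • (W_j).map C ∈ IL N L`. Suggested induction: prove the statement for a list of indices `L0 : List (Fin N)` without repetitions
(`(L0.map P).prod`), then specialise to `List.ofFn id = List.finRange N`; in the step `P i * Π`: if `k = i` the derivative is `P i * (lg ..) * Π = P i * Π * (Π' * lg * Π)`, if `k ≠ i` it is `P i * (Π.map (pderiv k)) = P i * Π * Λ`.
-/

set_option autoImplicit false

namespace Pool.Agent.NLL

open MvPolynomial

/-- the inverse of `pv A k` -/
private noncomputable def qv {l : ℕ} [Fact l.Prime] {n N : ℕ}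
    (A : Matrix (Fin n) (Fin n) (ZMod l)) (k : Fin N) :
    Matrix (Fin n) (Fin n) (MvPolynomial (Fin N) (ZMod l)) :=
  ((pw A).map (fun q => q.comp (-Polynomial.X))).map
    (Polynomial.aeval (X k : MvPolynomial (Fin N) (ZMod l)))

private theorem pb_mul_map {l : ℕ} [Fact l.Prime] {n N : ℕ} (k : Fin N)
    (F G : Matrix (Fin n) (Fin n) (Polynomial (ZMod l))) :
    (F * G).map (Polynomial.aeval (X k : MvPolynomial (Fin N) (ZMod l))) =
      F.map (Polynomial.aeval (X k : MvPolynomial (Fin N) (ZMod l))) *
        G.map (Polynomial.aeval (X k : MvPolynomial (Fin N) (ZMod l))) :=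
  Matrix.map_mul (f := (Polynomial.aeval (X k : MvPolynomial (Fin N) (ZMod l))).toRingHom)

private theorem pv_mul_qv {l : ℕ} [Fact l.Prime] {n N : ℕ} (hn : 2 * n ≤ l)
    (A : Matrix (Fin n) (Fin n) (ZMod l)) (hA : (A - 1) ^ n = 0) (k : Fin N) :
    pv A k * qv A k = 1 := by
  unfold pv qv
  rw [← pb_mul_map, pw_inv hn A hA]
  refine Matrix.ext fun i j => ?_
  rw [Matrix.map_apply, Matrix.one_apply, Matrix.one_apply]
  split_ifs
  · rw [map_one]
  · rw [map_zero]

private theorem pb_map_pd {l : ℕ} [Fact l.Prime] {n N : ℕ} (k : Fin N)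
    (F G : Matrix (Fin n) (Fin n) (MvPolynomial (Fin N) (ZMod l))) :
    (F * G).map (pderiv k) = F.map (pderiv k) * G + F * G.map (pderiv k) := by
  refine Matrix.ext fun i j => ?_
  rw [Matrix.map_apply, Matrix.mul_apply, map_sum, Matrix.add_apply, Matrix.mul_apply,
    Matrix.mul_apply, ← Finset.sum_add_distrib]
  refine Finset.sum_congr rfl fun x _ => ?_
  rw [Derivation.leibniz, Matrix.map_apply, Matrix.map_apply, smul_eq_mul, smul_eq_mul]
  ring

private theorem pv_pd_same {l : ℕ} [Fact l.Prime] {n N : ℕ} (hn : 2 * n ≤ l)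
    (A : Matrix (Fin n) (Fin n) (ZMod l)) (hA : (A - 1) ^ n = 0) (k : Fin N) :
    (pv A k).map (pderiv k) = pv A k * (lg A).map C := by
  have h1 : (pv A k).map (pderiv k) = ((pw A).map Polynomial.derivative).map
      (Polynomial.aeval (X k : MvPolynomial (Fin N) (ZMod l))) := by
    refine Matrix.ext fun i j => ?_
    unfold pv
    rw [Matrix.map_apply, Matrix.map_apply, Matrix.map_apply, Matrix.map_apply,
      Derivation.map_aeval, pderiv_X_self, smul_eq_mul, mul_one]
  rw [h1, pw_deriv (by omega) A hA, pb_mul_map]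
  unfold pv
  congr 1
  refine Matrix.ext fun i j => ?_
  rw [Matrix.map_apply, Matrix.map_apply, Matrix.map_apply, Polynomial.aeval_C]
  rfl

private theorem pv_pd_ne {l : ℕ} [Fact l.Prime] {n N : ℕ}
    (A : Matrix (Fin n) (Fin n) (ZMod l)) {k i : Fin N} (h : i ≠ k) :
    (pv A i).map (pderiv k) = 0 := by
  refine Matrix.ext fun a b => ?_
  unfold pv
  rw [Matrix.map_apply, Matrix.map_apply, Derivation.map_aeval, pderiv_X_of_ne h, smul_zero]
  rfl

/-- stability of `IL N L` under the conjugations -/
private theorem il_stab {l : ℕ} [Fact l.Prime] {n N : ℕ} (hn : 2 * n ≤ l)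
    (A : Matrix (Fin n) (Fin n) (ZMod l)) (hA : (A - 1) ^ n = 0)
    (L : Submodule (ZMod l) (Matrix (Fin n) (Fin n) (ZMod l)))
    (hst : ∀ M ∈ L, ∀ t : ZMod l, A ^ t.val * M * A ^ (-t).val ∈ L) (k : Fin N)
    (E : Matrix (Fin n) (Fin n) (MvPolynomial (Fin N) (ZMod l))) (hE : E ∈ IL N L) :
    qv A k * E * pv A k ∈ IL N L := by
  unfold IL at hE
  induction hE using Submodule.span_induction with
  | mem E hE =>
    obtain ⟨M, hM, rfl⟩ := hE
    have hnl : n ≤ l := by omega
    set F : Matrix (Fin n) (Fin n) (Polynomial (ZMod l)) :=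
      (pw A).map (fun q => q.comp (-Polynomial.X)) * M.map Polynomial.C * pw A with hF
    have hdeg : ∀ i j, (F i j).natDegree ≤ (n - 1) + (n - 1) := by
      have hpw : ∀ i j, (pw A i j).natDegree ≤ n - 1 := by
        intro i j
        rw [Polynomial.natDegree_le_iff_coeff_eq_zero]
        intro m hm
        refine Polynomial.coeff_eq_zero_of_degree_lt (lt_of_lt_of_le (pw_degree A i j) ?_)
        have h1 : n ≤ m := by omega
        exact_mod_cast h1
      intro i j
      rw [hF, Matrix.mul_apply]
      refine Polynomial.natDegree_sum_le_of_forall_le _ _ fun x _ => ?_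
      refine Polynomial.natDegree_mul_le.trans (Nat.add_le_add ?_ (hpw x j))
      rw [Matrix.mul_apply]
      refine Polynomial.natDegree_sum_le_of_forall_le _ _ fun y _ => ?_
      rw [Matrix.map_apply, Matrix.map_apply]
      refine (Polynomial.natDegree_mul_C_le _ _).trans ?_
      rw [Polynomial.natDegree_comp, Polynomial.natDegree_neg, Polynomial.natDegree_X, mul_one]
      exact hpw i y
    have hdeg' : ∀ i j, (F i j).natDegree < l := by
      intro i j
      have hn0 : 0 < n := lt_of_le_of_lt (Nat.zero_le _) i.2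
      have := hdeg i j
      omega
    have hW : ∀ j, (F.map fun q => q.coeff j) ∈ L := by
      intro j
      refine coeff_mem L F (fun i j => ?_) (fun t => ?_) j
      · exact lt_of_le_of_lt Polynomial.degree_le_natDegree (by exact_mod_cast hdeg' i j)
      · have h1 : F.map (Polynomial.eval t) = A ^ (-t).val * M * A ^ t.val := by
          have h2 : ∀ G H : Matrix (Fin n) (Fin n) (Polynomial (ZMod l)),
              (G * H).map (Polynomial.eval t) =
                G.map (Polynomial.eval t) * H.map (Polynomial.eval t) :=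
            fun G H => Matrix.map_mul (f := Polynomial.evalRingHom t)
          rw [hF, h2, h2, pw_eval hnl A hA t]
          congr 1
          congr 1
          · rw [← pw_eval hnl A hA (-t)]
            refine Matrix.ext fun i j => ?_
            rw [Matrix.map_apply, Matrix.map_apply, Matrix.map_apply, Polynomial.eval_comp,
              Polynomial.eval_neg, Polynomial.eval_X]
          · refine Matrix.ext fun i j => ?_
            rw [Matrix.map_apply, Matrix.map_apply, Polynomial.eval_C]
        rw [h1]
        have h3 := hst M hM (-t)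
        rwa [neg_neg] at h3
    have hsum : qv A k * M.map C * pv A k =
        ∑ j ∈ Finset.range l, (X k : MvPolynomial (Fin N) (ZMod l)) ^ j •
          (F.map fun q => q.coeff j).map (C : ZMod l →+* MvPolynomial (Fin N) (ZMod l)) := by
      have h1 : qv A k * M.map C * pv A k =
          F.map (Polynomial.aeval (X k : MvPolynomial (Fin N) (ZMod l))) := by
        rw [hF, pb_mul_map, pb_mul_map]
        unfold pv qv
        congr 2
        refine Matrix.ext fun i j => ?_
        rw [Matrix.map_apply, Matrix.map_apply, Matrix.map_apply, Polynomial.aeval_C]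
        rfl
      rw [h1]
      refine Matrix.ext fun i j => ?_
      rw [Matrix.map_apply, Matrix.sum_apply, Polynomial.aeval_eq_sum_range' (hdeg' i j)]
      refine Finset.sum_congr rfl fun x _ => ?_
      rw [Matrix.smul_apply, Matrix.map_apply, Matrix.map_apply, smul_eq_mul, mul_comm,
        ← MvPolynomial.smul_eq_C_mul]
    rw [hsum]
    refine Submodule.sum_mem _ fun j _ => Submodule.smul_mem _ _ ?_
    exact Submodule.subset_span ⟨_, hW j, rfl⟩
  | zero =>
    rw [mul_zero, zero_mul]
    exact Submodule.zero_mem _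
  | add x y _ _ hx hy =>
    rw [mul_add, add_mul]
    exact Submodule.add_mem _ hx hy
  | smul a x _ hx =>
    rw [mul_smul_comm, smul_mul_assoc]
    exact Submodule.smul_mem _ _ hx

theorem Ph_pderiv {l : ℕ} [Fact l.Prime] {n N : ℕ} (hn : 2 * n ≤ l)
    (u : Fin N → Matrix (Fin n) (Fin n) (ZMod l)) (hu : ∀ k, (u k - 1) ^ n = 0)
    (L : Submodule (ZMod l) (Matrix (Fin n) (Fin n) (ZMod l))) (hL : ∀ k, lg (u k) ∈ L)
    (hst : ∀ k, ∀ M ∈ L, ∀ t : ZMod l, u k ^ t.val * M * u k ^ (-t).val ∈ L) (k : Fin N) :
    ∃ Λ ∈ IL N L, (Ph u).map (pderiv k) = Ph u * Λ := by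
  have key : ∀ s : List (Fin N), ∃ R' : Matrix (Fin n) (Fin n) (MvPolynomial (Fin N) (ZMod l)),
      (s.map fun i => pv (u i) i).prod * R' = 1 ∧
      (∀ E ∈ IL N L, R' * E * (s.map fun i => pv (u i) i).prod ∈ IL N L) ∧
      ∃ Λ ∈ IL N L, ((s.map fun i => pv (u i) i).prod).map (pderiv k) =
        (s.map fun i => pv (u i) i).prod * Λ := by
    intro s
    induction s with
    | nil =>
      refine ⟨1, ?_, ?_, 0, Submodule.zero_mem _, ?_⟩
      · rw [List.map_nil, List.prod_nil, one_mul]
      · intro E hE
        rw [List.map_nil, List.prod_nil, one_mul, mul_one]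
        exact hE
      · rw [List.map_nil, List.prod_nil, one_mul]
        refine Matrix.ext fun i j => ?_
        rw [Matrix.map_apply, Matrix.one_apply]
        split_ifs
        · rw [pderiv_one]
          rfl
        · rw [map_zero]
          rfl
    | cons i s ih =>
      obtain ⟨R', hR, hS, Λ, hΛ, hD⟩ := ih
      set Pp := (s.map fun i => pv (u i) i).prod with hQq
      refine ⟨R' * qv (u i) i, ?_, ?_, ?_⟩
      · rw [List.map_cons, List.prod_cons, ← hQq, mul_assoc, ← mul_assoc Pp, hR, one_mul,
          pv_mul_qv hn (u i) (hu i)]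
      · intro E hE
        rw [List.map_cons, List.prod_cons, ← hQq]
        have h1 := hS _ (il_stab hn (u i) (hu i) L (hst i) i E hE)
        have h2 : R' * qv (u i) i * E * (pv (u i) i * Pp) =
            R' * (qv (u i) i * E * pv (u i) i) * Pp := by
          simp only [mul_assoc]
        rw [h2]
        exact h1
      · by_cases hik : i = k
        · refine ⟨R' * (lg (u i)).map C * Pp + Λ, ?_, ?_⟩
          · refine Submodule.add_mem _ (hS _ ?_) hΛ
            exact Submodule.subset_span ⟨_, hL i, rfl⟩
          · rw [List.map_cons, List.prod_cons, ← hQq, pb_map_pd, hD, ← hik,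
              pv_pd_same hn (u i) (hu i) i, mul_add, mul_assoc (pv (u i) i) Pp Λ]
            congr 1
            have h2 : pv (u i) i * Pp * (R' * (lg (u i)).map C * Pp) =
                pv (u i) i * (Pp * R') * (lg (u i)).map C * Pp := by
              simp only [mul_assoc]
            rw [h2, hR, mul_one]
        · refine ⟨Λ, hΛ, ?_⟩
          rw [List.map_cons, List.prod_cons, ← hQq, pb_map_pd, hD, pv_pd_ne (u i) hik, zero_mul,
            zero_add, mul_assoc]
  obtain ⟨R', _, _, Λ, hΛ, hD⟩ := key (List.finRange N)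
  refine ⟨Λ, hΛ, ?_⟩
  have h1 : Ph u = ((List.finRange N).map fun i => pv (u i) i).prod := by
    unfold Ph
    rw [List.ofFn_eq_map]
  rw [h1]
  exact hD

end Pool.Agent.NLL
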