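import Pool.Agent.NLL.MainP
import Pool.Agent.NLL.JacUp
import Pool.Agent.NLL.JacLow

/-!
# Project NLL, module ThmN: log-linearity

For every prime `l > C(n, m)`, homomorphisms `τ : Γ → GL_n(F_l)` and `σ : Γ → GL_m(F_l)` with
`ker τ ⊆ ker σ`: a linear relation between the logarithms of elements `τ (u i)` of order `l` holds
for the logarithms of the `σ (u i)`.
-/

set_option autoImplicit false

namespace Pool.Agent.NLL

open MvPolynomial

private theorem val_neg_pow {l : ℕ} [Fact l.Prime] {n : ℕ} (g : GL (Fin n) (ZMod l)) (hg : g ^ l = 1)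
    (t : ZMod l) : g ^ (-t).val = (g ^ t.val)⁻¹ := by
  have h1 : g ^ (t.val + (-t).val) = 1 := by
    have h2 : l ∣ t.val + (-t).val := by
      rw [← ZMod.natCast_eq_zero_iff]
      push_cast
      rw [ZMod.natCast_zmod_val, ZMod.natCast_zmod_val, add_neg_cancel]
    obtain ⟨c, hc⟩ := h2
    rw [hc, pow_mul, hg, one_pow]
  rw [pow_add] at h1
  exact (inv_eq_of_mul_eq_one_right h1).symm

private theorem pow_mat {l : ℕ} {n : ℕ} (g : GL (Fin n) (ZMod l)) (hg : g ^ l = 1) :
    (g : Matrix (Fin n) (Fin n) (ZMod l)) ^ l = 1 := by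
  have h := congrArg (Units.val) hg
  simpa using h

theorem log_linear (n m : ℕ) : ∃ C : ℕ, ∀ (l : ℕ) [Fact l.Prime], C < l → ∀ (Γ : Type) [Group Γ]
    (τ : Γ →* GL (Fin n) (ZMod l)) (σ : Γ →* GL (Fin m) (ZMod l)), (∀ x, τ x = 1 → σ x = 1) →
    ∀ (κ : Type) [Fintype κ] (c : κ → ZMod l) (u : κ → Γ), (∀ i, τ (u i) ^ l = 1) →
    ∑ i, c i • lg (τ (u i) : Matrix (Fin n) (Fin n) (ZMod l)) = 0 →
    ∑ i, c i • lg (σ (u i) : Matrix (Fin m) (Fin m) (ZMod l)) = 0 := by
  choose C hC using fun N : ℕ => fibre N ((N + 1) * max n m) (Fin n × Fin n) (Fin m × Fin m)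
  refine ⟨2 * n + 2 * m + ∑ N ∈ Finset.range (n * n + m * m), C N,
    fun l _ hl Γ _ τ σ hker κ _ c u hu h0 => ?_⟩
  by_contra hne
  have hn : 2 * n ≤ l := by omega
  have hm : m ≤ l := by omega
  have hσu : ∀ x, τ x ^ l = 1 → σ x ^ l = 1 := by
    intro x hx
    rw [← map_pow]
    exact hker _ (by rw [map_pow, hx])
  -- the spaces of logarithms
  obtain ⟨Z, hZ⟩ : ∃ Z : Γ → Matrix (Fin n) (Fin n) (ZMod l) × Matrix (Fin m) (Fin m) (ZMod l),
      Z = fun x => (lg (τ x : Matrix (Fin n) (Fin n) (ZMod l)),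
        lg (σ x : Matrix (Fin m) (Fin m) (ZMod l))) := ⟨_, rfl⟩
  obtain ⟨L', hL'⟩ : ∃ L' : Submodule (ZMod l)
      (Matrix (Fin n) (Fin n) (ZMod l) × Matrix (Fin m) (Fin m) (ZMod l)),
      L' = Submodule.span (ZMod l) (Z '' {x | τ x ^ l = 1}) := ⟨_, rfl⟩
  obtain ⟨L, hL⟩ : ∃ L : Submodule (ZMod l) (Matrix (Fin n) (Fin n) (ZMod l)),
      L = L'.map (LinearMap.fst (ZMod l) _ _) := ⟨_, rfl⟩
  have hZL' : ∀ x, τ x ^ l = 1 → Z x ∈ L' := fun x hx => by
    rw [hL']
    exact Submodule.subset_span ⟨x, hx, rfl⟩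
  have hmemL : ∀ x, τ x ^ l = 1 → lg (τ x : Matrix (Fin n) (Fin n) (ZMod l)) ∈ L := by
    intro x hx
    rw [hL]
    exact ⟨Z x, hZL' x hx, by rw [hZ]; rfl⟩
  have hLspan : L = Submodule.span (ZMod l)
      ((fun x => lg (τ x : Matrix (Fin n) (Fin n) (ZMod l))) '' {x | τ x ^ l = 1}) := by
    rw [hL, hL', Submodule.map_span, ← Set.image_comp, hZ]
    rfl
  -- the kernel of the projection is nonzero
  have hlt : Module.finrank (ZMod l) L < Module.finrank (ZMod l) L' := by
    have h1 : (∑ i, c i • Z (u i)) ∈ L' :=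
      Submodule.sum_mem _ fun i _ => Submodule.smul_mem _ _ (hZL' _ (hu i))
    have h2 : (∑ i, c i • Z (u i)) = (0, ∑ i, c i • lg (σ (u i) : Matrix (Fin m) (Fin m) (ZMod l))) := by
      rw [hZ]
      refine Prod.ext ?_ ?_
      · rw [Prod.fst_sum]
        exact h0
      · rw [Prod.snd_sum]
        rfl
    obtain ⟨f, hf⟩ : ∃ f : L' →ₗ[ZMod l] Matrix (Fin n) (Fin n) (ZMod l),
        f = (LinearMap.fst (ZMod l) _ _).comp L'.subtype := ⟨_, rfl⟩
    have h3 : LinearMap.range f = L := by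
      rw [hf, LinearMap.range_comp, Submodule.range_subtype, hL]
    have h4 := LinearMap.finrank_range_add_finrank_ker f
    have h5 : 0 < Module.finrank (ZMod l) (LinearMap.ker f) := by
      rw [Module.finrank_pos_iff_exists_ne_zero]
      refine ⟨⟨⟨_, h1⟩, ?_⟩, ?_⟩
      · rw [LinearMap.mem_ker, hf]
        show (∑ i, c i • Z (u i)).1 = 0
        rw [h2]
      · intro h6
        have h7 := congrArg (fun z : LinearMap.ker f => ((z : L') : Matrix (Fin n) (Fin n) (ZMod l) ×
          Matrix (Fin m) (Fin m) (ZMod l)).2) h6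
        apply hne
        have h8 : (∑ i, c i • Z (u i)).2 = 0 := h7
        rw [h2] at h8
        exact h8
    rw [h3] at h4
    omega
  -- a basis of logarithms
  obtain ⟨b, hbsub, hbspan, hbli⟩ := exists_linearIndependent (ZMod l) (Z '' {x | τ x ^ l = 1})
  rw [← hL'] at hbspan
  have hbfin : b.Finite := hbli.setFinite
  have hcard : Nat.card b = Module.finrank (ZMod l) L' := by
    have h1 := Module.finrank_eq_nat_card_basis (Module.Basis.span hbli)
    rw [Subtype.range_coe, hbspan] at h1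
    exact h1.symm
  obtain ⟨N, hN⟩ : ∃ N, Module.finrank (ZMod l) L' = N + 1 :=
    ⟨Module.finrank (ZMod l) L' - 1, by omega⟩
  have hNle : N < n * n + m * m := by
    have h1 : Module.finrank (ZMod l) L' ≤ Module.finrank (ZMod l)
        (Matrix (Fin n) (Fin n) (ZMod l) × Matrix (Fin m) (Fin m) (ZMod l)) :=
      Submodule.finrank_le L'
    rw [Module.finrank_prod, Module.finrank_matrix, Module.finrank_matrix, Module.finrank_self] at h1
    simp only [Fintype.card_fin, mul_one] at h1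
    omega
  have : Finite b := hbfin
  have e : Fin (N + 1) ≃ b := (Finite.equivFinOfCardEq (hcard.trans hN)).symm
  have hw : ∀ k : Fin (N + 1), ∃ x : Γ, τ x ^ l = 1 ∧ Z x = (e k : _ × _) := by
    intro k
    obtain ⟨x, hx1, hx2⟩ := hbsub (e k).2
    exact ⟨x, hx1, hx2⟩
  choose w hw1 hw2 using hw
  have hli : LinearIndependent (ZMod l) fun k => Z (w k) := by
    have h1 := hbli.comp e e.injective
    have h2 : (fun k => Z (w k)) = (Subtype.val ∘ e) := by
      funext k
      exact hw2 k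
    rw [h2]
    exact h1
  have hwu : ∀ k, ((τ (w k) : Matrix (Fin n) (Fin n) (ZMod l)) - 1) ^ n = 0 := fun k =>
    sub_one_pow _ (pow_mat _ (hw1 k))
  have hwv : ∀ k, ((σ (w k) : Matrix (Fin m) (Fin m) (ZMod l)) - 1) ^ m = 0 := fun k =>
    sub_one_pow _ (pow_mat _ (hσu _ (hw1 k)))
  have hst : ∀ k, ∀ M ∈ L, ∀ t : ZMod l, (τ (w k) : Matrix (Fin n) (Fin n) (ZMod l)) ^ t.val * M *
      (τ (w k) : Matrix (Fin n) (Fin n) (ZMod l)) ^ (-t).val ∈ L := by
    intro k M hM t
    have hc : ∀ x, τ x ^ l = 1 → (τ (w k) : Matrix (Fin n) (Fin n) (ZMod l)) ^ t.val *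
        lg (τ x : Matrix (Fin n) (Fin n) (ZMod l)) *
        (τ (w k) : Matrix (Fin n) (Fin n) (ZMod l)) ^ (-t).val ∈ L := by
      intro x hx
      have h1 : (τ (w k) : Matrix (Fin n) (Fin n) (ZMod l)) ^ (-t).val =
          (((τ (w k) ^ t.val)⁻¹ : GL (Fin n) (ZMod l)) : Matrix (Fin n) (Fin n) (ZMod l)) := by
        rw [← val_neg_pow (τ (w k)) (hw1 k) t, Units.val_pow_eq_pow_val]
      rw [h1, ← Units.val_pow_eq_pow_val, ← lg_conj, ← Units.val_mul, ← Units.val_mul,
        ← map_pow, ← map_inv, ← map_mul, ← map_mul]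
      apply hmemL
      rw [map_mul, map_mul, map_inv, conj_pow, hx, mul_one, mul_inv_cancel]
    rw [hLspan] at hM
    induction hM using Submodule.span_induction with
    | mem M hM =>
      obtain ⟨x, hx, rfl⟩ := hM
      exact hc x hx
    | zero => rw [mul_zero, zero_mul]; exact Submodule.zero_mem _
    | add A B _ _ hA hB => rw [mul_add, add_mul]; exact Submodule.add_mem _ hA hB
    | smul a A _ hA =>
      rw [Matrix.mul_smul, Matrix.smul_mul]
      exact Submodule.smul_mem _ _ hA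
  have hCN : C N < l := by
    have h1 : C N ≤ ∑ N ∈ Finset.range (n * n + m * m), C N :=
      Finset.single_le_sum (fun _ _ => Nat.zero_le _) (Finset.mem_range.mpr hNle)
    omega
  obtain ⟨s, t, hst1, b', hst2⟩ := hC N l hCN
    (fun a => Ph (fun k => (τ (w k) : Matrix (Fin n) (Fin n) (ZMod l))) a.1 a.2)
    (fun a => Ph (fun k => (σ (w k) : Matrix (Fin m) (Fin m) (ZMod l))) a.1 a.2)
    (fun a => (Ph_degree _ _ _).trans (Nat.mul_le_mul_left _ (le_max_left _ _)))
    (fun a => (Ph_degree _ _ _).trans (Nat.mul_le_mul_left _ (le_max_right _ _)))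
    (jac_up hn _ hwu L (fun k => hmemL _ (hw1 k)) hst (by omega))
    (jac_low (by omega) hm _ hwu _ hwv (by rw [hZ] at hli; exact hli))
  -- the two products
  have hprod : ∀ {r : ℕ} (φ : Γ →* GL (Fin r) (ZMod l)) (s : Fin (N + 1) → ZMod l),
      (List.ofFn fun k => (φ (w k) : Matrix (Fin r) (Fin r) (ZMod l)) ^ (s k).val).prod =
        (φ (List.ofFn fun k => w k ^ (s k).val).prod : Matrix (Fin r) (Fin r) (ZMod l)) := by
    intro r φ s
    rw [map_list_prod, List.map_ofFn]
    have h1 := map_list_prod (Units.coeHom (Matrix (Fin r) (Fin r) (ZMod l)))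
      (List.ofFn (φ ∘ fun k => w k ^ (s k).val))
    rw [Units.coeHom_apply] at h1
    rw [h1, List.map_ofFn]
    congr 1
    congr 1
    funext k
    simp
  have heq : τ (List.ofFn fun k => w k ^ (s k).val).prod = τ (List.ofFn fun k => w k ^ (t k).val).prod := by
    apply Units.ext
    rw [← hprod τ s, ← hprod τ t, ← Ph_eval (by omega) _ hwu, ← Ph_eval (by omega) _ hwu]
    ext i j
    exact hst1 (i, j)
  have heq2 : σ (List.ofFn fun k => w k ^ (s k).val).prod = σ (List.ofFn fun k => w k ^ (t k).val).prod := by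
    have h1 := hker ((List.ofFn fun k => w k ^ (s k).val).prod *
      ((List.ofFn fun k => w k ^ (t k).val).prod)⁻¹) (by rw [map_mul, map_inv, heq, mul_inv_cancel])
    rw [map_mul, map_inv] at h1
    exact mul_inv_eq_one.mp h1
  apply hst2
  have h5 := Ph_eval hm _ hwv s
  have h6 := Ph_eval hm _ hwv t
  rw [hprod σ] at h5 h6
  rw [heq2, ← h6] at h5
  exact congrFun (congrFun h5 b'.1) b'.2

end Pool.Agent.NLL
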